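import Pool.Agent.Y6.Stm3

/-!
Octave gaps: heights from seminorms, and the passage from smooth solutions to the Fourier side.
-/

open MeasureTheory Set
open scoped ContDiff ENNReal

set_option autoImplicit false

namespace Pool.Agent.Y6

open Pool.Agent.H356R3.NS hiding K sq

/-- The height of a seminorm. -/
noncomputable def hgt (N : Seminorm ℝ (Fin 3 → ℝ)) (k : K) : ℕ := ⌈N fun i => (k i : ℝ)⌉₊

/-- Every nonzero seminorm of `ℝ³` gives a height. -/
def St_height : Prop :=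
  ∀ N : Seminorm ℝ (Fin 3 → ℝ), N ≠ 0 → ∃ H A : ℝ, 0 < H ∧ 0 ≤ A ∧ Height (hgt N) H A

/-- The Fourier coefficients of a smooth periodic solution, in the frame moving with the mean
velocity `m`: `w(t, k) = exp(2 π i (k · m) t) û(t, k)` for `k ≠ 0`, `w(t, 0) = 0`. -/
def St_conv : Prop :=
  ∀ (ν T : ℝ) (u : ℝ → R3 → R3) (p : ℝ → R3 → ℝ), 0 < ν → H459R3.NS.IsSol ν T u p →
    ∃ w : ℝ → K → C3, TSol (4 * Real.pi ^ 2 * ν) T univ w ∧
      (∀ t ∈ Ico 0 T, ∀ k, k ≠ 0 → ∀ i, ‖w t k i‖ = ‖H459R3.NS.fr (fun x => u t x i) k‖) ∧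
      (∀ t ∈ Ico 0 T, H459R3.NS.palin (u t) = (2 * Real.pi) ^ 4 * wn (fun k => qk k ^ 2) (w t))

end Pool.Agent.Y6
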