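import Pool.Agent.Y6.Stm3

/-!
Closed levels: the production of the energy above a level, in general and for closed levels.
-/

open MeasureTheory Set
open scoped ContDiff ENNReal

set_option autoImplicit false

namespace Pool.Agent.Y6

open Pool.Agent.H356R3.NS hiding K sq

/-- Production of the energy above the level `M`. -/
def St_L2g : Prop :=
  ∃ C : ℝ, 0 ≤ C ∧ ∀ (h : K → ℕ) (H A : ℝ), 0 ≤ A → Height h H A → ∀ M : ℕ, 1 ≤ M →
    ∀ y : K → C3, Fld y →
      |prdi (ind {k | M < h k}) y| ≤
        C * Real.sqrt (A * M * XM h M y) * Real.sqrt (wn (ind {k | M < h k}) y) *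
          Real.sqrt (wn (fun k => ind {k | M < h k} k * qk k) y)
        + C * Real.sqrt (wn (ind {k | M < h k ∧ h k ≤ 2 * M}) y) * Real.sqrt (wn qk y) *
          Real.sqrt (wn (fun k => qk k ^ 2) y)

/-- Production of the energy above the level `M` if the support of `y` has no triad with two modes below
and one mode above the level. -/
def St_L2c : Prop :=
  ∃ C : ℝ, 0 ≤ C ∧ ∀ (h : K → ℕ) (H A : ℝ), 0 ≤ A → Height h H A → ∀ M : ℕ, 1 ≤ M →
    ∀ y : K → C3, Fld y →
      (∀ k l, h k ≤ M → h l ≤ M → M < h (k + l) → y k = 0 ∨ y l = 0 ∨ y (k + l) = 0) →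
      |prdi (ind {k | M < h k}) y| ≤
        C * Real.sqrt (A * M * XM h M y) * Real.sqrt (wn (ind {k | M < h k}) y) *
          Real.sqrt (wn (fun k => ind {k | M < h k} k * qk k) y)

end Pool.Agent.Y6
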