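import Pool.Agent.Y6.Stm2
import Pool.Agent.Y6.Stm4
import Pool.Agent.Y6.Stm5

/-!
Solutions on `[0, T)`, `T ≤ ∞`, of the Navier-Stokes equations with modes in a set.
-/

open MeasureTheory Set
open scoped ContDiff ENNReal

set_option autoImplicit false

namespace Pool.Agent.Y6

open Pool.Agent.H356R3.NS hiding K sq

/-- The time interval `[0, T)`, for `T ≤ ∞`. -/
def tI (T : EReal) : Set ℝ := {t | 0 ≤ t ∧ (t : EReal) < T}

/-- `(u, p)` is a smooth periodic solution on `[0, T)` of the Navier-Stokes equations restricted to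
the set `Q` of Fourier modes (the decimated, or Galerkin projected, equations), with viscosity `ν`,
zero force and initial velocity `v`: `u` and `p` are `C^∞` on `[0, T) × ℝ³` and `ℤ³`-periodic in `x`,
`div u = 0`, `u(0) = v`, all Fourier coefficients of `u(t)` with frequency outside `Q` vanish, and all
Fourier coefficients with frequency in `Q` of
`∂_t u_i + ∑_j u_j ∂_j u_i - ν Δ u_i + ∂_i p` vanish. (If `Q` is the set of all nonzero frequencies, these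
are the Navier-Stokes equations for velocities with mean zero.) -/
structure DecSolOn (Q : Set (Fin 3 → ℤ)) (ν : ℝ) (T : EReal) (v : (Fin 3 → ℝ) → Fin 3 → ℝ)
    (u : ℝ → (Fin 3 → ℝ) → Fin 3 → ℝ) (p : ℝ → (Fin 3 → ℝ) → ℝ) : Prop where
  smooth_u : ContDiffOn ℝ ∞ (fun z : ℝ × (Fin 3 → ℝ) => u z.1 z.2) (tI T ×ˢ univ)
  smooth_p : ContDiffOn ℝ ∞ (fun z : ℝ × (Fin 3 → ℝ) => p z.1 z.2) (tI T ×ˢ univ)
  periodic_u : ∀ t ∈ tI T, ∀ x j, u t (x + Pi.single j 1) = u t x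
  periodic_p : ∀ t ∈ tI T, ∀ x j, p t (x + Pi.single j 1) = p t x
  modes : ∀ t ∈ tI T, ∀ k ∉ Q, Pool.Agent.H356R3.NS.fc (u t) k = 0
  momentum : ∀ t ∈ tI T, ∀ k ∈ Q, Pool.Agent.H356R3.NS.fc (fun x i =>
    derivWithin (fun s => u s x i) (tI T) t
      + ∑ j, u t x j * Pool.Agent.H356R3.NS.pd j (fun y => u t y i) x
      - ν * ∑ j, Pool.Agent.H356R3.NS.pd j (Pool.Agent.H356R3.NS.pd j fun y => u t y i) x
      + Pool.Agent.H356R3.NS.pd i (p t) x) k = 0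
  divFree : ∀ t ∈ tI T, ∀ x, ∑ i, Pool.Agent.H356R3.NS.pd i (fun y => u t y i) x = 0
  initial : u 0 = v

/-- From the physical side to the Fourier side. -/
def St_convQ : Prop :=
  ∀ (ν : ℝ) (Q : Set K) (T : EReal) (v : R3 → R3) (u : ℝ → R3 → R3) (p : ℝ → R3 → ℝ), 0 < ν →
    (∀ k ∈ Q, -k ∈ Q) → (0 : K) ∉ Q → DecSolOn Q ν T v u p →
    ∀ T0 : ℝ, (T0 : EReal) ≤ T → TSol (4 * Real.pi ^ 2 * ν) T0 Q (fun t => fc (u t))

/-- From the Fourier side to the physical side. -/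
def St_physQ : Prop :=
  ∀ (ν : ℝ) (Q : Set K) (T : EReal) (v : R3 → R3) (w : ℝ → K → C3), 0 < ν → (∀ k ∈ Q, -k ∈ Q) →
    (0 : K) ∉ Q → 0 < T → Dat v → (∀ k, k ∉ Q → fc v k = 0) →
    (∀ T0 : ℝ, (T0 : EReal) ≤ T → TSol (4 * Real.pi ^ 2 * ν) T0 Q w) → w 0 = fc v →
    ∃ (U : ℝ → R3 → R3) (P : ℝ → R3 → ℝ), DecSolOn Q ν T v U P ∧ ∀ t ∈ tI T, fc (U t) = w t

/-- Uniqueness on the Fourier side. -/
def St_uniqF : Prop :=
  ∀ (c T : ℝ) (Q : Set K) (u w : ℝ → K → C3), 0 < c → (∀ k ∈ Q, -k ∈ Q) → TSol c T Q u →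
    TSol c T Q w → u 0 = w 0 → ∀ t ∈ Ico 0 T, u t = w t

end Pool.Agent.Y6
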