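import Pool.Agent.Y6.Gal

/-!
Galerkin approximations: bounds which do not depend on the number of modes.
-/

open MeasureTheory Set Filter Topology Metric
open scoped ENNReal NNReal InnerProductSpace

set_option autoImplicit false

namespace Pool.Agent.Y6

open Pool.Agent.H356R3.NS hiding K sq

lemma anti_of_deriv {f f' : ℝ → ℝ} {T : ℝ} (h : ∀ t ∈ Icc 0 T, HasDerivWithinAt f (f' t) (Icc 0 T) t)
    (hn : ∀ t ∈ Icc 0 T, f' t ≤ 0) {t : ℝ} (ht : t ∈ Icc 0 T) : f t ≤ f 0 := by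
  have h0 : (0 : ℝ) ∈ Icc 0 T := ⟨le_rfl, ht.1.trans ht.2⟩
  have h1 : AntitoneOn f (Icc 0 T) := by
    refine antitoneOn_of_deriv_nonpos (convex_Icc 0 T) (fun s hs => (h s hs).continuousWithinAt) ?_ ?_
    · intro s hs
      rw [interior_Icc] at hs
      exact ((h s (Ioo_subset_Icc_self hs)).hasDerivAt
        (Icc_mem_nhds hs.1 hs.2)).differentiableAt.differentiableWithinAt
    · intro s hs
      rw [interior_Icc] at hs
      rw [((h s (Ioo_subset_Icc_self hs)).hasDerivAt (Icc_mem_nhds hs.1 hs.2)).deriv]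
      exact hn s (Ioo_subset_Icc_self hs)
  exact h1 h0 ht ht.1

lemma en2_deriv {f : ℝ → C3} {f' : C3} {s : Set ℝ} {t : ℝ} (h : HasDerivWithinAt f f' s t) :
    HasDerivWithinAt (fun t => en2 (f t)) (2 * (ipc (f t) f').re) s t := by
  unfold en2 ipc
  rw [Complex.re_sum, Finset.mul_sum]
  have h1 : ∀ i ∈ (Finset.univ : Finset (Fin 3)), HasDerivWithinAt (fun t => ‖f t i‖ ^ 2)
      (2 * (star (f t i) * f' i).re) s t := by
    intro i _
    have h2 : HasDerivWithinAt (fun t => f t i) (f' i) s t := (hasDerivWithinAt_pi.1 h) i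
    have h3 := h2.norm_sq
    rw [Complex.inner] at h3
    rw [mul_comm (star (f t i))]
    exact h3
  exact HasDerivWithinAt.fun_sum h1

section

variable {c T : ℝ} {S : Finset K} {V : K → C3} {y : ℝ → K → C3}

lemma Gal.phi_deriv (h : Gal c T S V y) (s : ℕ) {t : ℝ} (ht : t ∈ Icc 0 T) :
    HasDerivWithinAt (fun t => phi S s (y t))
      (-(2 * c) * phi S (s + 1) (y t) + 2 * prd S (fun k => qk k ^ s) (y t)) (Icc 0 T) t := by
  unfold phi prd
  have h1 : ∀ k ∈ S, HasDerivWithinAt (fun t => qk k ^ s * en2 (y t k))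
      (qk k ^ s * (2 * (ipc (y t k) (RH c (y t) k)).re)) (Icc 0 T) t := fun k hk =>
    (en2_deriv (h.ode t ht k hk)).const_mul _
  have h2 := HasDerivWithinAt.fun_sum h1
  refine h2.congr_deriv ?_
  rw [Finset.mul_sum, Finset.mul_sum, ← Finset.sum_add_distrib]
  refine Finset.sum_congr rfl fun k _ => ?_
  rw [re_ipc_RH, pow_succ]
  ring

lemma Gal.phi_zero (h : Gal c T S V y) (s : ℕ) : phi S s (y 0) = phi S s V := by
  unfold phi
  exact Finset.sum_congr rfl fun k hk => by rw [h.init k hk]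

lemma two_mul_le_add {c X Y D : ℝ} (hc : 0 < c) : 2 * D * X * Y ≤ c * Y ^ 2 + D ^ 2 / c * X ^ 2 := by
  have h1 : 0 ≤ (c * Y - D * X) ^ 2 / c := by positivity
  have h2 : (c * Y - D * X) ^ 2 / c = c * Y ^ 2 + D ^ 2 / c * X ^ 2 - 2 * D * X * Y := by
    field_simp
    ring
  linarith

/-- The bounds. -/
theorem Gal.bounds (h : Gal c T S V y) (hc : 0 < c) (hS : ∀ k ∈ S, -k ∈ S) (h0 : (0 : K) ∉ S)
    {D Lam : ℝ} (_hD : 0 ≤ D) (hL : ∑ k ∈ S, (1 / nk k) ^ 4 ≤ Lam)
    (htr : ∀ t ∈ Icc 0 T, |prd S qk (y t)| ≤ D * phi S 1 (y t) * Real.sqrt (phi S 2 (y t)))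
    (s : ℕ) {t : ℝ} (ht : t ∈ Icc 0 T) :
    phi S s (y t) ≤ phi S s V * Real.exp ((2 * Real.pi * 2 ^ (s + 1)) ^ 2 * Lam / (2 * c ^ 2) *
      (phi S 1 V * Real.exp (D ^ 2 / (2 * c ^ 2) * phi S 0 V))) := by
  have hL0 : 0 ≤ Lam := (Finset.sum_nonneg fun k _ => by positivity).trans hL
  set a : ℝ := D ^ 2 / (2 * c ^ 2) with ha
  set E : ℝ → ℝ := fun t => phi S 0 (y t) with hE
  set Z : ℝ → ℝ := fun t => phi S 1 (y t) with hZ
  set P : ℝ → ℝ := fun t => phi S 2 (y t) with hP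
  have hE0 : ∀ t, 0 ≤ E t := fun t => phi_nonneg _ _ _
  have hZ0 : ∀ t, 0 ≤ Z t := fun t => phi_nonneg _ _ _
  have hP0 : ∀ t, 0 ≤ P t := fun t => phi_nonneg _ _ _
  have hdE : ∀ t ∈ Icc 0 T, HasDerivWithinAt E (-(2 * c) * Z t) (Icc 0 T) t := by
    intro t ht
    refine (h.phi_deriv 0 ht).congr_deriv ?_
    have h1 := prd_one hS (h.supp t ht) (h.sym t ht) (h.div t ht)
    simp only [pow_zero, zero_add]
    rw [h1]
    ring
  have hdZ : ∀ t ∈ Icc 0 T, HasDerivWithinAt Z (-(2 * c) * P t + 2 * prd S qk (y t)) (Icc 0 T) t := by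
    intro t ht
    have h1 := h.phi_deriv 1 ht
    simp only [pow_one] at h1
    exact h1
  -- the function G
  set G : ℝ → ℝ := fun t => Z t * Real.exp (a * E t) with hG
  set G' : ℝ → ℝ := fun t => (-(2 * c) * P t + 2 * prd S qk (y t)) * Real.exp (a * E t)
      + Z t * (Real.exp (a * E t) * (a * (-(2 * c) * Z t))) with hG'
  have hdG : ∀ t ∈ Icc 0 T, HasDerivWithinAt G (G' t) (Icc 0 T) t := fun t ht =>
    (hdZ t ht).mul (((hdE t ht).const_mul a).exp)
  have ha0 : 0 ≤ a := by positivity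
  have hGle : ∀ t ∈ Icc 0 T, G' t ≤ -(c * P t) := by
    intro t ht
    have h1 := htr t ht
    have h2 := le_of_abs_le h1
    have h3 := two_mul_le_add (c := c) (X := Z t) (Y := Real.sqrt (P t)) (D := D) hc
    rw [Real.sq_sqrt (hP0 t)] at h3
    have h4 : -(2 * c) * P t + 2 * prd S qk (y t) ≤ -(c * P t) + D ^ 2 / c * Z t ^ 2 := by
      have : prd S qk (y t) ≤ D * Z t * Real.sqrt (P t) := h2
      nlinarith
    have h5 : a * (-(2 * c) * Z t) * Z t = -(D ^ 2 / c * Z t ^ 2) := by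
      rw [ha]
      field_simp
    have h6 : G' t = Real.exp (a * E t) * ((-(2 * c) * P t + 2 * prd S qk (y t))
        + a * (-(2 * c) * Z t) * Z t) := by
      rw [hG']
      ring
    rw [h6, h5]
    have h7 : (-(2 * c) * P t + 2 * prd S qk (y t)) + -(D ^ 2 / c * Z t ^ 2) ≤ -(c * P t) := by linarith
    have h8 : 1 ≤ Real.exp (a * E t) := Real.one_le_exp (mul_nonneg ha0 (hE0 t))
    calc _ ≤ Real.exp (a * E t) * (-(c * P t)) := mul_le_mul_of_nonneg_left h7 (Real.exp_pos _).le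
      _ ≤ _ := by
          have h9 : 0 ≤ c * P t := mul_nonneg hc.le (hP0 t)
          nlinarith
  have hG0 : ∀ t, 0 ≤ G t := fun t => mul_nonneg (hZ0 t) (Real.exp_pos _).le
  -- the function H
  set M : ℝ := 2 * Real.pi * 2 ^ (s + 1) with hM
  set b : ℝ := M ^ 2 * Lam / (2 * c ^ 2) with hb
  have hb0 : 0 ≤ b := by positivity
  set F : ℝ → ℝ := fun t => phi S s (y t) with hF
  have hF0 : ∀ t, 0 ≤ F t := fun t => phi_nonneg _ _ _
  set F' : ℝ → ℝ := fun t => -(2 * c) * phi S (s + 1) (y t) + 2 * prd S (fun k => qk k ^ s) (y t) with hF'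
  have hdF : ∀ t ∈ Icc 0 T, HasDerivWithinAt F (F' t) (Icc 0 T) t := fun t ht => h.phi_deriv s ht
  have hFle : ∀ t ∈ Icc 0 T, F' t ≤ M ^ 2 * Lam / (2 * c) * P t * F t := by
    intro t ht
    have h1 := abs_prd_pow_le (h.supp t ht) (h.div t ht) s
    have h2 := sum_en_le (y := y t) h0 hL
    have h3 : prd S (fun k => qk k ^ s) (y t) ≤ M * (Real.sqrt (phi S (s + 1) (y t)) *
        Real.sqrt (F t) * (Real.sqrt Lam * Real.sqrt (P t))) := by
      refine (le_of_abs_le h1).trans ?_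
      have hM0 : 0 ≤ M := by positivity
      exact mul_le_mul_of_nonneg_left (mul_le_mul_of_nonneg_left h2
        (mul_nonneg (Real.sqrt_nonneg _) (Real.sqrt_nonneg _))) hM0
    have h4 := two_mul_le_add (c := 2 * c) (X := Real.sqrt (F t) * (Real.sqrt Lam * Real.sqrt (P t)))
      (Y := Real.sqrt (phi S (s + 1) (y t))) (D := M) (by positivity)
    have h5 : (Real.sqrt (F t) * (Real.sqrt Lam * Real.sqrt (P t))) ^ 2 = F t * (Lam * P t) := by
      rw [mul_pow, mul_pow, Real.sq_sqrt (hF0 t), Real.sq_sqrt hL0, Real.sq_sqrt (hP0 t)]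
    rw [h5, Real.sq_sqrt (phi_nonneg _ _ _)] at h4
    have h6 : M ^ 2 / (2 * c) * (F t * (Lam * P t)) = M ^ 2 * Lam / (2 * c) * P t * F t := by ring
    rw [h6] at h4
    have h7 : F' t = -(2 * c) * phi S (s + 1) (y t) + 2 * prd S (fun k => qk k ^ s) (y t) := rfl
    rw [h7]
    nlinarith
  have hdH : ∀ t ∈ Icc 0 T, HasDerivWithinAt (fun t => F t * Real.exp (b * G t))
      (F' t * Real.exp (b * G t) + F t * (Real.exp (b * G t) * (b * G' t))) (Icc 0 T) t := fun t ht =>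
    (hdF t ht).mul (((hdG t ht).const_mul b).exp)
  have hHle : ∀ t ∈ Icc 0 T, F' t * Real.exp (b * G t) + F t * (Real.exp (b * G t) * (b * G' t)) ≤ 0 := by
    intro t ht
    have h1 := hFle t ht
    have h2 := hGle t ht
    have h3 : F' t * Real.exp (b * G t) + F t * (Real.exp (b * G t) * (b * G' t))
        = Real.exp (b * G t) * (F' t + b * F t * G' t) := by ring
    rw [h3]
    refine mul_nonpos_of_nonneg_of_nonpos (Real.exp_pos _).le ?_
    have h4 : b * F t * G' t ≤ b * F t * (-(c * P t)) :=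
      mul_le_mul_of_nonneg_left h2 (mul_nonneg hb0 (hF0 t))
    have h5 : b * F t * (-(c * P t)) = -(M ^ 2 * Lam / (2 * c) * P t * F t) := by
      rw [hb]
      field_simp
    linarith
  have hfin := anti_of_deriv hdH hHle ht
  have hG00 : G 0 = phi S 1 V * Real.exp (a * phi S 0 V) := by
    simp only [hG, hZ, hE, h.phi_zero]
  have hF00 : F 0 = phi S s V := h.phi_zero s
  rw [hG00, hF00] at hfin
  refine le_trans ?_ hfin
  have h8 : 1 ≤ Real.exp (b * G t) := Real.one_le_exp (mul_nonneg hb0 (hG0 t))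
  calc phi S s (y t) = F t * 1 := (mul_one _).symm
    _ ≤ F t * Real.exp (b * G t) := mul_le_mul_of_nonneg_left h8 (hF0 t)

end

end Pool.Agent.Y6
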