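import Pool.Agent.Y6.Tri
import Pool.Agent.H356R3.NS.Fix2
import Pool.Agent.H356R3.NS.Four2

/-!
Bounds of the bilinear term and weights.
-/

open MeasureTheory Set Filter Topology Metric
open scoped ENNReal NNReal InnerProductSpace

set_option autoImplicit false

namespace Pool.Agent.Y6

open Pool.Agent.H356R3.NS hiding K sq

section

variable {x z : K → C3} {b b' : K → ℝ}

lemma summ_bb (hb : Summable b) (hb' : Summable b') (h0 : ∀ k, 0 ≤ b k) (h0' : ∀ k, 0 ≤ b' k) (k : K) :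
    Summable fun l => b l * b' (k - l) := by
  refine (hb.mul_right (∑' l, b' l)).of_nonneg_of_le (fun l => mul_nonneg (h0 _) (h0' _)) fun l => ?_
  exact mul_le_mul_of_nonneg_left (hb'.le_tsum _ fun _ _ => h0' _) (h0 l)

lemma norm_Bf_conv (hb : Summable b) (hb' : Summable b') (h : ∀ k, ‖x k‖ ≤ b k) (h' : ∀ k, ‖z k‖ ≤ b' k)
    (k : K) : ‖Bf x z k‖ ≤ C0 * nk k * ∑' l, b l * b' (k - l) := by
  have h0 : ∀ k, 0 ≤ b k := fun k => (norm_nonneg _).trans (h k)
  have h0' : ∀ k, 0 ≤ b' k := fun k => (norm_nonneg _).trans (h' k)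
  have hC := C0_pos
  have hn := nk_nonneg k
  have hs := summ_bb hb hb' h0 h0' k
  have ht : 0 ≤ ∑' l, b l * b' (k - l) := tsum_nonneg fun l => mul_nonneg (h0 _) (h0' _)
  have h1 := enorm_Bf_le x z k
  have h2 : ∑' l, ‖x l‖ₑ * ‖z (k - l)‖ₑ ≤ ENNReal.ofReal (∑' l, b l * b' (k - l)) := by
    rw [ENNReal.ofReal_tsum_of_nonneg (fun l => mul_nonneg (h0 _) (h0' _)) hs]
    refine ENNReal.tsum_le_tsum fun l => ?_
    rw [ENNReal.ofReal_mul (h0 l), ← ofReal_norm, ← ofReal_norm]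
    exact mul_le_mul' (ENNReal.ofReal_le_ofReal (h l)) (ENNReal.ofReal_le_ofReal (h' _))
  have h3 : ‖Bf x z k‖ₑ ≤ ENNReal.ofReal (C0 * nk k * ∑' l, b l * b' (k - l)) := by
    rw [ENNReal.ofReal_mul (by positivity)]
    exact h1.trans (mul_le_mul' le_rfl h2)
  rw [← ofReal_norm] at h3
  exact (ENNReal.ofReal_le_ofReal_iff (by positivity)).1 h3

lemma tsum_bb_le (hb : Summable b) (hb' : Summable b') (h0 : ∀ k, 0 ≤ b k) (h0' : ∀ k, 0 ≤ b' k) (k : K) :
    ∑' l, b l * b' (k - l) ≤ (∑' l, b l) * ∑' l, b' l := by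
  rw [← tsum_mul_right]
  refine (summ_bb hb hb' h0 h0' k).tsum_le_tsum (fun l => ?_) (hb.mul_right _)
  exact mul_le_mul_of_nonneg_left (hb'.le_tsum _ fun _ _ => h0' _) (h0 l)

/-- a summable bound of the bilinear term -/
lemma norm_Bf_summ (hb : Summable fun k => pw k * b k) (hb' : Summable fun k => pw k * b' k)
    (h : ∀ k, ‖x k‖ ≤ b k) (h' : ∀ k, ‖z k‖ ≤ b' k) (k : K) :
    ‖Bf x z k‖ ≤ C0 * ∑' l, (pw l * b l) * (pw (k - l) * b' (k - l)) := by
  have h0 : ∀ k, 0 ≤ b k := fun k => (norm_nonneg _).trans (h k)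
  have h0' : ∀ k, 0 ≤ b' k := fun k => (norm_nonneg _).trans (h' k)
  have p0 : ∀ k, 0 ≤ pw k * b k := fun k => mul_nonneg (pw_pos k).le (h0 k)
  have p0' : ∀ k, 0 ≤ pw k * b' k := fun k => mul_nonneg (pw_pos k).le (h0' k)
  have sb : Summable b := hb.of_nonneg_of_le h0 fun k => by
    have := one_le_pw k
    have := h0 k
    nlinarith
  have sb' : Summable b' := hb'.of_nonneg_of_le h0' fun k => by
    have := one_le_pw k
    have := h0' k
    nlinarith
  refine (norm_Bf_conv sb sb' h h' k).trans ?_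
  rw [mul_assoc]
  refine mul_le_mul_of_nonneg_left ?_ C0_pos.le
  rw [← tsum_mul_left]
  refine ((summ_bb sb sb' h0 h0' k).mul_left _).tsum_le_tsum (fun l => ?_) (summ_bb hb hb' p0 p0' k)
  have h1 : nk k ≤ pw l * pw (k - l) := (nk_le_pw k).trans (pw_sub k l)
  calc nk k * (b l * b' (k - l)) ≤ (pw l * pw (k - l)) * (b l * b' (k - l)) :=
        mul_le_mul_of_nonneg_right h1 (mul_nonneg (h0 _) (h0' _))
    _ = _ := by ring

lemma Bf_tendsto' {ι : Type*} {F : Filter ι} {x : ι → K → C3} {y : K → C3} {b : K → ℝ} (hb : Summable b)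
    (h0 : ∀ k, 0 ≤ b k) (h : ∀ n k, ‖x n k‖ ≤ b k) (ht : ∀ k, Tendsto (fun n => x n k) F (𝓝 (y k)))
    (k : K) : Tendsto (fun n => Bf (x n) (x n) k) F (𝓝 (Bf y y k)) := by
  refine tendsto_pi_nhds.2 fun i => ?_
  unfold Bf
  refine tendsto_finsetSum _ fun j _ => tendsto_finsetSum _ fun m _ => Tendsto.const_mul _ ?_
  unfold cv
  refine tendsto_tsum_of_dominated_convergence (bound := fun l => b l * ∑' l', b l')
    (hb.mul_right _) (fun l => ?_) (Filter.Eventually.of_forall fun n l => ?_)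
  · have h1 : Tendsto (fun n => x n l j) F (𝓝 (y l j)) :=
      ((continuous_apply j).tendsto _).comp (ht l)
    have h2 : Tendsto (fun n => x n (k - l) m) F (𝓝 (y (k - l) m)) :=
      ((continuous_apply m).tendsto _).comp (ht (k - l))
    exact h1.mul h2
  · rw [norm_mul]
    apply mul_le_mul ((norm_le_pi_norm _ j).trans (h n l)) _ (norm_nonneg _) (h0 l)
    exact ((norm_le_pi_norm _ m).trans (h n (k - l))).trans (hb.le_tsum (k - l) fun _ _ => h0 _)

end

/-! ### weights -/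

lemma l1_le_nk (k : K) : l1 k ≤ 2 * nk k := by
  unfold l1 nk
  have h1 : (∑ i, |(k i : ℝ)|) ^ 2 ≤ 3 * Pool.Agent.H356R3.NS.sq k := by
    unfold Pool.Agent.H356R3.NS.sq
    simp only [Fin.sum_univ_three]
    have a := sq_abs (k 0 : ℝ)
    have b := sq_abs (k 1 : ℝ)
    have c := sq_abs (k 2 : ℝ)
    nlinarith [sq_nonneg (|(k 0 : ℝ)| - |(k 1 : ℝ)|), sq_nonneg (|(k 0 : ℝ)| - |(k 2 : ℝ)|),
      sq_nonneg (|(k 1 : ℝ)| - |(k 2 : ℝ)|)]
  have h2 : (∑ i, |(k i : ℝ)|) ^ 2 ≤ (2 * Real.sqrt (Pool.Agent.H356R3.NS.sq k)) ^ 2 := by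
    rw [mul_pow, Real.sq_sqrt (sq_nonneg' k)]
    have := sq_nonneg' k
    linarith
  exact (pow_le_pow_iff_left₀ (Finset.sum_nonneg fun _ _ => abs_nonneg _) (by positivity) (by norm_num)).1 h2

lemma pw_le_nk {k : K} (hk : k ≠ 0) : pw k ≤ 3 * nk k := by
  have h1 := l1_le_nk k
  have h2 := one_le_nk hk
  unfold pw
  linarith

lemma summ_pw4 : Summable fun k : K => (1 / pw k) ^ 4 := by
  have h1 : Summable fun k : K => (1 / nk k) ^ 4 + (if k = 0 then (1 : ℝ) else 0) :=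
    summ_nk4.add (summable_of_ne_finset_zero (s := {0}) fun k hk => by
      have : k ≠ 0 := by simpa using hk
      simp [this])
  refine h1.of_nonneg_of_le (fun k => by have := pw_pos k; positivity) fun k => ?_
  by_cases hk : k = 0
  · subst hk
    have : pw (0 : K) = 1 := by simp [pw, l1]
    simp [this, nk_zero]
  · rw [if_neg hk, add_zero]
    have := nk_pos hk
    have h2 := nk_le_pw k
    have h3 := pw_pos k
    exact pow_le_pow_left₀ (by positivity) (one_div_le_one_div_of_le this h2) 4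

lemma summ_of_bound {f : K → ℝ} (m : ℕ) {C : ℝ} (h : ∀ k, pw k ^ (m + 4) * f k ≤ C) :
    Summable (fun k => C * (1 / pw k) ^ 4) ∧ ∀ k, pw k ^ m * f k ≤ C * (1 / pw k) ^ 4 := by
  refine ⟨summ_pw4.mul_left C, fun k => ?_⟩
  have hp := pw_pos k
  have h1 := h k
  rw [one_div, inv_pow, ← div_eq_mul_inv, le_div_iff₀ (by positivity)]
  calc pw k ^ m * f k * pw k ^ 4 = pw k ^ (m + 4) * f k := by rw [pow_add]; ring
    _ ≤ C := h1

end Pool.Agent.Y6
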