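import Mathlib

/-!
Sets of modes with few quadruples: statements of the two auxiliary theorems.
-/

open MeasureTheory Set
open scoped ENNReal

set_option autoImplicit false

namespace Pool.Agent.Y6

/-- Frequencies. -/
abbrev K := Fin 3 → ℤ

/-- The maximum norm of a frequency. -/
def sz (k : K) : ℕ := Finset.univ.sup fun i => (k i).natAbs

/-- The lattice cube `[0, 2^(j+1))³`. -/
noncomputable def bx (j : ℕ) : Finset K := Fintype.piFinset fun _ => Finset.Ico (0 : ℤ) (2 ^ (j + 1))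

/-- The number of points `l` of the cube `[0, 2^(j+1))³` such that all the translates `l + x i` lie
in `Q` and have maximum norm at least `2^j`. -/
noncomputable def cnt (Q : Set K) (j : ℕ) {n : ℕ} (x : Fin n → K) : ℕ :=
  {l : K | l ∈ bx j ∧ ∀ i, l + x i ∈ Q ∧ 2 ^ j ≤ sz (l + x i)}.ncard

/-- `Q` has few quadruples: for every `j`, for all pairwise different `x 0, x 1, x 2, x 3` and all
`y, z` with `z - y = x 1 - x 0`, the number of points `l` of the cube `[0, 2^(j+1))³` with the four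
points `l + x i` in `Q` and of size at least `2^j`, times the number of points `l` of this cube
with the two points `l + y`, `l + z` in `Q` and of size at least `2^j`, is at most `A² 16^j`. -/
def Good (A : ℝ) (Q : Set K) : Prop :=
  ∀ (j : ℕ) (x : Fin 4 → K), Function.Injective x → ∀ y z : K, z - y = x 1 - x 0 →
    (cnt Q j x : ℝ) * cnt Q j ![y, z] ≤ A ^ 2 * 16 ^ j

/-- The trilinear estimate. -/
def St_tril : Prop :=
  ∃ C : ℝ, 0 ≤ C ∧ ∀ (A : ℝ) (Q : Set K), 1 ≤ A → (∀ k ∈ Q, -k ∈ Q) → Good A Q →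
    ∀ w : K → ℝ≥0∞, (∀ k, k ∉ Q → w k = 0) → w 0 = 0 → (∀ k, w (-k) = w k) →
      ∑' k, ∑' l, w k * w l * w (k + l) ≤ ENNReal.ofReal (C * Real.sqrt A) * (∑' k, w k ^ 2) *
        (∑' k, ((sz k : ℝ≥0∞) * w k) ^ 2) ^ (1 / 2 : ℝ)

/-- Random symmetric sets in which a mode `k` is present with probability at most `C |k|^(-1/3)`
have few quadruples, almost surely. -/
def St_prob.{u} : Prop :=
  ∀ (Ω : Type u) [MeasurableSpace Ω] (μ : Measure Ω) [IsProbabilityMeasure μ] (Q : Ω → Set K) (C : ℝ),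
    (∀ k, MeasurableSet {ω | k ∈ Q ω}) → (∀ ω, ∀ k ∈ Q ω, -k ∈ Q ω) →
    (∀ S : Finset K, (∀ k ∈ S, -k ∉ S) → μ {ω | ∀ k ∈ S, k ∈ Q ω}
      ≤ ∏ k ∈ S, ENNReal.ofReal (C * (sz k : ℝ) ^ (-(1 / 3) : ℝ))) →
    ∀ᵐ ω ∂μ, ∃ A : ℝ, 1 ≤ A ∧ Good A (Q ω)

end Pool.Agent.Y6
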