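import Pool.Agent.H356R3.NS.Basic2
import Pool.Agent.Y6.Stm

/-!
Energy, enstrophy and higher norms of the Galerkin approximations on the Fourier side: algebra.
-/

open MeasureTheory Set Filter Topology
open scoped ENNReal NNReal

set_option autoImplicit false

namespace Pool.Agent.Y6

open Pool.Agent.H356R3.NS hiding K sq

/-- `|k|²` -/
noncomputable abbrev qk (k : K) : ℝ := Pool.Agent.H356R3.NS.sq k

/-- the Euclidean norm, squared -/
noncomputable def en2 (v : C3) : ℝ := ∑ i, ‖v i‖ ^ 2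

/-- the Euclidean norm -/
noncomputable def en (v : C3) : ℝ := Real.sqrt (en2 v)

lemma en2_nonneg (v : C3) : 0 ≤ en2 v := Finset.sum_nonneg fun _ _ => sq_nonneg _

lemma en_nonneg (v : C3) : 0 ≤ en v := Real.sqrt_nonneg _

lemma en_sq (v : C3) : en v ^ 2 = en2 v := Real.sq_sqrt (en2_nonneg v)

lemma en2_zero : en2 0 = 0 := by simp [en2]

lemma en_zero : en 0 = 0 := by simp [en, en2_zero]

lemma norm_le_en (v : C3) : ‖v‖ ≤ en v := by
  rw [pi_norm_le_iff_of_nonneg (en_nonneg v)]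
  intro i
  unfold en
  rw [← Real.sqrt_sq (norm_nonneg (v i))]
  apply Real.sqrt_le_sqrt
  exact Finset.single_le_sum (f := fun i => ‖v i‖ ^ 2) (fun _ _ => sq_nonneg _) (Finset.mem_univ i)

lemma en2_le (v : C3) : en2 v ≤ 3 * ‖v‖ ^ 2 := by
  unfold en2
  calc ∑ i, ‖v i‖ ^ 2 ≤ ∑ _i : Fin 3, ‖v‖ ^ 2 :=
        Finset.sum_le_sum fun i _ => pow_le_pow_left₀ (norm_nonneg _) (norm_le_pi_norm v i) 2
    _ = _ := by simp

lemma nk_eq_norm (k : K) : nk k = ‖(WithLp.toLp 2 fun i => (k i : ℝ) : EuclideanSpace ℝ (Fin 3))‖ := by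
  rw [EuclideanSpace.norm_eq]
  unfold nk Pool.Agent.H356R3.NS.sq
  simp

lemma nk_add (k l : K) : nk (k + l) ≤ nk k + nk l := by
  rw [nk_eq_norm, nk_eq_norm, nk_eq_norm]
  have : (WithLp.toLp 2 fun i => ((k + l) i : ℝ) : EuclideanSpace ℝ (Fin 3))
      = WithLp.toLp 2 (fun i => (k i : ℝ)) + WithLp.toLp 2 (fun i => (l i : ℝ)) := by
    ext i
    simp
  rw [this]
  exact norm_add_le _ _

lemma nk_sub_le (k l : K) : nk k ≤ nk (k - l) + nk l := by
  have := nk_add (k - l) l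
  rwa [sub_add_cancel] at this

lemma nk_sub_le' (k l : K) : nk (k - l) ≤ nk k + nk l := by
  have := nk_add k (-l)
  rwa [← sub_eq_add_neg, nk_neg] at this

lemma abs_nk_sub (k l : K) : |nk k - nk (k - l)| ≤ nk l := by
  rw [abs_le]
  constructor
  · have := nk_sub_le' k l; linarith
  · have := nk_sub_le k l; linarith

/-- Hermitian product -/
noncomputable def ipc (v w : C3) : ℂ := ∑ m, star (v m) * w m

lemma norm_ipc_le (v w : C3) : ‖ipc v w‖ ≤ en v * en w := by
  unfold ipc en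
  rw [← Real.sqrt_mul (en2_nonneg v)]
  refine (norm_sum_le _ _).trans (Real.le_sqrt_of_sq_le ?_)
  simp only [norm_mul, norm_star]
  exact Finset.sum_mul_sq_le_sq_mul_sq _ _ _

lemma norm_dt_le (k : K) (v : C3) : ‖dt k v‖ ≤ nk k * en v := by
  unfold dt nk en
  rw [← Real.sqrt_mul (sq_nonneg' k)]
  refine (norm_sum_le _ _).trans (Real.le_sqrt_of_sq_le ?_)
  simp only [norm_mul, Complex.norm_intCast]
  refine (Finset.sum_mul_sq_le_sq_mul_sq _ _ _).trans (le_of_eq ?_)
  unfold en2 Pool.Agent.H356R3.NS.sq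
  simp

lemma ipc_self (v : C3) : ipc v v = (en2 v : ℂ) := by
  unfold ipc en2
  push_cast
  refine Finset.sum_congr rfl fun i _ => ?_
  rw [mul_comm]
  have := Complex.mul_conj (v i)
  rw [Complex.star_def, this, Complex.normSq_eq_norm_sq]
  push_cast
  ring

lemma star_ipc (v w : C3) : star (ipc v w) = ipc w v := by
  unfold ipc
  rw [star_sum]
  refine Finset.sum_congr rfl fun i _ => ?_
  rw [star_mul', star_star, mul_comm]

/-- The pairing with the bilinear term. -/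
lemma ipc_Bf {k : K} {v : C3} (hv : dt k v = 0) (x y : K → C3) :
    ipc v (Bf x y k) = -(2 * Real.pi * Complex.I) * ∑ j, ∑ m, (k j : ℂ) * star (v m) * cv x y k j m := by
  have h0 : ∑ i, (k i : ℂ) * star (v i) = 0 := by
    have := congrArg star hv
    unfold dt at this
    rw [star_sum, star_zero] at this
    rw [← this]
    refine Finset.sum_congr rfl fun i _ => ?_
    rw [star_mul']
    congr 1
    simp
  unfold ipc Bf
  simp only [Finset.mul_sum]
  rw [Finset.sum_comm]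
  refine Finset.sum_congr rfl fun j _ => ?_
  rw [Finset.sum_comm]
  refine Finset.sum_congr rfl fun m _ => ?_
  have h1 : ∑ i, star (v i) * (coef k i j m * cv x y k j m)
      = -(2 * Real.pi * Complex.I) * (k j : ℂ) * (∑ i, (if m = i then star (v i) else 0)
        - (∑ i, (k i : ℂ) * star (v i)) * ((k m : ℂ) / ((qk k : ℝ) : ℂ))) * cv x y k j m := by
    rw [Finset.sum_mul, ← Finset.sum_sub_distrib, Finset.mul_sum, Finset.sum_mul]
    refine Finset.sum_congr rfl fun i _ => ?_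
    unfold coef
    split_ifs <;> ring
  rw [h1, h0]
  simp
  ring

section fin

variable {S : Finset K} {y : K → C3}

lemma cv_fin (hy : ∀ k, k ∉ S → y k = 0) (z : K → C3) (k : K) (i j : Fin 3) :
    cv y z k i j = ∑ l ∈ S, y l i * z (k - l) j := by
  unfold cv
  refine tsum_eq_sum fun l hl => ?_
  rw [hy l hl]
  simp

/-- the triads -/
noncomputable def tau (y : K → C3) (k l : K) : ℂ := dt k (y l) * ipc (y k) (y (k - l))

lemma ipc_Bf_fin (hy : ∀ k, k ∉ S → y k = 0) {k : K} (hd : dt k (y k) = 0) :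
    ipc (y k) (Bf y y k) = -(2 * Real.pi * Complex.I) * ∑ l ∈ S, tau y k l := by
  rw [ipc_Bf hd]
  congr 1
  simp only [cv_fin hy, Finset.mul_sum]
  have : ∀ j : Fin 3, ∑ m : Fin 3, ∑ l ∈ S, (k j : ℂ) * star (y k m) * (y l j * y (k - l) m)
      = ∑ l ∈ S, ∑ m : Fin 3, (k j : ℂ) * star (y k m) * (y l j * y (k - l) m) := fun j =>
    Finset.sum_comm
  simp only [this]
  rw [Finset.sum_comm]
  refine Finset.sum_congr rfl fun l _ => ?_
  unfold tau dt ipc
  rw [Finset.sum_mul_sum]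
  refine Finset.sum_congr rfl fun j _ => Finset.sum_congr rfl fun m _ => ?_
  ring

lemma dt_sub (k l : K) (v : C3) : dt (k - l) v = dt k v - dt l v := by
  unfold dt
  rw [← Finset.sum_sub_distrib]
  refine Finset.sum_congr rfl fun j _ => ?_
  simp only [Pi.sub_apply, Int.cast_sub]
  ring

lemma dt_star (k : K) (v : C3) : dt k (fun i => star (v i)) = star (dt k v) := by
  unfold dt
  rw [star_sum]
  refine Finset.sum_congr rfl fun j _ => ?_
  rw [star_mul']
  congr 1
  simp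

lemma tau_swap (hs : Sym y) (hd : ∀ k, dt k (y k) = 0) (k l : K) :
    tau y (k - l) (-l) = star (tau y k l) := by
  unfold tau
  have h1 : y (-l) = fun i => star (y l i) := funext fun i => hs l i
  have h2 : dt (k - l) (y l) = dt k (y l) := by rw [dt_sub, hd l, sub_zero]
  rw [star_mul', star_ipc, sub_neg_eq_add, sub_add_cancel, h1, dt_star, h2]

lemma sum_swap (hS : ∀ k ∈ S, -k ∈ S) (hy : ∀ k, k ∉ S → y k = 0) (hs : Sym y)
    (hd : ∀ k, dt k (y k) = 0) (ρ : K → ℂ) :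
    ∑ k ∈ S, ∑ l ∈ S, ρ k * tau y k l = ∑ k ∈ S, ∑ l ∈ S, ρ (k - l) * star (tau y k l) := by
  classical
  have h0 : ∀ k l, k - l ∉ S → tau y k l = 0 := by
    intro k l h
    unfold tau
    rw [hy _ h]
    simp [ipc]
  rw [← Finset.sum_product' (f := fun k l => ρ k * tau y k l),
    ← Finset.sum_product' (f := fun k l => ρ (k - l) * star (tau y k l))]
  rw [← Finset.sum_filter_of_ne (s := S ×ˢ S) (p := fun p => p.1 - p.2 ∈ S)
      (f := fun p : K × K => ρ p.1 * tau y p.1 p.2) (fun p _ hp => by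
        by_contra h
        exact hp (by simp [h0 _ _ h])),
    ← Finset.sum_filter_of_ne (s := S ×ˢ S) (p := fun p => p.1 - p.2 ∈ S)
      (f := fun p : K × K => ρ (p.1 - p.2) * star (tau y p.1 p.2)) (fun p _ hp => by
        by_contra h
        exact hp (by simp [h0 _ _ h]))]
  refine Finset.sum_nbij' (fun p => (p.1 - p.2, -p.2)) (fun p => (p.1 - p.2, -p.2)) ?_ ?_ ?_ ?_ ?_
  · intro p hp
    simp only [Finset.mem_filter, Finset.mem_product] at hp ⊢
    exact ⟨⟨hp.2, hS _ hp.1.2⟩, by simpa using hp.1.1⟩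
  · intro p hp
    simp only [Finset.mem_filter, Finset.mem_product] at hp ⊢
    exact ⟨⟨hp.2, hS _ hp.1.2⟩, by simpa using hp.1.1⟩
  · intro p _
    simp
  · intro p _
    simp
  · intro p _
    simp only
    rw [tau_swap hs hd, star_star, sub_neg_eq_add, sub_add_cancel]

/-- the production of the norm with weight `ρ` -/
noncomputable def prd (S : Finset K) (ρ : K → ℝ) (y : K → C3) : ℝ :=
  ∑ k ∈ S, ρ k * (ipc (y k) (Bf y y k)).re

lemma prd_eq (hy : ∀ k, k ∉ S → y k = 0) (hd : ∀ k, dt k (y k) = 0) (ρ : K → ℝ) :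
    prd S ρ y = 2 * Real.pi * (∑ k ∈ S, ∑ l ∈ S, (ρ k : ℂ) * tau y k l).im := by
  unfold prd
  have h1 : ∀ k, ρ k * (ipc (y k) (Bf y y k)).re = (2 * Real.pi) * (∑ l ∈ S, (ρ k : ℂ) * tau y k l).im := by
    intro k
    rw [ipc_Bf_fin hy (hd k), ← Finset.mul_sum]
    simp only [Complex.mul_re, Complex.mul_im, Complex.neg_re, Complex.neg_im, Complex.I_re, Complex.I_im,
      Complex.ofReal_re, Complex.ofReal_im, Complex.re_ofNat, Complex.im_ofNat]
    ring
  simp only [h1]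
  rw [← Finset.mul_sum, Complex.im_sum]

lemma prd_sym (hS : ∀ k ∈ S, -k ∈ S) (hy : ∀ k, k ∉ S → y k = 0) (hs : Sym y)
    (hd : ∀ k, dt k (y k) = 0) (ρ : K → ℝ) :
    prd S ρ y = Real.pi * (∑ k ∈ S, ∑ l ∈ S, ((ρ k - ρ (k - l) : ℝ) : ℂ) * tau y k l).im := by
  have h1 := sum_swap hS hy hs hd (fun k => (ρ k : ℂ))
  have h2 := congrArg Complex.im h1
  have h3 : (∑ k ∈ S, ∑ l ∈ S, (ρ (k - l) : ℂ) * star (tau y k l)).im
      = -(∑ k ∈ S, ∑ l ∈ S, (ρ (k - l) : ℂ) * tau y k l).im := by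
    simp only [Complex.im_sum]
    rw [← Finset.sum_neg_distrib]
    refine Finset.sum_congr rfl fun k _ => ?_
    rw [← Finset.sum_neg_distrib]
    refine Finset.sum_congr rfl fun l _ => ?_
    simp [Complex.mul_im]
  have h4 : (∑ k ∈ S, ∑ l ∈ S, ((ρ k - ρ (k - l) : ℝ) : ℂ) * tau y k l).im
      = (∑ k ∈ S, ∑ l ∈ S, (ρ k : ℂ) * tau y k l).im
        - (∑ k ∈ S, ∑ l ∈ S, (ρ (k - l) : ℂ) * tau y k l).im := by
    rw [← Complex.sub_im, ← Finset.sum_sub_distrib]
    congr 1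
    refine Finset.sum_congr rfl fun k _ => ?_
    rw [← Finset.sum_sub_distrib]
    refine Finset.sum_congr rfl fun l _ => ?_
    push_cast
    ring
  rw [prd_eq hy hd, h4]
  rw [h3] at h2
  have h5 : (∑ k ∈ S, ∑ l ∈ S, (ρ (k - l) : ℂ) * tau y k l).im
      = -(∑ k ∈ S, ∑ l ∈ S, (ρ k : ℂ) * tau y k l).im := by linarith
  rw [h5]
  ring

/-- conservation of energy -/
lemma prd_one (hS : ∀ k ∈ S, -k ∈ S) (hy : ∀ k, k ∉ S → y k = 0) (hs : Sym y)
    (hd : ∀ k, dt k (y k) = 0) : prd S (fun _ => 1) y = 0 := by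
  rw [prd_sym hS hy hs hd]
  simp

lemma abs_im_sum_le {f : K → K → ℂ} {g : K → K → ℝ} (h : ∀ k ∈ S, ∀ l ∈ S, ‖f k l‖ ≤ g k l) :
    |(∑ k ∈ S, ∑ l ∈ S, f k l).im| ≤ ∑ k ∈ S, ∑ l ∈ S, g k l := by
  refine (Complex.abs_im_le_norm _).trans ((norm_sum_le _ _).trans (Finset.sum_le_sum fun k hk => ?_))
  exact (norm_sum_le _ _).trans (Finset.sum_le_sum fun l hl => h k hk l hl)

/-- production of enstrophy -/
lemma abs_prd_sq_le (hS : ∀ k ∈ S, -k ∈ S) (hy : ∀ k, k ∉ S → y k = 0) (hs : Sym y)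
    (hd : ∀ k, dt k (y k) = 0) :
    |prd S qk y| ≤ 2 * Real.pi * ∑ k ∈ S, ∑ l ∈ S,
      (nk k * en (y k)) * (nk l * en (y l)) * (nk (k - l) * en (y (k - l))) := by
  rw [prd_sym hS hy hs hd, abs_mul, abs_of_pos Real.pi_pos]
  have key : ∀ k ∈ S, ∀ l ∈ S, ‖((qk k - qk (k - l) : ℝ) : ℂ) * tau y k l‖
      ≤ 2 * ((nk k * en (y k)) * (nk l * en (y l)) * (nk (k - l) * en (y (k - l)))) := by
    intro k _ l _
    have a1 : ‖dt k (y l)‖ ≤ nk k * en (y l) := norm_dt_le _ _
    have a2 : ‖dt k (y l)‖ ≤ nk (k - l) * en (y l) := by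
      have : dt k (y l) = dt (k - l) (y l) := by rw [dt_sub, hd l, sub_zero]
      rw [this]
      exact norm_dt_le _ _
    have a3 := norm_ipc_le (y k) (y (k - l))
    have a4 : |qk k - qk (k - l)| ≤ nk l * (nk k + nk (k - l)) := by
      rw [show qk k = nk k ^ 2 from (nk_sq k).symm, show qk (k - l) = nk (k - l) ^ 2 from (nk_sq _).symm,
        sq_sub_sq, abs_mul, mul_comm]
      have b1 := abs_nk_sub k l
      have b2 : |nk k + nk (k - l)| = nk k + nk (k - l) :=
        abs_of_nonneg (add_nonneg (nk_nonneg _) (nk_nonneg _))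
      rw [b2]
      exact mul_le_mul_of_nonneg_right b1 (add_nonneg (nk_nonneg _) (nk_nonneg _))
    have n1 := nk_nonneg k
    have n2 := nk_nonneg (k - l)
    have n3 := nk_nonneg l
    have e1 := en_nonneg (y k)
    have e2 := en_nonneg (y l)
    have e3 := en_nonneg (y (k - l))
    unfold tau
    rw [norm_mul, norm_mul, Complex.norm_real, Real.norm_eq_abs]
    have c1 : (nk k + nk (k - l)) * ‖dt k (y l)‖ ≤ 2 * (nk k * nk (k - l) * en (y l)) := by
      have d1 : nk k * ‖dt k (y l)‖ ≤ nk k * (nk (k - l) * en (y l)) :=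
        mul_le_mul_of_nonneg_left a2 n1
      have d2 : nk (k - l) * ‖dt k (y l)‖ ≤ nk (k - l) * (nk k * en (y l)) :=
        mul_le_mul_of_nonneg_left a1 n2
      nlinarith
    calc |qk k - qk (k - l)| * (‖dt k (y l)‖ * ‖ipc (y k) (y (k - l))‖)
        ≤ (nk l * (nk k + nk (k - l))) * (‖dt k (y l)‖ * (en (y k) * en (y (k - l)))) := by
          gcongr
      _ = nk l * (en (y k) * en (y (k - l))) * ((nk k + nk (k - l)) * ‖dt k (y l)‖) := by ring
      _ ≤ nk l * (en (y k) * en (y (k - l))) * (2 * (nk k * nk (k - l) * en (y l))) := by gcongr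
      _ = _ := by ring
  have h1 := abs_im_sum_le key
  simp only [← Finset.mul_sum] at h1
  calc Real.pi * _ ≤ Real.pi * (2 * ∑ k ∈ S, ∑ l ∈ S,
      (nk k * en (y k)) * (nk l * en (y l)) * (nk (k - l) * en (y (k - l)))) := by
        refine mul_le_mul_of_nonneg_left ?_ Real.pi_pos.le
        refine h1.trans (le_of_eq ?_)
        simp only [Finset.mul_sum]
    _ = _ := by ring

end fin

end Pool.Agent.Y6
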