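import Pool.Agent.Y6.Alg

/-!
Higher norms of the Galerkin approximations on the Fourier side: algebra.
-/

open MeasureTheory Set Filter Topology
open scoped ENNReal NNReal

set_option autoImplicit false

namespace Pool.Agent.Y6

open Pool.Agent.H356R3.NS hiding K sq

section young

variable {S : Finset K} {A B C : K → ℝ}

lemma sum_shift_le (hC0 : ∀ k, 0 ≤ C k) (hC : ∀ k, k ∉ S → C k = 0) (k : K) :
    ∑ l ∈ S, C (k - l) ≤ ∑ m ∈ S, C m := by
  classical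
  have h1 : ∑ l ∈ S, C (k - l) = ∑ m ∈ S.image (fun l => k - l), C m := by
    rw [Finset.sum_image]
    intro a _ b _ h
    exact sub_right_injective h
  rw [h1]
  calc ∑ m ∈ S.image (fun l => k - l), C m ≤ ∑ m ∈ S ∪ S.image (fun l => k - l), C m :=
        Finset.sum_le_sum_of_subset_of_nonneg Finset.subset_union_right fun i _ _ => hC0 i
    _ = ∑ m ∈ S, C m := by
        refine (Finset.sum_subset Finset.subset_union_left fun x _ hx => hC x hx).symm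

lemma sum_shift_le' (hC0 : ∀ k, 0 ≤ C k) (hC : ∀ k, k ∉ S → C k = 0) (l : K) :
    ∑ k ∈ S, C (k - l) ≤ ∑ m ∈ S, C m := by
  classical
  have h1 : ∑ k ∈ S, C (k - l) = ∑ m ∈ S.image (fun k => k - l), C m := by
    rw [Finset.sum_image]
    intro a _ b _ h
    exact sub_left_injective h
  rw [h1]
  calc ∑ m ∈ S.image (fun k => k - l), C m ≤ ∑ m ∈ S ∪ S.image (fun k => k - l), C m :=
        Finset.sum_le_sum_of_subset_of_nonneg Finset.subset_union_right fun i _ _ => hC0 i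
    _ = ∑ m ∈ S, C m := by
        refine (Finset.sum_subset Finset.subset_union_left fun x _ hx => hC x hx).symm

/-- Cauchy-Schwarz with a weight -/
lemma cs_weight {ι : Type*} (s : Finset ι) {f g h : ι → ℝ} (hh : ∀ i ∈ s, 0 ≤ h i) {P R : ℝ}
    (hP : ∑ i ∈ s, f i ^ 2 * h i ≤ P) (hR : ∑ i ∈ s, g i ^ 2 * h i ≤ R) :
    ∑ i ∈ s, f i * g i * h i ≤ Real.sqrt P * Real.sqrt R := by
  have hP0 : 0 ≤ P := (Finset.sum_nonneg fun i hi => mul_nonneg (sq_nonneg _) (hh i hi)).trans hP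
  rw [← Real.sqrt_mul hP0]
  apply Real.le_sqrt_of_sq_le
  have h1 : ∑ i ∈ s, f i * g i * h i = ∑ i ∈ s, (f i * Real.sqrt (h i)) * (g i * Real.sqrt (h i)) := by
    refine Finset.sum_congr rfl fun i hi => ?_
    have := Real.mul_self_sqrt (hh i hi)
    calc f i * g i * h i = f i * g i * (Real.sqrt (h i) * Real.sqrt (h i)) := by rw [this]
      _ = _ := by ring
  have h2 : ∀ F : ι → ℝ, ∑ i ∈ s, (F i * Real.sqrt (h i)) ^ 2 = ∑ i ∈ s, F i ^ 2 * h i := by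
    intro F
    refine Finset.sum_congr rfl fun i hi => ?_
    rw [mul_pow, Real.sq_sqrt (hh i hi)]
  rw [h1]
  refine (Finset.sum_mul_sq_le_sq_mul_sq _ _ _).trans ?_
  rw [h2, h2]
  exact mul_le_mul hP hR (Finset.sum_nonneg fun i hi => mul_nonneg (sq_nonneg _) (hh i hi)) hP0

lemma young1 (hC0 : ∀ k, 0 ≤ C k) (hC : ∀ k, k ∉ S → C k = 0) :
    ∑ k ∈ S, ∑ l ∈ S, A k * B l * C (k - l)
      ≤ Real.sqrt (∑ k ∈ S, A k ^ 2) * Real.sqrt (∑ k ∈ S, B k ^ 2) * ∑ k ∈ S, C k := by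
  have hs0 : 0 ≤ ∑ k ∈ S, C k := Finset.sum_nonneg fun k _ => hC0 k
  have h1 : ∑ p ∈ S ×ˢ S, A p.1 ^ 2 * C (p.1 - p.2) ≤ (∑ k ∈ S, A k ^ 2) * ∑ k ∈ S, C k := by
    rw [Finset.sum_product, Finset.sum_mul]
    refine Finset.sum_le_sum fun k _ => ?_
    simp only
    rw [← Finset.mul_sum]
    exact mul_le_mul_of_nonneg_left (sum_shift_le hC0 hC k) (sq_nonneg _)
  have h2 : ∑ p ∈ S ×ˢ S, B p.2 ^ 2 * C (p.1 - p.2) ≤ (∑ k ∈ S, B k ^ 2) * ∑ k ∈ S, C k := by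
    rw [Finset.sum_product_right, Finset.sum_mul]
    refine Finset.sum_le_sum fun k _ => ?_
    simp only
    rw [← Finset.mul_sum]
    exact mul_le_mul_of_nonneg_left (sum_shift_le' hC0 hC k) (sq_nonneg _)
  have h3 := cs_weight (S ×ˢ S) (f := fun p : K × K => A p.1) (g := fun p => B p.2)
    (h := fun p => C (p.1 - p.2)) (fun p _ => hC0 _) h1 h2
  rw [Finset.sum_product] at h3
  refine h3.trans (le_of_eq ?_)
  have hA : 0 ≤ ∑ k ∈ S, A k ^ 2 := Finset.sum_nonneg fun _ _ => sq_nonneg _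
  have hB : 0 ≤ ∑ k ∈ S, B k ^ 2 := Finset.sum_nonneg fun _ _ => sq_nonneg _
  rw [Real.sqrt_mul hA, Real.sqrt_mul hB]
  calc Real.sqrt (∑ k ∈ S, A k ^ 2) * Real.sqrt (∑ k ∈ S, C k) * (Real.sqrt (∑ k ∈ S, B k ^ 2)
      * Real.sqrt (∑ k ∈ S, C k)) = Real.sqrt (∑ k ∈ S, A k ^ 2) * Real.sqrt (∑ k ∈ S, B k ^ 2)
      * (Real.sqrt (∑ k ∈ S, C k) * Real.sqrt (∑ k ∈ S, C k)) := by ring
    _ = _ := by rw [Real.mul_self_sqrt hs0]

lemma young2 (hC0 : ∀ k, 0 ≤ C k) (hB : ∀ k, k ∉ S → B k = 0) :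
    ∑ k ∈ S, ∑ l ∈ S, A k * C l * B (k - l)
      ≤ Real.sqrt (∑ k ∈ S, A k ^ 2) * Real.sqrt (∑ k ∈ S, B k ^ 2) * ∑ k ∈ S, C k := by
  have hs0 : 0 ≤ ∑ k ∈ S, C k := Finset.sum_nonneg fun k _ => hC0 k
  have h1 : ∑ p ∈ S ×ˢ S, A p.1 ^ 2 * C p.2 ≤ (∑ k ∈ S, A k ^ 2) * ∑ k ∈ S, C k := by
    rw [Finset.sum_product, Finset.sum_mul]
    refine Finset.sum_le_sum fun k _ => ?_
    simp only
    rw [← Finset.mul_sum]
  have h2 : ∑ p ∈ S ×ˢ S, B (p.1 - p.2) ^ 2 * C p.2 ≤ (∑ k ∈ S, B k ^ 2) * ∑ k ∈ S, C k := by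
    rw [Finset.sum_product_right, mul_comm, Finset.sum_mul]
    refine Finset.sum_le_sum fun k _ => ?_
    simp only
    rw [← Finset.sum_mul, mul_comm]
    refine mul_le_mul_of_nonneg_left ?_ (hC0 _)
    exact sum_shift_le' (C := fun k => B k ^ 2) (fun _ => sq_nonneg _) (fun k hk => by simp [hB k hk]) k
  have h3 := cs_weight (S ×ˢ S) (f := fun p : K × K => A p.1) (g := fun p => B (p.1 - p.2))
    (h := fun p => C p.2) (fun p _ => hC0 _) h1 h2
  rw [Finset.sum_product] at h3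
  have h4 : ∑ k ∈ S, ∑ l ∈ S, A k * C l * B (k - l) = ∑ k ∈ S, ∑ l ∈ S, A k * B (k - l) * C l :=
    Finset.sum_congr rfl fun k _ => Finset.sum_congr rfl fun l _ => by ring
  rw [h4]
  refine h3.trans (le_of_eq ?_)
  have hA : 0 ≤ ∑ k ∈ S, A k ^ 2 := Finset.sum_nonneg fun _ _ => sq_nonneg _
  have hB' : 0 ≤ ∑ k ∈ S, B k ^ 2 := Finset.sum_nonneg fun _ _ => sq_nonneg _
  rw [Real.sqrt_mul hA, Real.sqrt_mul hB']
  calc Real.sqrt (∑ k ∈ S, A k ^ 2) * Real.sqrt (∑ k ∈ S, C k) * (Real.sqrt (∑ k ∈ S, B k ^ 2)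
      * Real.sqrt (∑ k ∈ S, C k)) = Real.sqrt (∑ k ∈ S, A k ^ 2) * Real.sqrt (∑ k ∈ S, B k ^ 2)
      * (Real.sqrt (∑ k ∈ S, C k) * Real.sqrt (∑ k ∈ S, C k)) := by ring
    _ = _ := by rw [Real.mul_self_sqrt hs0]

end young

/-- the homogeneous Sobolev norm of order `s`, squared -/
noncomputable def phi (S : Finset K) (s : ℕ) (y : K → C3) : ℝ := ∑ k ∈ S, qk k ^ s * en2 (y k)

lemma qk_nonneg (k : K) : 0 ≤ qk k := sq_nonneg' k

lemma phi_nonneg (S : Finset K) (s : ℕ) (y : K → C3) : 0 ≤ phi S s y :=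
  Finset.sum_nonneg fun k _ => mul_nonneg (pow_nonneg (qk_nonneg k) s) (en2_nonneg _)

lemma phi_eq (S : Finset K) (s : ℕ) (y : K → C3) : phi S s y = ∑ k ∈ S, (nk k ^ s * en (y k)) ^ 2 := by
  unfold phi
  refine Finset.sum_congr rfl fun k _ => ?_
  rw [mul_pow, en_sq, ← pow_mul, mul_comm s 2, pow_mul, nk_sq]

lemma add_pow_le' {a b : ℝ} (ha : 0 ≤ a) (hb : 0 ≤ b) (s : ℕ) :
    (a + b) ^ s ≤ 2 ^ s * (a ^ s + b ^ s) := by
  rcases le_total a b with h | h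
  · calc (a + b) ^ s ≤ (2 * b) ^ s := pow_le_pow_left₀ (by positivity) (by linarith) s
      _ = 2 ^ s * b ^ s := mul_pow _ _ _
      _ ≤ _ := by have := pow_nonneg ha s; gcongr; linarith
  · calc (a + b) ^ s ≤ (2 * a) ^ s := pow_le_pow_left₀ (by positivity) (by linarith) s
      _ = 2 ^ s * a ^ s := mul_pow _ _ _
      _ ≤ _ := by have := pow_nonneg hb s; gcongr; linarith

section fin

variable {S : Finset K} {y : K → C3}

lemma abs_prd_pow_le (hy : ∀ k, k ∉ S → y k = 0) (hd : ∀ k, dt k (y k) = 0) (s : ℕ) :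
    |prd S (fun k => qk k ^ s) y| ≤ 2 * Real.pi * 2 ^ (s + 1) *
      (Real.sqrt (phi S (s + 1) y) * Real.sqrt (phi S s y) * ∑ k ∈ S, en (y k)) := by
  rw [prd_eq hy hd, abs_mul, abs_of_pos (by positivity : (0 : ℝ) < 2 * Real.pi)]
  set A : K → ℝ := fun k => nk k ^ (s + 1) * en (y k) with hA
  set B : K → ℝ := fun k => nk k ^ s * en (y k) with hB
  set C : K → ℝ := fun k => en (y k) with hC
  have key : ∀ k ∈ S, ∀ l ∈ S, ‖((qk k ^ s : ℝ) : ℂ) * tau y k l‖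
      ≤ 2 ^ s * (A k * B l * C (k - l) + A k * C l * B (k - l)) := by
    intro k _ l _
    have a1 : ‖dt k (y l)‖ ≤ nk k * en (y l) := norm_dt_le _ _
    have a3 := norm_ipc_le (y k) (y (k - l))
    have n1 := nk_nonneg k
    have n2 := nk_nonneg (k - l)
    have n3 := nk_nonneg l
    have e1 := en_nonneg (y k)
    have e2 := en_nonneg (y l)
    have e3 := en_nonneg (y (k - l))
    have a4 : nk k ^ s ≤ 2 ^ s * (nk l ^ s + nk (k - l) ^ s) := by
      refine (pow_le_pow_left₀ n1 (nk_sub_le k l) s).trans ?_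
      rw [add_comm]
      exact add_pow_le' n3 n2 s
    unfold tau
    rw [norm_mul, norm_mul, Complex.norm_real, Real.norm_eq_abs, abs_of_nonneg (pow_nonneg (qk_nonneg k) s)]
    have a5 : qk k ^ s = nk k ^ s * nk k ^ s := by
      rw [← mul_pow, show qk k = nk k ^ 2 from (nk_sq k).symm, sq]
    rw [a5]
    calc nk k ^ s * nk k ^ s * (‖dt k (y l)‖ * ‖ipc (y k) (y (k - l))‖)
        ≤ nk k ^ s * (2 ^ s * (nk l ^ s + nk (k - l) ^ s)) * ((nk k * en (y l)) * (en (y k) * en (y (k - l)))) := by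
          gcongr
      _ = _ := by
          simp only [hA, hB, hC]
          ring
  have h1 := abs_im_sum_le key
  have h2 : ∑ k ∈ S, ∑ l ∈ S, 2 ^ s * (A k * B l * C (k - l) + A k * C l * B (k - l))
      = 2 ^ s * (∑ k ∈ S, ∑ l ∈ S, A k * B l * C (k - l) + ∑ k ∈ S, ∑ l ∈ S, A k * C l * B (k - l)) := by
    rw [← Finset.sum_add_distrib, Finset.mul_sum]
    refine Finset.sum_congr rfl fun k _ => ?_
    rw [← Finset.sum_add_distrib, Finset.mul_sum]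
  have hC0 : ∀ k, 0 ≤ C k := fun k => en_nonneg _
  have hCz : ∀ k, k ∉ S → C k = 0 := fun k hk => by simp [hC, hy k hk, en_zero]
  have hBz : ∀ k, k ∉ S → B k = 0 := fun k hk => by simp [hB, hy k hk, en_zero]
  have y1 := young1 (A := A) (B := B) hC0 hCz
  have y2 := young2 (A := A) hC0 hBz
  have p1 : phi S (s + 1) y = ∑ k ∈ S, A k ^ 2 := phi_eq _ _ _
  have p2 : phi S s y = ∑ k ∈ S, B k ^ 2 := phi_eq _ _ _
  rw [h2] at h1
  rw [p1, p2]
  set X := Real.sqrt (∑ k ∈ S, A k ^ 2) * Real.sqrt (∑ k ∈ S, B k ^ 2) * ∑ k ∈ S, C k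
  calc 2 * Real.pi * _ ≤ 2 * Real.pi * (2 ^ s * (X + X)) := by
        refine mul_le_mul_of_nonneg_left (h1.trans ?_) (by positivity)
        exact mul_le_mul_of_nonneg_left (add_le_add y1 y2) (by positivity)
    _ = _ := by rw [pow_succ]; ring

/-- the sum of the coefficients -/
lemma sum_en_le (h0 : (0 : K) ∉ S) {Lam : ℝ} (hL : ∑ k ∈ S, (1 / nk k) ^ 4 ≤ Lam) :
    ∑ k ∈ S, en (y k) ≤ Real.sqrt Lam * Real.sqrt (phi S 2 y) := by
  have hL0 : 0 ≤ Lam := (Finset.sum_nonneg fun k _ => by positivity).trans hL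
  rw [← Real.sqrt_mul hL0]
  apply Real.le_sqrt_of_sq_le
  have h1 : ∑ k ∈ S, en (y k) = ∑ k ∈ S, (1 / nk k) ^ 2 * (nk k ^ 2 * en (y k)) := by
    refine Finset.sum_congr rfl fun k hk => ?_
    have : nk k ≠ 0 := (nk_pos (fun h => h0 (h ▸ hk))).ne'
    field_simp
  rw [h1]
  refine (Finset.sum_mul_sq_le_sq_mul_sq _ _ _).trans ?_
  rw [← phi_eq]
  refine mul_le_mul_of_nonneg_right ?_ (phi_nonneg _ _ _)
  refine le_trans (le_of_eq ?_) hL
  refine Finset.sum_congr rfl fun k _ => ?_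
  ring

end fin

end Pool.Agent.Y6
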