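import Pool.Agent.Y6.Stm6

/-!
The energy excited above a level: definition.
-/

open MeasureTheory Set
open scoped ContDiff

set_option autoImplicit false

namespace Pool.Agent.Y6

/-- Let `N` be a seminorm of `ℝ³`, `Q` a set of frequencies, `M` a natural number and `v` a velocity field.
`excE N Q M v` is the energy of the modes above the level `M` which are excited by the modes of `Q`
below it: the sum of `|v̂(k)|²` over all `k` with `N(k) > M` which are sums of two elements `l, m` of `Q`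
with `N(l) ≤ M`, `N(m) ≤ M`. (Such `k` satisfy `M < N(k) ≤ 2 M`.) -/
noncomputable def excE (N : Seminorm ℝ (Fin 3 → ℝ)) (Q : Set (Fin 3 → ℤ)) (M : ℕ)
    (v : (Fin 3 → ℝ) → Fin 3 → ℝ) : ℝ :=
  ∑' k : Fin 3 → ℤ, (open Classical in
    if (M : ℝ) < N (fun i => (k i : ℝ)) ∧ ∃ l ∈ Q, ∃ m ∈ Q, l + m = k ∧
        N (fun i => (l i : ℝ)) ≤ M ∧ N (fun i => (m i : ℝ)) ≤ M then
      ∑ i, ‖Pool.Agent.H356R3.NS.fc v k i‖ ^ 2 else 0)

end Pool.Agent.Y6
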