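import Pool.Agent.Y6.Max
import Pool.Agent.Y6.DefsB
import Pool.Agent.Y6.Stm7

/-!
Maximal solutions of the Navier-Stokes equations with modes in a set, and their blow-up: assembly.
-/

open MeasureTheory Set Filter Topology
open scoped ENNReal NNReal ContDiff

set_option autoImplicit false

namespace Pool.Agent.Y6

open Pool.Agent.H356R3.NS hiding K sq

lemma rapK_of_summ {V : K → C3} (hV : ∀ s : ℕ, Summable fun k => qk k ^ s * en2 (V k)) : RapK V := by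
  intro m
  refine ⟨max ‖V 0‖ (3 ^ m * Real.sqrt (∑' k, qk k ^ m * en2 (V k))), fun k => ?_⟩
  by_cases hk : k = 0
  · subst hk
    have h2 : pw (0 : K) = 1 := by simp [pw, l1]
    rw [h2, one_pow, one_mul]
    exact le_max_left _ _
  · refine le_trans ?_ (le_max_right _ _)
    have hn := nk_nonneg k
    have h1 : nk k ^ m * en (V k) ≤ Real.sqrt (∑' k, qk k ^ m * en2 (V k)) := by
      apply Real.le_sqrt_of_sq_le
      rw [mul_pow, en_sq, ← pow_mul, mul_comm m 2, pow_mul, nk_sq]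
      exact (hV m).le_tsum k fun j _ => mul_nonneg (pow_nonneg (qk_nonneg j) m) (en2_nonneg _)
    calc pw k ^ m * ‖V k‖ ≤ (3 * nk k) ^ m * en (V k) := by
          have := pw_pos k
          have h2 := pw_le_nk hk
          have h3 := norm_le_en (V k)
          gcongr
      _ = 3 ^ m * (nk k ^ m * en (V k)) := by rw [mul_pow]; ring
      _ ≤ _ := mul_le_mul_of_nonneg_left h1 (by positivity)

lemma DecSolOn.dat {Q : Set K} {ν : ℝ} {T : EReal} {v : R3 → R3} {u : ℝ → R3 → R3} {p : ℝ → R3 → ℝ}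
    (h : DecSolOn Q ν T v u p) {t : ℝ} (ht : t ∈ tI T) : Dat (u t) where
  smooth := by
    have h1 : ContDiff ℝ ∞ (fun x : R3 => ((t, x) : ℝ × R3)) := contDiff_const.prodMk contDiff_id
    have h2 := h.smooth_u.comp_contDiff h1 (fun x => ⟨ht, mem_univ _⟩)
    exact h2
  per := h.periodic_u t ht
  div := h.divFree t ht

lemma eq_of_fc (HD : St_data) {v w : R3 → R3} (hv : Dat v) (hw : Dat w) (h : fc v = fc w) : v = w := by
  funext x i
  rw [(HD v hv).2.2.2 x i, (HD w hw).2.2.2 x i, h]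

lemma lt_hgt (N : Seminorm ℝ (Fin 3 → ℝ)) (M : ℕ) (k : K) :
    M < hgt N k ↔ (M : ℝ) < N fun i => (k i : ℝ) := Nat.lt_ceil

lemma hgt_le (N : Seminorm ℝ (Fin 3 → ℝ)) (M : ℕ) (k : K) :
    hgt N k ≤ M ↔ (N fun i => (k i : ℝ)) ≤ M := Nat.ceil_le

/-- the modes above the level `M` which are excited from below -/
def exR (N : Seminorm ℝ (Fin 3 → ℝ)) (Q : Set K) (M : ℕ) : Set K :=
  {k | (M : ℝ) < N (fun i => (k i : ℝ)) ∧ ∃ l ∈ Q, ∃ m ∈ Q, l + m = k ∧
        N (fun i => (l i : ℝ)) ≤ M ∧ N (fun i => (m i : ℝ)) ≤ M}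

lemma excE_eq (N : Seminorm ℝ (Fin 3 → ℝ)) (Q : Set K) (M : ℕ) (v : R3 → R3) :
    excE N Q M v = wn (ind (exR N Q M)) (fc v) := by
  unfold excE wn
  refine tsum_congr fun k => ?_
  unfold ind en2
  by_cases h : k ∈ exR N Q M
  · rw [if_pos h, one_mul]
    exact if_pos h
  · rw [if_neg h, zero_mul]
    exact if_neg h

/-- all the constants -/
lemma constsR (H3 : St_L2r) (H4 : St_H1) : ∃ C : ℝ, ∀ (h : K → ℕ) (H A : ℝ), 0 ≤ A →
    Height h H A → EnsB C h A ∧ (∀ M : ℕ, 1 ≤ M → ∀ (y : K → C3) (R : Set K), Fld y →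
      (∀ k l, h k ≤ M → h l ≤ M → M < h (k + l) → y k ≠ 0 → y l ≠ 0 → y (k + l) ≠ 0 → k + l ∈ R) →
      ∀ ε : ℝ, Real.sqrt (wn (ind R) y) ≤ ε → UpB C A h M ε y) := by
  obtain ⟨C1, h1, H1⟩ := H3
  obtain ⟨C3, h3, H3⟩ := H4
  set C := max C1 C3 with hC
  have l1 : C1 ≤ C := le_max_left _ _
  have l3 : C3 ≤ C := le_max_right _ _
  refine ⟨C, fun h H A hA hh => ⟨⟨h1.trans l1, hA, ?_⟩, ?_⟩⟩
  · intro M hM y hy
    obtain ⟨F, hF0, hF4, hF⟩ := H3 h H A hA hh M hM y hy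
    have a1 : 0 ≤ wn (fun k => ind {k | M < h k} k * qk k) y :=
      wn_nonneg fun k => mul_nonneg (ind_nonneg _ _) (qk_nonneg k)
    have a2 : 0 ≤ wn (fun k => qk k ^ 2) y := wn_nonneg fun k => pow_nonneg (qk_nonneg k) 2
    refine ⟨F, hF0, hF4.trans ?_, hF.trans ?_⟩
    · gcongr
    · gcongr
  · intro M hM y R hy hR ε hε
    have hb : UpB C1 A h M (Real.sqrt (wn (ind R) y)) y := H1 h H A hA hh M hM y R hy hR
    exact hb.mono h1 l1 (Real.sqrt_nonneg _) hε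

/-- The blow-up alternative. -/
theorem blow_alt (H1 : St_der) (H2 : St_tri) (H3 : St_L2r) (H4 : St_H1) (H5 : St_gev)
    (HH : St_height) (HD : St_data) (HC : St_convQ) (HP : St_physQ) (HU : St_uniqF) {Q : Set K}
    (hQ : ∀ k ∈ Q, -k ∈ Q) (h0 : (0 : K) ∉ Q) {ν : ℝ} (hν : 0 < ν) {v : R3 → R3} (hv : Dat v)
    (hvQ : ∀ k, k ∉ Q → fc v k = 0) :
    ∃ (T : EReal) (u : ℝ → R3 → R3) (p : ℝ → R3 → ℝ), 0 < T ∧ DecSolOn Q ν T v u p ∧
      (∀ (T' : EReal) (u' : ℝ → R3 → R3) (p' : ℝ → R3 → ℝ), DecSolOn Q ν T' v u' p' →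
        T' ≤ T ∧ ∀ t ∈ tI T', u' t = u t) ∧
      (T ≠ ⊤ → ∀ N : Seminorm ℝ (Fin 3 → ℝ), N ≠ 0 → ∀ (M : ℕ → ℕ) (σ : ℕ → ℝ) (B s : ℝ),
        (∀ j, 1 ≤ M j ∧ 2 * M j ≤ M (j + 1)) → (∀ j, 0 ≤ σ j ∧ σ j ≤ 1) → s ∈ tI T →
        (∀ j, ∀ t ∈ tI T, s ≤ t → excE N Q (M j) (u t) ≤ B * Real.exp (-(σ j * M j))) →
        Summable σ) := by
  have hc : 0 < 4 * Real.pi ^ 2 * ν := by positivity
  set c : ℝ := 4 * Real.pi ^ 2 * ν with hcdef
  obtain ⟨C, hC⟩ := constsR H3 H4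
  obtain ⟨d1, d2, d3, d4⟩ := HD v hv
  have hV : Fld (fc v) := ⟨rapK_of_summ d3, d1, d2, hvQ 0 h0⟩
  -- some height
  have hN0 : (normSeminorm ℝ (Fin 3 → ℝ)) ≠ 0 := by
    intro h
    have h1 := congrArg (fun N : Seminorm ℝ (Fin 3 → ℝ) => N (fun _ => 1)) h
    simp at h1
  obtain ⟨H0, A0, hH0, hA0, hh0⟩ := HH _ hN0
  have hp0 := (hC _ H0 A0 hA0 hh0).1
  obtain ⟨T, w, hT, hw, hw0, hmax, hblow⟩ := max_sol H1 H5 HU hp0 hc hQ h0 hV hvQ
  obtain ⟨U, P, hU, hUw⟩ := HP ν Q T v w hν hQ h0 hT hv hvQ hw hw0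
  refine ⟨T, U, P, hT, hU, ?_, ?_⟩
  · intro T' u' p' hu'
    have hconv := HC ν Q T' v u' p' hν hQ h0 hu'
    have hle : T' ≤ T := by
      by_contra hcon
      push Not at hcon
      obtain ⟨x, hx1, hx2⟩ := EReal.lt_iff_exists_real_btwn.1 hcon
      have h1 := hmax x _ (hconv x hx2.le) (by simp only [hu'.initial])
      exact absurd h1 (not_le.2 hx1)
    refine ⟨hle, fun t ht => ?_⟩
    have htT : t ∈ tI T := ⟨ht.1, ht.2.trans_le hle⟩
    refine eq_of_fc HD (hu'.dat ht) (hU.dat htT) ?_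
    rw [hUw t htT]
    obtain ⟨x, hx1, hx2⟩ := EReal.lt_iff_exists_real_btwn.1 ht.2
    have htx : t < x := by exact_mod_cast hx1
    exact HU c x Q _ w hc hQ (hconv x hx2.le) (hw x (hx2.le.trans hle)) (by
      simp only [hu'.initial, hw0]) t ⟨ht.1, htx⟩
  · intro hTtop N hN M σ B s hM hσ hs hlev
    by_contra hσs
    obtain ⟨H, A, hH, hA, hh⟩ := HH N hN
    obtain ⟨hp, hup⟩ := hC (hgt N) H A hA hh
    have hbot : T ≠ ⊥ := bot_lt_iff_ne_bot.1 (lt_of_le_of_lt bot_le hT)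
    lift T to ℝ using ⟨hTtop, hbot⟩ with T1 hT1
    have hs0 : 0 ≤ s := hs.1
    have hsT : s < T1 := by exact_mod_cast hs.2
    have hwT : TSol c T1 Q w := hw T1 le_rfl
    have hsh : TSol c (T1 - s) Q (fun t => w (s + t)) := hwT.shift hs0
    obtain ⟨B', hB'⟩ := level_bound H1 H2 H5 hc hp hH hh
      (wn_nonneg (fun _ => zero_le_one) : 0 ≤ wn (fun _ => 1) (w s))
      (wn_nonneg qk_nonneg : 0 ≤ wn qk (w s)) (Real.sqrt_nonneg (max B 0)) (fun j => (hM j).1)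
      (fun j => (hM j).2) (σ := fun j => σ j / 2) (fun j => by linarith [(hσ j).1])
      (fun j => by linarith [(hσ j).1, (hσ j).2]) (fun hsum => hσs (by
        refine (hsum.mul_left 2).congr fun j => ?_
        ring))
    obtain ⟨t, ht, hst, hBt⟩ := hblow hTtop B' s hs
    have htT : t < T1 := by exact_mod_cast ht.2
    refine absurd (hB' (T1 - s) Q _ hsh (by simp) (by simp) ?_ (t - s) ⟨by linarith, by linarith⟩) ?_
    · intro j r hr
      have hr1 : s + r ∈ Ico 0 T1 := ⟨by linarith [hr.1], by linarith [hr.2]⟩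
      have hrI : s + r ∈ tI (T1 : EReal) := ⟨hr1.1, by exact_mod_cast hr1.2⟩
      have hf := hwT.fld _ hr1
      have hε0 : 0 ≤ Real.sqrt (max B 0) * Real.exp (-(σ j / 2 * M j)) := by positivity
      refine hup (M j) (hM j).1 _ (exR N Q (M j)) hf (fun k l hk hl hkl h1 h2 _ => ?_) _ ?_
      · have hmem : ∀ k, w (s + r) k ≠ 0 → k ∈ Q := fun k hk => by
          by_contra hkQ
          exact hk (hwT.supp _ hr1 k hkQ)
        exact ⟨(lt_hgt N (M j) _).1 hkl, k, hmem k h1, l, hmem l h2, rfl, (hgt_le N (M j) k).1 hk,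
          (hgt_le N (M j) l).1 hl⟩
      · have h1 := hlev j (s + r) hrI (by linarith [hr.1])
        rw [excE_eq, hUw _ hrI] at h1
        have h2 : wn (ind (exR N Q (M j))) (w (s + r))
            ≤ (Real.sqrt (max B 0) * Real.exp (-(σ j / 2 * M j))) ^ 2 := by
          rw [mul_pow, Real.sq_sqrt (le_max_right _ _), ← Real.exp_nat_mul]
          refine h1.trans ?_
          have e1 : ((2 : ℕ) : ℝ) * -(σ j / 2 * M j) = -(σ j * M j) := by
            push_cast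
            ring
          rw [e1]
          exact mul_le_mul_of_nonneg_right (le_max_left _ _) (Real.exp_pos _).le
        calc Real.sqrt _ ≤ Real.sqrt ((Real.sqrt (max B 0) * Real.exp (-(σ j / 2 * M j))) ^ 2) :=
              Real.sqrt_le_sqrt h2
          _ = _ := Real.sqrt_sq hε0
    · simp only [add_sub_cancel]
      exact not_le.2 hBt

end Pool.Agent.Y6
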