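import Pool.Agent.Y6.Blow
import Pool.Agent.Y6.L2r
import Pool.Agent.Y807.NSDer
import Pool.Agent.Y807.NSHeight
import Pool.Agent.Y498.NS.TriI
import Pool.Agent.Y498.NS.Gev
import Pool.Agent.Y496.NS.B0
import Pool.Agent.Y197.NS.H1
import Pool.Agent.Y474.NSData
import Pool.Agent.Y419.NS6.ConvQ
import Pool.Agent.Y419.NS6.PhysQ
import Pool.Agent.Y244.NS.UniqF

/-!
The blow-up alternative: final form.
-/

open MeasureTheory Set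
open scoped ContDiff ENNReal

set_option autoImplicit false

namespace Pool.Agent.Y6

open Pool.Agent.H356R3.NS hiding K sq

theorem blow_fin {Q : Set K} (hQ : ∀ k ∈ Q, -k ∈ Q) (h0 : (0 : K) ∉ Q) {ν : ℝ} (hν : 0 < ν)
    {v : R3 → R3} (hv : Dat v) (hvQ : ∀ k, k ∉ Q → fc v k = 0) :
    ∃ (T : EReal) (u : ℝ → R3 → R3) (p : ℝ → R3 → ℝ), 0 < T ∧ DecSolOn Q ν T v u p ∧
      (∀ (T' : EReal) (u' : ℝ → R3 → R3) (p' : ℝ → R3 → ℝ), DecSolOn Q ν T' v u' p' →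
        T' ≤ T ∧ ∀ t ∈ tI T', u' t = u t) ∧
      (T ≠ ⊤ → ∀ N : Seminorm ℝ (Fin 3 → ℝ), N ≠ 0 → ∀ (M : ℕ → ℕ) (σ : ℕ → ℝ) (B s : ℝ),
        (∀ j, 1 ≤ M j ∧ 2 * M j ≤ M (j + 1)) → (∀ j, 0 ≤ σ j ∧ σ j ≤ 1) → s ∈ tI T →
        (∀ j, ∀ t ∈ tI T, s ≤ t → excE N Q (M j) (u t) ≤ B * Real.exp (-(σ j * M j))) →
        Summable σ) :=
  blow_alt Pool.Agent.Y807.NSDer.t_der Pool.Agent.Y498.NS.t_tri
    (L2R.t_L2r Pool.Agent.Y498.NS.t_tri Pool.Agent.Y496.NS.B0.t_B0)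
    (Pool.Agent.Y197.NS.t_H1 Pool.Agent.Y498.NS.t_tri Pool.Agent.Y496.NS.B0.t_B0)
    Pool.Agent.Y498.NS.t_gev Pool.Agent.Y807.NSHeight.t_height Pool.Agent.Y474.NSData.t_data
    Pool.Agent.Y419.NS6.t_convQ Pool.Agent.Y419.NS6.t_physQ Pool.Agent.Y244.NS.t_uniqF
    hQ h0 hν hv hvQ

end Pool.Agent.Y6
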