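import Pool.Agent.Y6.BlowFin

/-!
The spectrum of a solution of the Navier-Stokes equations near a blow-up time.
-/

open Set

set_option autoImplicit false

/-- Let `Q` be a symmetric set of nonzero Fourier modes (for example all of them: then the equations are
the Navier-Stokes equations for velocities with mean zero), `ν > 0`, and `v` a smooth periodic
divergence-free field with Fourier modes in `Q`. There are `T` in `(0, ∞]` and a smooth periodic solution
`(u, p)` on `[0, T)` of the Navier-Stokes equations restricted to the Fourier modes in `Q`, with viscosity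
`ν` and initial velocity `v`, which is unique and maximal: every such solution on some `[0, T')` has
`T' ≤ T` and its velocity is `u`. If `T` is finite, then the following holds for every seminorm
`N ≠ 0` of `ℝ³`, for all natural numbers `M 0, M 1, …` with `M j ≥ 1`, `M (j + 1) ≥ 2 M j`, for
all `σ j` in `[0, 1]`, all real `B` and all `s` in `[0, T)`. If, for all `j` and all `t` in `[s, T)`, the
energy of the modes above the level `M j` which are excited from below (`excE`) is at most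
`B exp(-σ j M j)`, then the sum of the `σ j` converges. -/
theorem Pool.Agent.Results.MP_6bf1e5_an.BlowupSpectrum.result (Q : Set (Fin 3 → ℤ))
    (hsymm : ∀ k ∈ Q, -k ∈ Q) (hzero : (0 : Fin 3 → ℤ) ∉ Q) (ν : ℝ) (hν : 0 < ν)
    (v : (Fin 3 → ℝ) → Fin 3 → ℝ) (hv : Pool.Agent.Y6.Dat v)
    (hmodes : ∀ k, k ∉ Q → Pool.Agent.H356R3.NS.fc v k = 0) :
    ∃ (T : EReal) (u : ℝ → (Fin 3 → ℝ) → Fin 3 → ℝ) (p : ℝ → (Fin 3 → ℝ) → ℝ),
      0 < T ∧ Pool.Agent.Y6.DecSolOn Q ν T v u p ∧
      (∀ (T' : EReal) (u' : ℝ → (Fin 3 → ℝ) → Fin 3 → ℝ) (p' : ℝ → (Fin 3 → ℝ) → ℝ),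
        Pool.Agent.Y6.DecSolOn Q ν T' v u' p' → T' ≤ T ∧ ∀ t ∈ Pool.Agent.Y6.tI T', u' t = u t) ∧
      (T ≠ ⊤ → ∀ N : Seminorm ℝ (Fin 3 → ℝ), N ≠ 0 → ∀ (M : ℕ → ℕ) (σ : ℕ → ℝ) (B s : ℝ),
        (∀ j, 1 ≤ M j ∧ 2 * M j ≤ M (j + 1)) → (∀ j, 0 ≤ σ j ∧ σ j ≤ 1) →
        s ∈ Pool.Agent.Y6.tI T →
        (∀ j, ∀ t ∈ Pool.Agent.Y6.tI T, s ≤ t →
          Pool.Agent.Y6.excE N Q (M j) (u t) ≤ B * Real.exp (-(σ j * M j))) →
        Summable σ) :=
  Pool.Agent.Y6.blow_fin hsymm hzero hν hv hmodes
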