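import Pool.Agent.H356R3.NS.Defs

/-!
Navier-Stokes equations with modes in a set: definition.
-/

open MeasureTheory Set
open scoped ContDiff

set_option autoImplicit false

namespace Pool.Agent.Y6

/-- `(u, p)` is a smooth periodic solution on `[0, ∞)` of the Navier-Stokes equations restricted to
the set `Q` of Fourier modes (the decimated, or Galerkin projected, equations), with viscosity `ν`,
zero force and initial velocity `v`: `u` and `p` are `C^∞` on `[0, ∞) × ℝ³` and `ℤ³`-periodic in `x`,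
`div u = 0`, `u(0) = v`, all Fourier coefficients of `u(t)` with frequency outside `Q` vanish, and all
Fourier coefficients with frequency in `Q` of
`∂_t u_i + ∑_j u_j ∂_j u_i - ν Δ u_i + ∂_i p` vanish. (If `Q` contains all frequencies, these are the
Navier-Stokes equations.) -/
structure DecSol (Q : Set (Fin 3 → ℤ)) (ν : ℝ) (v : (Fin 3 → ℝ) → Fin 3 → ℝ)
    (u : ℝ → (Fin 3 → ℝ) → Fin 3 → ℝ) (p : ℝ → (Fin 3 → ℝ) → ℝ) : Prop where
  smooth_u : ContDiffOn ℝ ∞ (fun z : ℝ × (Fin 3 → ℝ) => u z.1 z.2) (Ici 0 ×ˢ univ)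
  smooth_p : ContDiffOn ℝ ∞ (fun z : ℝ × (Fin 3 → ℝ) => p z.1 z.2) (Ici 0 ×ˢ univ)
  periodic_u : ∀ t, 0 ≤ t → ∀ x j, u t (x + Pi.single j 1) = u t x
  periodic_p : ∀ t, 0 ≤ t → ∀ x j, p t (x + Pi.single j 1) = p t x
  modes : ∀ t, 0 ≤ t → ∀ k ∉ Q, Pool.Agent.H356R3.NS.fc (u t) k = 0
  momentum : ∀ t, 0 ≤ t → ∀ k ∈ Q, Pool.Agent.H356R3.NS.fc (fun x i =>
    derivWithin (fun s => u s x i) (Ici 0) t
      + ∑ j, u t x j * Pool.Agent.H356R3.NS.pd j (fun y => u t y i) x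
      - ν * ∑ j, Pool.Agent.H356R3.NS.pd j (Pool.Agent.H356R3.NS.pd j fun y => u t y i) x
      + Pool.Agent.H356R3.NS.pd i (p t) x) k = 0
  divFree : ∀ t, 0 ≤ t → ∀ x, ∑ i, Pool.Agent.H356R3.NS.pd i (fun y => u t y i) x = 0
  initial : u 0 = v

end Pool.Agent.Y6
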