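import Pool.Agent.Y6.Lim

/-!
Existence of global solutions on the Fourier side.
-/

open MeasureTheory Set Filter Topology Metric
open scoped ENNReal NNReal InnerProductSpace

set_option autoImplicit false

namespace Pool.Agent.Y6

open Pool.Agent.H356R3.NS hiding K sq

lemma norm_neg_smul_le (a : ℝ) (ha : 0 ≤ a) (v : C3) : ‖(-a) • v‖ = a * ‖v‖ := by
  rw [norm_smul, norm_neg, Real.norm_eq_abs, abs_of_nonneg ha]

/-- uniform bounds of a sequence of Galerkin approximations -/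
theorem unif_bound {c : ℝ} (hc : 0 < c) {Q : Set K} {B : ℝ} (hB : 0 ≤ B) (hTr : TrilB B Q)
    (hQ : ∀ k ∈ Q, -k ∈ Q) (h0 : (0 : K) ∉ Q) {V : K → C3}
    (hVs : ∀ s : ℕ, Summable fun k => qk k ^ s * en2 (V k)) {y : ℕ → ℝ → K → C3}
    (hy : ∀ n : ℕ, Gal c n (SS Q n) V (y n)) (s : ℕ) :
    ∃ M : ℝ, 0 ≤ M ∧ ∀ (n : ℕ) (t : ℝ) (k : K), qk k ^ s * en2 (y n (clip n t) k) ≤ M := by
  set Nm : ℕ → ℝ := fun s => ∑' k, qk k ^ s * en2 (V k) with hNm
  have hNm0 : ∀ s, 0 ≤ Nm s := fun s => tsum_nonneg fun k =>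
    mul_nonneg (pow_nonneg (qk_nonneg k) s) (en2_nonneg _)
  have hle : ∀ n s, phi (SS Q n) s V ≤ Nm s := fun n s =>
    (hVs s).sum_le_tsum _ fun k _ => mul_nonneg (pow_nonneg (qk_nonneg k) s) (en2_nonneg _)
  set Lam : ℝ := ∑' k : K, (1 / nk k) ^ 4 with hLam
  have hLam0 : 0 ≤ Lam := tsum_nonneg fun k => by have := nk_nonneg k; positivity
  have hLle : ∀ n, ∑ k ∈ SS Q n, (1 / nk k) ^ 4 ≤ Lam := fun n =>
    summ_nk4.sum_le_tsum _ fun k _ => by have := nk_nonneg k; positivity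
  set D : ℝ := 2 * Real.pi * B with hD
  have hD0 : 0 ≤ D := by positivity
  set M : ℝ := Nm s * Real.exp ((2 * Real.pi * 2 ^ (s + 1)) ^ 2 * Lam / (2 * c ^ 2) *
      (Nm 1 * Real.exp (D ^ 2 / (2 * c ^ 2) * Nm 0))) with hM
  have hM0 : 0 ≤ M := mul_nonneg (hNm0 s) (Real.exp_pos _).le
  refine ⟨M, hM0, fun n t k => ?_⟩
  have h0S : (0 : K) ∉ SS Q n := fun h => h0 (mem_SS.1 h).2
  have hSn : ∀ k ∈ SS Q n, -k ∈ SS Q n := fun k hk => SS_neg hQ hk
  have ht := clip_mem n t
  by_cases hk : k ∈ SS Q n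
  · have h1 : qk k ^ s * en2 (y n (clip n t) k) ≤ phi (SS Q n) s (y n (clip n t)) :=
      Finset.single_le_sum (f := fun k => qk k ^ s * en2 (y n (clip n t) k))
        (fun k _ => mul_nonneg (pow_nonneg (qk_nonneg k) s) (en2_nonneg _)) hk
    have h2 := (hy n).bounds hc hSn h0S hD0 (hLle n) (fun r hr =>
      prd_le_of_tril hB hTr (fun k hk => (mem_SS.1 hk).2) hSn h0S ((hy n).supp r hr) ((hy n).sym r hr)
        ((hy n).div r hr)) s ht
    refine h1.trans (h2.trans ?_)
    have a0 := hle n 0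
    have a1 := hle n 1
    have as := hle n s
    have p1 := phi_nonneg (SS Q n) 1 V
    have n1 := hNm0 s
    rw [hM]
    have e1 : Real.exp (D ^ 2 / (2 * c ^ 2) * phi (SS Q n) 0 V) ≤ Real.exp (D ^ 2 / (2 * c ^ 2) * Nm 0) :=
      Real.exp_le_exp.2 (mul_le_mul_of_nonneg_left a0 (by positivity))
    have e2 : phi (SS Q n) 1 V * Real.exp (D ^ 2 / (2 * c ^ 2) * phi (SS Q n) 0 V)
        ≤ Nm 1 * Real.exp (D ^ 2 / (2 * c ^ 2) * Nm 0) :=
      mul_le_mul a1 e1 (Real.exp_pos _).le (hNm0 1)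
    refine mul_le_mul as (Real.exp_le_exp.2 (mul_le_mul_of_nonneg_left e2 (by positivity)))
      (Real.exp_pos _).le n1
  · have : y n (clip n t) k = 0 := (hy n).supp _ ht k hk
    rw [this, en2_zero, mul_zero]
    exact hM0

theorem pw_bound {Q : Set K} (h0 : (0 : K) ∉ Q) {c : ℝ} {V : K → C3} {y : ℕ → ℝ → K → C3}
    (hy : ∀ n : ℕ, Gal c n (SS Q n) V (y n))
    (hM : ∀ s : ℕ, ∃ M : ℝ, 0 ≤ M ∧ ∀ (n : ℕ) (t : ℝ) (k : K), qk k ^ s * en2 (y n (clip n t) k) ≤ M)
    (m : ℕ) : ∃ C : ℝ, 0 ≤ C ∧ ∀ (n : ℕ) (t : ℝ) (k : K), pw k ^ m * ‖y n (clip n t) k‖ ≤ C := by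
  obtain ⟨M, hM0, hMb⟩ := hM m
  refine ⟨3 ^ m * Real.sqrt M, by positivity, fun n t k => ?_⟩
  by_cases hk : k = 0
  · subst hk
    rw [(hy n).supp _ (clip_mem n t) 0 (fun h => h0 (mem_SS.1 h).2), norm_zero, mul_zero]
    positivity
  · have hn := nk_nonneg k
    have h1 : nk k ^ m * en (y n (clip n t) k) ≤ Real.sqrt M := by
      apply Real.le_sqrt_of_sq_le
      rw [mul_pow, en_sq, ← pow_mul, mul_comm m 2, pow_mul, nk_sq]
      exact hMb n t k
    calc pw k ^ m * ‖y n (clip n t) k‖ ≤ (3 * nk k) ^ m * en (y n (clip n t) k) := by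
          have := pw_pos k
          have h2 := pw_le_nk hk
          have h3 := norm_le_en (y n (clip n t) k)
          gcongr
      _ = 3 ^ m * (nk k ^ m * en (y n (clip n t) k)) := by rw [mul_pow]; ring
      _ ≤ _ := mul_le_mul_of_nonneg_left h1 (by positivity)

/-- uniformly bounded Galerkin approximations have a limit -/
theorem qsol_of_bound {c : ℝ} (hc : 0 < c) {Q : Set K} (h0 : (0 : K) ∉ Q) {V : K → C3}
    (hVQ : ∀ k, k ∉ Q → V k = 0) {y : ℕ → ℝ → K → C3} (hy : ∀ n : ℕ, Gal c n (SS Q n) V (y n))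
    (hM : ∀ s : ℕ, ∃ M : ℝ, 0 ≤ M ∧ ∀ (n : ℕ) (t : ℝ) (k : K), qk k ^ s * en2 (y n (clip n t) k) ≤ M) :
    ∃ u, QSol c Q V u := by
  have hP := pw_bound h0 hy hM
  set U : ℕ → K → ℝ → C3 := fun n k t => y n (clip n t) k with hU
  -- the summable bound
  obtain ⟨C6, hC6, hb6⟩ := hP 6
  set b : K → ℝ := fun k => C6 * (1 / pw k) ^ 6 with hb
  have hpw := pw_pos
  have hb0 : ∀ k, 0 ≤ b k := fun k => by have := hpw k; positivity
  have hUb : ∀ n k t, ‖U n k t‖ ≤ b k := by
    intro n k t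
    have h1 := hb6 n t k
    have h2 := pow_pos (hpw k) 6
    rw [hb]
    simp only
    rw [one_div, inv_pow, ← div_eq_mul_inv, le_div_iff₀ h2, mul_comm]
    exact h1
  have hp1 : ∀ k, 1 / pw k ≤ 1 := fun k => by
    rw [div_le_one (hpw k)]
    exact one_le_pw k
  have hpos1 : ∀ k : K, 0 ≤ 1 / pw k := fun k => (one_div_pos.2 (hpw k)).le
  have hbpw : Summable fun k => pw k * b k := by
    refine (summ_pw4.mul_left C6).of_nonneg_of_le (fun k => mul_nonneg (hpw k).le (hb0 k)) fun k => ?_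
    have h1 : pw k * b k = C6 * (1 / pw k) ^ 5 := by
      rw [hb]
      have := (hpw k).ne'
      field_simp
    rw [h1]
    exact mul_le_mul_of_nonneg_left (pow_le_pow_of_le_one (hpos1 k) (hp1 k) (by norm_num)) hC6
  have hbs : Summable b := hbpw.of_nonneg_of_le hb0 fun k => by
    have := one_le_pw k
    have := hb0 k
    nlinarith
  have hbq : Summable fun k => qk k * b k := by
    refine (summ_pw4.mul_left C6).of_nonneg_of_le (fun k => mul_nonneg (qk_nonneg k) (hb0 k)) fun k => ?_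
    have h2 : qk k ≤ pw k ^ 2 := by
      rw [show qk k = nk k ^ 2 from (nk_sq k).symm]
      exact pow_le_pow_left₀ (nk_nonneg k) (nk_le_pw k) 2
    have h1 : pw k ^ 2 * b k = C6 * (1 / pw k) ^ 4 := by
      rw [hb]
      have := (hpw k).ne'
      field_simp
    rw [← h1]
    exact mul_le_mul_of_nonneg_right h2 (hb0 k)
  -- first derivatives
  have hpb0 : ∀ k, 0 ≤ pw k * b k := fun k => mul_nonneg (hpw k).le (hb0 k)
  set L1 : K → ℝ := fun k => c * (qk k * b k) + C0 * ∑' l, (pw l * b l) * (pw (k - l) * b (k - l)) with hL1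
  have hL1s : Summable L1 := (hbq.mul_left c).add ((summ_conv hbpw hbpw hpb0 hpb0).mul_left C0)
  have hRH : ∀ n k t, ‖RH c (fun k => U n k t) k‖ ≤ L1 k := by
    intro n k t
    unfold RH
    refine (norm_add_le _ _).trans (add_le_add ?_ ?_)
    · rw [norm_neg_smul_le _ (mul_nonneg hc.le (qk_nonneg k)), mul_assoc]
      exact mul_le_mul_of_nonneg_left (mul_le_mul_of_nonneg_left (hUb n k t) (qk_nonneg k)) hc.le
    · exact norm_Bf_summ hbpw hbpw (fun k => hUb n k t) (fun k => hUb n k t) k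
  have hL10 : ∀ k, 0 ≤ L1 k := fun k => (norm_nonneg _).trans (hRH 0 k 0)
  classical
  set G : ℕ → K → ℝ → C3 := fun n k t => if k ∈ SS Q n then RH c (fun k => U n k t) k else 0 with hG
  have hGle : ∀ n k t, ‖G n k t‖ ≤ L1 k := by
    intro n k t
    simp only [hG]
    split_ifs
    · exact hRH n k t
    · rw [norm_zero]; exact hL10 k
  have hder : ∀ (n : ℕ) k, ∀ t ∈ Icc (0 : ℝ) n, HasDerivWithinAt (U n k) (G n k t) (Icc 0 n) t := by
    intro n k t ht
    by_cases hk : k ∈ SS Q n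
    · have h1 := (hy n).ode t ht k hk
      have h2 : G n k t = -((c * qk k : ℝ)) • y n t k + Bf (y n t) (y n t) k := by
        simp only [hG, if_pos hk, hU, clip_eq ht, RH]
      rw [h2]
      refine h1.congr (fun s hs => ?_) ?_
      · simp only [hU, clip_eq hs]
      · simp only [hU, clip_eq ht]
    · have h1 : U n k = fun _ => (0 : C3) := by
        funext s
        exact (hy n).supp _ (clip_mem n s) k hk
      have h2 : G n k t = 0 := by simp only [hG, if_neg hk]
      rw [h1, h2]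
      exact hasDerivWithinAt_const _ _ _
  have hlip : ∀ (n : ℕ) k, ∀ s ∈ Icc (0 : ℝ) n, ∀ t ∈ Icc (0 : ℝ) n, ‖U n k s - U n k t‖ ≤ L1 k * |s - t| :=
    fun n k s hs t ht => lip_of_deriv (hder n k) (fun r _ => hGle n k r) hs ht
  -- second derivatives
  set S1 : ℝ := ∑' k, L1 k with hS1
  set Sb : ℝ := ∑' k, b k with hSb
  have hS10 : 0 ≤ S1 := tsum_nonneg hL10
  have hSb0 : 0 ≤ Sb := tsum_nonneg hb0
  set L2 : K → ℝ := fun k => c * qk k * L1 k + C0 * nk k * (2 * (S1 * Sb)) with hL2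
  have hL20 : ∀ k, 0 ≤ L2 k := by
    intro k
    have h1 := mul_nonneg (mul_nonneg hc.le (qk_nonneg k)) (hL10 k)
    have h2 : 0 ≤ C0 * nk k * (2 * (S1 * Sb)) := by
      have := C0_pos
      have := nk_nonneg k
      positivity
    exact add_nonneg h1 h2
  have hGlip : ∀ (n : ℕ) k, ∀ s ∈ Icc (0 : ℝ) n, ∀ t ∈ Icc (0 : ℝ) n, ‖G n k s - G n k t‖ ≤ L2 k * |s - t| := by
    intro n k s hs t ht
    by_cases hk : k ∈ SS Q n
    · simp only [hG, if_pos hk]
      set x : K → C3 := fun k => U n k s with hx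
      set z : K → C3 := fun k => U n k t with hz
      have hxb : ∀ k, ‖x k‖ ≤ b k := fun k => hUb n k s
      have hzb : ∀ k, ‖z k‖ ≤ b k := fun k => hUb n k t
      have hxs : SN x := hbs.of_nonneg_of_le (fun _ => norm_nonneg _) hxb
      have hzs : SN z := hbs.of_nonneg_of_le (fun _ => norm_nonneg _) hzb
      have hxz : ∀ k, ‖(x - z) k‖ ≤ L1 k * |s - t| := fun k => hlip n k s hs t ht
      have e1 : RH c x k - RH c z k = (-(c * qk k)) • (x - z) k + (Bf (x - z) x k + Bf z (x - z) k) := by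
        have := congrFun (Bf_diff hxs hzs) k
        simp only [Pi.sub_apply, Pi.add_apply] at this
        unfold RH
        rw [← this, Pi.sub_apply, smul_sub]
        abel
      have hLs : Summable fun k => L1 k * |s - t| := hL1s.mul_right _
      have hL0' : ∀ k, 0 ≤ L1 k * |s - t| := fun k => mul_nonneg (hL10 k) (abs_nonneg _)
      have b1 := norm_Bf_conv hLs hbs hxz hxb k
      have b2 := norm_Bf_conv hbs hLs hzb hxz k
      have c1 := tsum_bb_le hLs hbs hL0' hb0 k
      have c2 := tsum_bb_le hbs hLs hb0 hL0' k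
      rw [tsum_mul_right] at c1 c2
      have hCn : 0 ≤ C0 * nk k := mul_nonneg C0_pos.le (nk_nonneg k)
      have d1 : ‖Bf (x - z) x k‖ ≤ C0 * nk k * (S1 * |s - t| * Sb) :=
        b1.trans (mul_le_mul_of_nonneg_left c1 hCn)
      have d2 : ‖Bf z (x - z) k‖ ≤ C0 * nk k * (Sb * (S1 * |s - t|)) :=
        b2.trans (mul_le_mul_of_nonneg_left c2 hCn)
      rw [e1]
      refine (norm_add_le _ _).trans ?_
      rw [norm_neg_smul_le _ (mul_nonneg hc.le (qk_nonneg k))]
      have d3 : c * qk k * ‖(x - z) k‖ ≤ c * qk k * (L1 k * |s - t|) :=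
        mul_le_mul_of_nonneg_left (hxz k) (mul_nonneg hc.le (qk_nonneg k))
      have d4 := norm_add_le (Bf (x - z) x k) (Bf z (x - z) k)
      have e2 : L2 k * |s - t| = c * qk k * (L1 k * |s - t|) + C0 * nk k * (S1 * |s - t| * Sb)
          + C0 * nk k * (Sb * (S1 * |s - t|)) := by
        rw [hL2]; ring
      rw [e2]
      linarith
    · simp only [hG, if_neg hk, sub_zero, norm_zero]
      exact mul_nonneg (hL20 k) (abs_nonneg _)
  have htay : ∀ (n : ℕ) k, ∀ s ∈ Icc (0 : ℝ) n, ∀ t ∈ Icc (0 : ℝ) n,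
      ‖U n k s - U n k t - (s - t) • G n k t‖ ≤ L2 k * |s - t| * |s - t| := fun n k s hs t ht =>
    taylor_of_deriv (hder n k) (hL20 k) (fun r hr r' hr' => hGlip n k r hr r' hr') hs ht
  -- the limit along an ultrafilter
  set F : Ultrafilter ℕ := Filter.hyperfilter ℕ with hF
  have hFle : (F : Filter ℕ) ≤ atTop := Nat.hyperfilter_le_atTop
  have hlim : ∀ (k : K) (t : ℝ), ∃ x : C3, Tendsto (fun n => U n k t) F (𝓝 x) := by
    intro k t
    obtain ⟨x, _, hx⟩ := (isCompact_closedBall (0 : C3) (b k)).ultrafilter_le_nhds'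
      (F.map fun n => U n k t) (by
        rw [Ultrafilter.mem_map]
        refine Filter.univ_mem' fun n => ?_
        simp only [mem_preimage, mem_closedBall_zero_iff]
        exact hUb n k t)
    exact ⟨x, hx⟩
  choose u hu using hlim
  have hmax : ∀ k t, u k (max t 0) = u k t := by
    intro k t
    refine tendsto_nhds_unique (hu k (max t 0)) ((hu k t).congr fun n => ?_)
    simp only [hU, clip_max]
  have hev : ∀ N : ℕ, ∀ᶠ n in (F : Filter ℕ), N ≤ n := fun N => hFle (eventually_ge_atTop N)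
  have hIcc : ∀ t : ℝ, 0 ≤ t → ∀ᶠ n : ℕ in (F : Filter ℕ), t ∈ Icc (0 : ℝ) n := by
    intro t ht
    obtain ⟨N, hN⟩ := exists_nat_ge t
    filter_upwards [hev N] with n hn
    exact ⟨ht, hN.trans (by exact_mod_cast hn)⟩
  have hub : ∀ k t, ‖u k t‖ ≤ b k := fun k t =>
    le_of_tendsto (hu k t).norm (Eventually.of_forall fun n => hUb n k t)
  -- limit of the right-hand sides
  have hGlim : ∀ k ∈ Q, ∀ t, Tendsto (fun n => G n k t) F (𝓝 (RH c (fun k => u k t) k)) := by
    intro k hk t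
    obtain ⟨N, hN⟩ := SS_eventually hk
    have h1 : Tendsto (fun n => RH c (fun k => U n k t) k) F (𝓝 (RH c (fun k => u k t) k)) := by
      unfold RH
      exact ((hu k t).const_smul _).add
        (Bf_tendsto' hbs hb0 (x := fun n k => U n k t) (fun n k => hUb n k t) (fun k => hu k t) k)
    refine h1.congr' ?_
    filter_upwards [hev N] with n hn
    simp only [hG, if_pos (hN n hn)]
  have hlipu : ∀ k, ∀ s, 0 ≤ s → ∀ t, 0 ≤ t → ‖u k s - u k t‖ ≤ L1 k * |s - t| := by
    intro k s hs t ht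
    refine le_of_tendsto ((hu k s).sub (hu k t)).norm ?_
    filter_upwards [hIcc s hs, hIcc t ht] with n h1 h2
    exact hlip n k s h1 t h2
  have htayu : ∀ k ∈ Q, ∀ s, 0 ≤ s → ∀ t, 0 ≤ t →
      ‖u k s - u k t - (s - t) • RH c (fun k => u k t) k‖ ≤ L2 k * |s - t| * |s - t| := by
    intro k hk s hs t ht
    refine le_of_tendsto ((((hu k s).sub (hu k t)).sub ((hGlim k hk t).const_smul (s - t)))).norm ?_
    filter_upwards [hIcc s hs, hIcc t ht] with n h1 h2
    exact htay n k s h1 t h2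
  refine ⟨u, ?_, ?_, ?_, ?_, ?_, ?_, ?_⟩
  · intro k
    have h1 : LipschitzWith (Real.toNNReal (L1 k)) (u k) := by
      refine LipschitzWith.of_dist_le_mul fun s t => ?_
      rw [Real.coe_toNNReal _ (hL10 k), dist_eq_norm, Real.dist_eq, ← hmax k s, ← hmax k t]
      refine (hlipu k _ (le_max_right _ _) _ (le_max_right _ _)).trans ?_
      exact mul_le_mul_of_nonneg_left (abs_max_sub_max_le_abs s t 0) (hL10 k)
    exact h1.continuous
  · intro k hk t
    refine tendsto_nhds_unique (hu k t) (tendsto_const_nhds.congr fun n => ?_)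
    exact ((hy n).supp _ (clip_mem n t) k fun h => hk (mem_SS.1 h).2).symm
  · intro t k i
    have h1 : Tendsto (fun n => U n (-k) t i) F (𝓝 (u (-k) t i)) :=
      ((continuous_apply i).tendsto _).comp (hu (-k) t)
    have h2 : Tendsto (fun n => star (U n k t i)) F (𝓝 (star (u k t i))) :=
      (((continuous_apply i).tendsto _).comp (hu k t)).star
    exact tendsto_nhds_unique h1 (h2.congr fun n => ((hy n).sym _ (clip_mem n t) k i).symm)
  · intro k t
    have h1 : Tendsto (fun n => dt k (U n k t)) F (𝓝 (dt k (u k t))) := by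
      unfold dt
      exact tendsto_finsetSum _ fun j _ =>
        (((continuous_apply j).tendsto _).comp (hu k t)).const_mul _
    exact tendsto_nhds_unique h1 (tendsto_const_nhds.congr fun n =>
      ((hy n).div _ (clip_mem n t) k).symm)
  · intro m
    obtain ⟨C, hC, hCb⟩ := hP m
    refine ⟨C, fun k t => ?_⟩
    exact le_of_tendsto ((hu k t).norm.const_mul _) (Eventually.of_forall fun n => hCb n t k)
  · intro k hk t ht
    rw [hasDerivAt_iff_isLittleO]
    have h1 : (fun s => u k s - u k t - (s - t) • RH c (fun k => u k t) k) =O[𝓝 t]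
        fun s => |s - t| * |s - t| := by
      refine Asymptotics.IsBigO.of_bound (L2 k) ?_
      filter_upwards [lt_mem_nhds ht] with s hs
      refine (htayu k hk s hs.le t ht.le).trans (le_of_eq ?_)
      have h0 : ‖|s - t| * |s - t|‖ = |s - t| * |s - t| :=
        Real.norm_of_nonneg (mul_nonneg (abs_nonneg _) (abs_nonneg _))
      rw [h0]
      ring
    have h2 : (fun s : ℝ => |s - t| * |s - t|) =o[𝓝 t] fun s => s - t := by
      have h3 : (fun s : ℝ => |s - t| * |s - t|) = fun s => (s - t) * (s - t) := by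
        funext s
        exact abs_mul_abs_self _
      rw [h3]
      have h4 : (fun s : ℝ => s - t) =o[𝓝 t] fun _ => (1 : ℝ) := by
        rw [Asymptotics.isLittleO_one_iff]
        have : Tendsto (fun s : ℝ => s - t) (𝓝 t) (𝓝 (t - t)) := (continuous_id.sub continuous_const).tendsto t
        rwa [sub_self] at this
      have h5 := h4.mul_isBigO (Asymptotics.isBigO_refl (fun s : ℝ => s - t) (𝓝 t))
      simpa using h5
    exact h1.trans_isLittleO h2
  · intro k
    by_cases hk : k ∈ Q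
    · obtain ⟨N, hN⟩ := SS_eventually hk
      refine tendsto_nhds_unique (hu k 0) (tendsto_const_nhds.congr' ?_)
      filter_upwards [hev N] with n hn
      simp only [hU, clip_neg le_rfl]
      exact ((hy n).init k (hN n hn)).symm
    · rw [hVQ k hk]
      refine tendsto_nhds_unique (hu k 0) (tendsto_const_nhds.congr fun n => ?_)
      exact ((hy n).supp _ (clip_mem n 0) k fun h => hk (mem_SS.1 h).2).symm

theorem qsol_exists {c : ℝ} (hc : 0 < c) {Q : Set K} {B : ℝ} (hB : 0 ≤ B) (hTr : TrilB B Q)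
    (hQ : ∀ k ∈ Q, -k ∈ Q) (h0 : (0 : K) ∉ Q) {V : K → C3} (hV : Sym V) (hdV : ∀ k, dt k (V k) = 0)
    (hVQ : ∀ k, k ∉ Q → V k = 0) (hVs : ∀ s : ℕ, Summable fun k => qk k ^ s * en2 (V k)) :
    ∃ u, QSol c Q V u := by
  have ex : ∀ n : ℕ, ∃ y, Gal c n (SS Q n) V y := fun n =>
    gal_exists hc.le (Nat.cast_nonneg n) (fun k hk => SS_neg hQ hk) hV hdV
  choose y hy using ex
  exact qsol_of_bound hc h0 hVQ hy (unif_bound hc hB hTr hQ h0 hVs hy)

end Pool.Agent.Y6
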