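import Pool.Agent.Y154.NS.Tril
import Pool.Agent.Y474.NS.Prob
import Pool.Agent.Y474.NSData
import Pool.Agent.Y154.NS.Phys
import Pool.Agent.Y154.NS.Uniq
import Pool.Agent.Y6.Lim2

/-!
Sets of modes with few quadruples: global regularity.
-/

open MeasureTheory Set
open scoped ENNReal ContDiff

set_option autoImplicit false

namespace Pool.Agent.Y6

open Pool.Agent.H356R3.NS hiding K sq

/-- Global regularity of the Navier-Stokes equations restricted to a set of modes with few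
quadruples. -/
theorem good_regular {A : ℝ} (hA : 1 ≤ A) {Q : Set K} (hQ : ∀ k ∈ Q, -k ∈ Q) (h0 : (0 : K) ∉ Q)
    (hG : Good A Q) {ν : ℝ} (hν : 0 < ν) {v : R3 → R3} (hv : Dat v) (hvQ : ∀ k, k ∉ Q → fc v k = 0) :
    ∃ (u : ℝ → R3 → R3) (p : ℝ → R3 → ℝ), DecSol Q ν v u p ∧
      ∀ (u' : ℝ → R3 → R3) (p' : ℝ → R3 → ℝ), DecSol Q ν v u' p' → ∀ t, 0 ≤ t → u' t = u t := by
  obtain ⟨C, hC, htril⟩ := Pool.Agent.Y154.NS.t_tril
  obtain ⟨h1, h2, h3, h4⟩ := Pool.Agent.Y474.NSData.t_data v hv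
  have hB : 0 ≤ C * Real.sqrt A := by positivity
  have hTr : TrilB (C * Real.sqrt A) Q := fun w hw hw0 hws => htril A Q hA hQ hG w hw hw0 hws
  obtain ⟨W, hW⟩ := qsol_exists (c := 4 * Real.pi ^ 2 * ν) (by positivity) hB hTr hQ h0 h1 h2 hvQ h3
  obtain ⟨U, P, hU⟩ := Pool.Agent.Y154.NS.phys_of Pool.Agent.Y474.NSData.t_data ν Q v W hν hQ h0 hv hW
  exact ⟨U, P, hU, fun u' p' hu' t ht =>
    Pool.Agent.Y154.NS.t_uniq ν Q v u' U p' P hν hu' hU t ht⟩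

end Pool.Agent.Y6
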