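import Pool.Agent.Y6.FD

/-!
Almost sure global regularity of the Navier-Stokes equations on random sets of Fourier modes of the
critical dimension `8/3`.
-/

open MeasureTheory Set
open scoped ENNReal

set_option autoImplicit false

/-- Let `Q(ω)` be a random symmetric set of nonzero Fourier modes such that any finitely many modes, no
two of them opposite or equal, lie in `Q` at the same time with probability at most the product of the
numbers `C |k|^(-1/3)` (`|k|` the maximum norm). Almost surely, for every viscosity `ν > 0` and every smooth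
periodic divergence-free field `v` with Fourier modes in `Q`, the Navier-Stokes equations restricted to the
Fourier modes in `Q`, with initial velocity `v`, have a smooth periodic solution for all times, and
its velocity is unique. -/
theorem Pool.Agent.Y6.fractal_decimation.{u} (Ω : Type u) [MeasurableSpace Ω]
    (μ : Measure Ω) [IsProbabilityMeasure μ] (Q : Ω → Set (Fin 3 → ℤ)) (C : ℝ)
    (hmeas : ∀ k : Fin 3 → ℤ, MeasurableSet {ω | k ∈ Q ω})
    (hsymm : ∀ ω, ∀ k ∈ Q ω, -k ∈ Q ω) (hzero : ∀ ω, (0 : Fin 3 → ℤ) ∉ Q ω)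
    (hprob : ∀ S : Finset (Fin 3 → ℤ), (∀ k ∈ S, -k ∉ S) → μ {ω | ∀ k ∈ S, k ∈ Q ω}
      ≤ ∏ k ∈ S, ENNReal.ofReal (C * (Pool.Agent.Y6.sz k : ℝ) ^ (-(1 / 3) : ℝ))) :
    ∀ᵐ ω ∂μ, ∀ ν : ℝ, 0 < ν → ∀ v : (Fin 3 → ℝ) → Fin 3 → ℝ, Pool.Agent.Y6.Dat v →
      (∀ k, k ∉ Q ω → Pool.Agent.H356R3.NS.fc v k = 0) →
      ∃ (u : ℝ → (Fin 3 → ℝ) → Fin 3 → ℝ) (p : ℝ → (Fin 3 → ℝ) → ℝ),
        Pool.Agent.Y6.DecSol (Q ω) ν v u p ∧
        ∀ (u' : ℝ → (Fin 3 → ℝ) → Fin 3 → ℝ) (p' : ℝ → (Fin 3 → ℝ) → ℝ),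
          Pool.Agent.Y6.DecSol (Q ω) ν v u' p' → ∀ t, 0 ≤ t → u' t = u t := by
  filter_upwards [Pool.Agent.Y474.NS.t_prob Ω μ Q C hmeas hsymm hprob] with ω hω
  obtain ⟨A, hA, hG⟩ := hω
  intro ν hν v hv hvQ
  exact Pool.Agent.Y6.good_regular hA (hsymm ω) (hzero ω) hG hν hv hvQ
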