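import Pool.Agent.Y6.Gap3
import Pool.Agent.Y6.Lim2

/-!
Galerkin approximations as solutions on the Fourier side; bounds of the higher norms from a bound of the
enstrophy.
-/

open MeasureTheory Set Filter Topology
open scoped ContDiff ENNReal

set_option autoImplicit false

namespace Pool.Agent.Y6

open Pool.Agent.H356R3.NS hiding K sq

section

variable {c T : ℝ} {S : Finset K} {V : K → C3} {y : ℝ → K → C3}

lemma Gal.mono (h : Gal c T S V y) {T' : ℝ} (hT : T' ≤ T) : Gal c T' S V y where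
  supp := fun t ht => h.supp t ⟨ht.1, ht.2.trans hT⟩
  sym := fun t ht => h.sym t ⟨ht.1, ht.2.trans hT⟩
  div := fun t ht => h.div t ⟨ht.1, ht.2.trans hT⟩
  ode := fun t ht k hk => (h.ode t ⟨ht.1, ht.2.trans hT⟩ k hk).mono (Icc_subset_Icc_right hT)
  init := h.init

lemma Gal.cont (h : Gal c T S V y) (k : K) : ContinuousOn (fun t => y t k) (Icc 0 T) := by
  by_cases hk : k ∈ S
  · exact fun t ht => (h.ode t ht k hk).continuousWithinAt
  · refine (continuousOn_const (c := (0 : C3))).congr fun t ht => h.supp t ht k hk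

lemma fin_rap {x : K → C3} (hx : ∀ k, k ∉ S → x k = 0) : RapK x := by
  intro m
  refine ⟨∑ k ∈ S, pw k ^ m * ‖x k‖, fun k => ?_⟩
  have h0 : ∀ k, 0 ≤ pw k ^ m * ‖x k‖ := fun k => by have := pw_pos k; positivity
  by_cases hk : k ∈ S
  · exact Finset.single_le_sum (f := fun k => pw k ^ m * ‖x k‖) (fun k _ => h0 k) hk
  · rw [hx k hk, norm_zero, mul_zero]
    exact Finset.sum_nonneg fun k _ => h0 k

lemma Gal.fld (h : Gal c T S V y) (h0 : (0 : K) ∉ S) {t : ℝ} (ht : t ∈ Icc 0 T) : Fld (y t) where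
  rap := fin_rap (h.supp t ht)
  sym := h.sym t ht
  div := h.div t ht
  zero := h.supp t ht 0 h0

lemma Gal.tsol (h : Gal c T S V y) (h0 : (0 : K) ∉ S) : TSol c T (↑S) y where
  fld := fun t ht => h.fld h0 ⟨ht.1, ht.2.le⟩
  supp := fun t ht k hk => h.supp t ⟨ht.1, ht.2.le⟩ k (by simpa using hk)
  rap := by
    intro T' hT' m
    have h1 : ContinuousOn (fun t => ∑ k ∈ S, pw k ^ m * ‖y t k‖) (Icc 0 T) :=
      continuousOn_finsetSum _ fun k _ => continuousOn_const.mul (h.cont k).norm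
    obtain ⟨C, hC⟩ := isCompact_Icc.bddAbove_image h1
    refine ⟨C, fun t ht k => ?_⟩
    have ht' : t ∈ Icc 0 T := ⟨ht.1, ht.2.trans hT'.le⟩
    have h2 : ∑ k ∈ S, pw k ^ m * ‖y t k‖ ≤ C := hC ⟨t, ht', rfl⟩
    have h3 : ∀ k, 0 ≤ pw k ^ m * ‖y t k‖ := fun k => by have := pw_pos k; positivity
    refine le_trans ?_ h2
    by_cases hk : k ∈ S
    · exact Finset.single_le_sum (f := fun k => pw k ^ m * ‖y t k‖) (fun k _ => h3 k) hk
    · rw [h.supp t ht' k hk, norm_zero, mul_zero]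
      exact Finset.sum_nonneg fun k _ => h3 k
  cont := fun k => (h.cont k).mono Ico_subset_Icc_self
  ode := fun t ht k hk => (h.ode t (Ioo_subset_Icc_self ht) k (by simpa using hk)).hasDerivAt
    (Icc_mem_nhds ht.1 ht.2)

lemma phi_eq_wn {x : K → C3} (hx : ∀ k, k ∉ S → x k = 0) (s : ℕ) : phi S s x = wn (fun k => qk k ^ s) x := by
  unfold phi wn
  refine (tsum_eq_sum fun k hk => ?_).symm
  rw [hx k hk, en2_zero, mul_zero]

lemma prd_eq_prdi {x : K → C3} (hx : ∀ k, k ∉ S → x k = 0) (ρ : K → ℝ) : prd S ρ x = prdi ρ x := by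
  unfold prd prdi
  refine (tsum_eq_sum fun k hk => ?_).symm
  rw [hx k hk]
  simp [ipc]

/-- Bounds of all norms. -/
theorem Gal.bounds2 (h : Gal c T S V y) (hc : 0 < c) (hS : ∀ k ∈ S, -k ∈ S) (h0 : (0 : K) ∉ S)
    {a Lam : ℝ} (ha0 : 0 ≤ a) (hL : ∑ k ∈ S, (1 / nk k) ^ 4 ≤ Lam)
    (htr : ∀ t ∈ Icc 0 T, 2 * prd S qk (y t) ≤ c * phi S 2 (y t) + 2 * c * a * phi S 1 (y t) ^ 2)
    (s : ℕ) {t : ℝ} (ht : t ∈ Icc 0 T) :
    phi S s (y t) ≤ phi S s V * Real.exp ((2 * Real.pi * 2 ^ (s + 1)) ^ 2 * Lam / (2 * c ^ 2) *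
      (phi S 1 V * Real.exp (a * phi S 0 V))) := by
  have hL0 : 0 ≤ Lam := (Finset.sum_nonneg fun k _ => by positivity).trans hL
  set E : ℝ → ℝ := fun t => phi S 0 (y t) with hE
  set Z : ℝ → ℝ := fun t => phi S 1 (y t) with hZ
  set P : ℝ → ℝ := fun t => phi S 2 (y t) with hP
  have hE0 : ∀ t, 0 ≤ E t := fun t => phi_nonneg _ _ _
  have hZ0 : ∀ t, 0 ≤ Z t := fun t => phi_nonneg _ _ _
  have hP0 : ∀ t, 0 ≤ P t := fun t => phi_nonneg _ _ _
  have hdE : ∀ t ∈ Icc 0 T, HasDerivWithinAt E (-(2 * c) * Z t) (Icc 0 T) t := by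
    intro t ht
    refine (h.phi_deriv 0 ht).congr_deriv ?_
    have h1 := prd_one hS (h.supp t ht) (h.sym t ht) (h.div t ht)
    simp only [pow_zero, zero_add]
    rw [h1]
    ring
  have hdZ : ∀ t ∈ Icc 0 T, HasDerivWithinAt Z (-(2 * c) * P t + 2 * prd S qk (y t)) (Icc 0 T) t := by
    intro t ht
    have h1 := h.phi_deriv 1 ht
    simp only [pow_one] at h1
    exact h1
  -- the function G
  set G : ℝ → ℝ := fun t => Z t * Real.exp (a * E t) with hG
  set G' : ℝ → ℝ := fun t => (-(2 * c) * P t + 2 * prd S qk (y t)) * Real.exp (a * E t)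
      + Z t * (Real.exp (a * E t) * (a * (-(2 * c) * Z t))) with hG'
  have hdG : ∀ t ∈ Icc 0 T, HasDerivWithinAt G (G' t) (Icc 0 T) t := fun t ht =>
    (hdZ t ht).mul (((hdE t ht).const_mul a).exp)
  have hGle : ∀ t ∈ Icc 0 T, G' t ≤ -(c * P t) := by
    intro t ht
    have h1 := htr t ht
    have h6 : G' t = Real.exp (a * E t) * ((-(2 * c) * P t + 2 * prd S qk (y t))
        + a * (-(2 * c) * Z t) * Z t) := by
      rw [hG']
      ring
    rw [h6]
    have h7 : (-(2 * c) * P t + 2 * prd S qk (y t)) + a * (-(2 * c) * Z t) * Z t ≤ -(c * P t) := by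
      have : a * (-(2 * c) * Z t) * Z t = -(2 * c * a * Z t ^ 2) := by ring
      rw [this]
      linarith
    have h8 : 1 ≤ Real.exp (a * E t) := Real.one_le_exp (mul_nonneg ha0 (hE0 t))
    calc _ ≤ Real.exp (a * E t) * (-(c * P t)) := mul_le_mul_of_nonneg_left h7 (Real.exp_pos _).le
      _ ≤ _ := by
          have h9 : 0 ≤ c * P t := mul_nonneg hc.le (hP0 t)
          nlinarith
  have hG0 : ∀ t, 0 ≤ G t := fun t => mul_nonneg (hZ0 t) (Real.exp_pos _).le
  -- the function H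
  set M : ℝ := 2 * Real.pi * 2 ^ (s + 1) with hM
  set b : ℝ := M ^ 2 * Lam / (2 * c ^ 2) with hb
  have hb0 : 0 ≤ b := by positivity
  set F : ℝ → ℝ := fun t => phi S s (y t) with hF
  have hF0 : ∀ t, 0 ≤ F t := fun t => phi_nonneg _ _ _
  set F' : ℝ → ℝ := fun t => -(2 * c) * phi S (s + 1) (y t) + 2 * prd S (fun k => qk k ^ s) (y t) with hF'
  have hdF : ∀ t ∈ Icc 0 T, HasDerivWithinAt F (F' t) (Icc 0 T) t := fun t ht => h.phi_deriv s ht
  have hFle : ∀ t ∈ Icc 0 T, F' t ≤ M ^ 2 * Lam / (2 * c) * P t * F t := by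
    intro t ht
    have h1 := abs_prd_pow_le (h.supp t ht) (h.div t ht) s
    have h2 := sum_en_le (y := y t) h0 hL
    have h3 : prd S (fun k => qk k ^ s) (y t) ≤ M * (Real.sqrt (phi S (s + 1) (y t)) *
        Real.sqrt (F t) * (Real.sqrt Lam * Real.sqrt (P t))) := by
      refine (le_of_abs_le h1).trans ?_
      have hM0 : 0 ≤ M := by positivity
      exact mul_le_mul_of_nonneg_left (mul_le_mul_of_nonneg_left h2
        (mul_nonneg (Real.sqrt_nonneg _) (Real.sqrt_nonneg _))) hM0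
    have h4 := two_mul_le_add (c := 2 * c) (X := Real.sqrt (F t) * (Real.sqrt Lam * Real.sqrt (P t)))
      (Y := Real.sqrt (phi S (s + 1) (y t))) (D := M) (by positivity)
    have h5 : (Real.sqrt (F t) * (Real.sqrt Lam * Real.sqrt (P t))) ^ 2 = F t * (Lam * P t) := by
      rw [mul_pow, mul_pow, Real.sq_sqrt (hF0 t), Real.sq_sqrt hL0, Real.sq_sqrt (hP0 t)]
    rw [h5, Real.sq_sqrt (phi_nonneg _ _ _)] at h4
    have h6 : M ^ 2 / (2 * c) * (F t * (Lam * P t)) = M ^ 2 * Lam / (2 * c) * P t * F t := by ring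
    rw [h6] at h4
    have h7 : F' t = -(2 * c) * phi S (s + 1) (y t) + 2 * prd S (fun k => qk k ^ s) (y t) := rfl
    rw [h7]
    nlinarith
  have hdH : ∀ t ∈ Icc 0 T, HasDerivWithinAt (fun t => F t * Real.exp (b * G t))
      (F' t * Real.exp (b * G t) + F t * (Real.exp (b * G t) * (b * G' t))) (Icc 0 T) t := fun t ht =>
    (hdF t ht).mul (((hdG t ht).const_mul b).exp)
  have hHle : ∀ t ∈ Icc 0 T, F' t * Real.exp (b * G t) + F t * (Real.exp (b * G t) * (b * G' t)) ≤ 0 := by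
    intro t ht
    have h1 := hFle t ht
    have h2 := hGle t ht
    have h3 : F' t * Real.exp (b * G t) + F t * (Real.exp (b * G t) * (b * G' t))
        = Real.exp (b * G t) * (F' t + b * F t * G' t) := by ring
    rw [h3]
    refine mul_nonpos_of_nonneg_of_nonpos (Real.exp_pos _).le ?_
    have h4 : b * F t * G' t ≤ b * F t * (-(c * P t)) :=
      mul_le_mul_of_nonneg_left h2 (mul_nonneg hb0 (hF0 t))
    have h5 : b * F t * (-(c * P t)) = -(M ^ 2 * Lam / (2 * c) * P t * F t) := by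
      rw [hb]
      field_simp
    linarith
  have hfin := anti_of_deriv hdH hHle ht
  have hG00 : G 0 = phi S 1 V * Real.exp (a * phi S 0 V) := by
    simp only [hG, hZ, hE, h.phi_zero]
  have hF00 : F 0 = phi S s V := h.phi_zero s
  rw [hG00, hF00] at hfin
  refine le_trans ?_ hfin
  have h8 : 1 ≤ Real.exp (b * G t) := Real.one_le_exp (mul_nonneg hb0 (hG0 t))
  calc phi S s (y t) = F t * 1 := (mul_one _).symm
    _ ≤ F t * Real.exp (b * G t) := mul_le_mul_of_nonneg_left h8 (hF0 t)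

end

/-- the production of the enstrophy of fields with bounded enstrophy -/
lemma EnsB.prod_le {C A c : ℝ} {h : K → ℕ} (hp : EnsB C h A) (hc : 0 < c) {y : K → C3} (hy : Fld y)
    {B : ℝ} (hB : wn qk y ≤ B) :
    2 * prdi qk y ≤ c * wn (fun k => qk k ^ 2) y
      + 2 * c * ((2 * C ^ 2 * A / c + 128 * C * B / c ^ 3) / (2 * c)) * wn qk y ^ 2 := by
  have hC := hp.c0
  have hA := hp.a0
  obtain ⟨F, hF0, hF4, hF⟩ := hp.h1 1 le_rfl y hy
  have h1 := (le_abs_self _).trans hF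
  have hX : 0 ≤ XM h 1 y := wn_nonneg (xw_nonneg h 1)
  have hV : 0 ≤ wn (fun k => ind {k | 1 < h k} k * qk k) y :=
    wn_nonneg fun k => mul_nonneg (ind_nonneg _ _) (qk_nonneg k)
  have hZ : 0 ≤ wn qk y := wn_nonneg qk_nonneg
  have hP : 0 ≤ wn (fun k => qk k ^ 2) y := wn_nonneg fun k => pow_nonneg (qk_nonneg k) 2
  have hVZ : wn (fun k => ind {k | 1 < h k} k * qk k) y ≤ wn qk y :=
    wn_mono hy.rap ((adm_ind _).mul adm_qk) adm_qk fun k =>
      mul_le_of_le_one_left (qk_nonneg k) (ind_le_one _ _)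
  have hXZ : XM h 1 y ≤ wn qk y := wn_mono hy.rap (adm_xw le_rfl) adm_qk fun k => xw_le le_rfl k
  set Z := wn qk y
  set P := wn (fun k => qk k ^ 2) y
  have hF5 : F ≤ c / 4 * P + 64 * C / c ^ 3 * Z ^ 3 := by
    have hF4' : F ^ 4 ≤ C * Z ^ 3 * P ^ 3 := hF4.trans (by gcongr)
    rcases le_or_gt F (c / 4 * P) with h2 | h2
    · have : 0 ≤ 64 * C / c ^ 3 * Z ^ 3 := by positivity
      linarith
    · have hF0' : 0 < F := lt_of_le_of_lt (by positivity) h2
      have h3 : P ≤ 4 / c * F := by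
        rw [div_mul_eq_mul_div, le_div_iff₀ hc]
        linarith
      have h4 : F ^ 4 ≤ C * Z ^ 3 * (4 / c * F) ^ 3 := hF4'.trans (by gcongr)
      have h5 : F * F ^ 3 ≤ (64 * C / c ^ 3 * Z ^ 3) * F ^ 3 := by
        calc F * F ^ 3 = F ^ 4 := by ring
          _ ≤ C * Z ^ 3 * (4 / c * F) ^ 3 := h4
          _ = _ := by field_simp; ring
      have h6 := le_of_mul_le_mul_right h5 (by positivity)
      have : 0 ≤ c / 4 * P := by positivity
      linarith
  have h7 : Real.sqrt (A * (1 : ℕ) * XM h 1 y) ≤ Real.sqrt A * Real.sqrt Z := by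
    rw [← Real.sqrt_mul hA]
    apply Real.sqrt_le_sqrt
    rw [Nat.cast_one, mul_one]
    gcongr
  generalize Real.sqrt (A * (1 : ℕ) * XM h 1 y) = D at h1 h7
  have h6 : 2 * (C * D * Real.sqrt Z * Real.sqrt P)
      ≤ c / 2 * P + 2 * C ^ 2 * A / c * Z ^ 2 := by
    set p := Real.sqrt P
    set z := Real.sqrt Z
    set α := Real.sqrt A
    have ep : p ^ 2 = P := Real.sq_sqrt hP
    have ez : z ^ 2 = Z := Real.sq_sqrt hZ
    have eα : α ^ 2 = A := Real.sq_sqrt hA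
    have hp0 : 0 ≤ p := Real.sqrt_nonneg _
    have hz0 : 0 ≤ z := Real.sqrt_nonneg _
    have h8 : C * D * z * p ≤ C * (α * z) * z * p := by gcongr
    rw [← ep, ← ez, ← eα]
    have h9 : 0 ≤ (c / 2 * p - C * α * z ^ 2) ^ 2 * (2 / c) := by positivity
    have h10 : (c / 2 * p - C * α * z ^ 2) ^ 2 * (2 / c)
        = c / 2 * p ^ 2 + 2 * C ^ 2 * α ^ 2 / c * (z ^ 2) ^ 2 - 2 * (C * (α * z) * z * p) := by
      field_simp; ring
    linarith
  have h11 : 64 * C / c ^ 3 * Z ^ 3 ≤ 64 * C * B / c ^ 3 * Z ^ 2 := by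
    calc 64 * C / c ^ 3 * Z ^ 3 = 64 * C / c ^ 3 * Z ^ 2 * Z := by ring
      _ ≤ 64 * C / c ^ 3 * Z ^ 2 * B := by gcongr
      _ = _ := by ring
  have h12 : 2 * c * ((2 * C ^ 2 * A / c + 128 * C * B / c ^ 3) / (2 * c)) * Z ^ 2
      = 2 * C ^ 2 * A / c * Z ^ 2 + 2 * (64 * C * B / c ^ 3 * Z ^ 2) := by
    field_simp
    ring
  rw [h12]
  linarith

end Pool.Agent.Y6
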