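import Pool.Agent.Y6.Alg2
import Pool.Agent.H772R2.NSR.Ode

/-!
Galerkin approximations: existence.
-/

open MeasureTheory Set Filter Topology Metric
open scoped ENNReal NNReal InnerProductSpace

set_option autoImplicit false

namespace Pool.Agent.Y6

open Pool.Agent.H356R3.NS hiding K sq

/-- Galerkin approximations on `[0, T]`. -/
structure Gal (c T : ℝ) (S : Finset K) (V : K → C3) (y : ℝ → K → C3) : Prop where
  supp : ∀ t ∈ Icc 0 T, ∀ k, k ∉ S → y t k = 0
  sym : ∀ t ∈ Icc 0 T, Sym (y t)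
  div : ∀ t ∈ Icc 0 T, ∀ k, dt k (y t k) = 0
  ode : ∀ t ∈ Icc 0 T, ∀ k ∈ S, HasDerivWithinAt (fun t => y t k)
    (-((c * qk k : ℝ)) • y t k + Bf (y t) (y t) k) (Icc 0 T) t
  init : ∀ k ∈ S, y 0 k = V k

section

variable (S : Finset K)

/-- the state space -/
abbrev ES := PiLp 2 (fun _ : ↥S × Fin 3 => ℂ)

/-- extension by zero -/
noncomputable def ext (x : ES S) : K → C3 := fun k i => if h : k ∈ S then x (⟨k, h⟩, i) else 0

variable {S}

lemma ext_mem (x : ES S) {k : K} (h : k ∈ S) (i : Fin 3) : ext S x k i = x (⟨k, h⟩, i) := by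
  simp [ext, h]

lemma ext_not (x : ES S) {k : K} (h : k ∉ S) : ext S x k = 0 := by
  funext i
  simp [ext, h]

lemma ext_add (x y : ES S) : ext S (x + y) = ext S x + ext S y := by
  funext k i
  by_cases h : k ∈ S
  · simp [ext, h]
  · simp [ext, h]

lemma ext_smul (a : ℝ) (x : ES S) : ext S (a • x) = a • ext S x := by
  funext k i
  by_cases h : k ∈ S
  · simp [ext, h]
  · simp [ext, h]

lemma ext_zero : ext S (0 : ES S) = 0 := by
  funext k i
  by_cases h : k ∈ S
  · simp [ext, h]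
  · simp [ext, h]

lemma ext_contDiff (k : K) (i : Fin 3) : ContDiff ℝ 1 fun x : ES S => ext S x k i := by
  by_cases h : k ∈ S
  · simp only [ext, h, dif_pos]
    exact contDiff_piLp_apply 2
  · simp only [ext, h, dif_neg, not_false_eq_true]
    exact contDiff_const

variable (S)

/-- symmetric divergence free states -/
noncomputable def Sub : Submodule ℝ (ES S) where
  carrier := {x | Sym (ext S x) ∧ ∀ k, dt k (ext S x k) = 0}
  add_mem' := by
    rintro x y ⟨hx, hx'⟩ ⟨hy, hy'⟩
    refine ⟨?_, fun k => ?_⟩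
    · rw [ext_add]
      exact hx.add hy
    · rw [ext_add]
      have h1 := hx' k
      have h2 := hy' k
      unfold dt at h1 h2 ⊢
      simp only [Pi.add_apply, mul_add, Finset.sum_add_distrib, h1, h2, add_zero]
  zero_mem' := by
    refine ⟨?_, fun k => ?_⟩
    · rw [ext_zero]
      intro k i
      simp
    · rw [ext_zero]
      simp [dt]
  smul_mem' := by
    rintro a x ⟨hx, hx'⟩
    refine ⟨?_, fun k => ?_⟩
    · rw [ext_smul]
      intro k i
      simp only [Pi.smul_apply, hx k i]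
      rw [star_smul]
      simp
    · rw [ext_smul]
      have h1 := hx' k
      unfold dt at h1 ⊢
      have : ∀ j, (k j : ℂ) * (a • ext S x) k j = a • ((k j : ℂ) * ext S x k j) := by
        intro j
        simp only [Pi.smul_apply, Complex.real_smul]
        ring
      simp only [this]
      rw [← Finset.smul_sum, h1, smul_zero]

/-- the right-hand side -/
noncomputable def RH (c : ℝ) (y : K → C3) (k : K) : C3 := -((c * qk k : ℝ)) • y k + Bf y y k

/-- the vector field -/
noncomputable def XX (c : ℝ) (x : ES S) : ES S :=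
  WithLp.toLp 2 fun p => RH c (ext S x) p.1 p.2

variable {S}

lemma ext_XX (c : ℝ) (x : ES S) {k : K} (h : k ∈ S) : ext S (XX S c x) k = RH c (ext S x) k := by
  funext i
  rw [ext_mem _ h]
  simp [XX]

lemma dt_RH {c : ℝ} {y : K → C3} (hy : ∀ k, dt k (y k) = 0) (k : K) : dt k (RH c y k) = 0 := by
  have h1 := hy k
  have h2 := Bf_div y y k
  unfold RH
  unfold dt at h1 ⊢
  have : ∀ j, (k j : ℂ) * (-((c * qk k : ℝ)) • y k + Bf y y k) j
      = (-(c * qk k) : ℝ) • ((k j : ℂ) * y k j) + (k j : ℂ) * Bf y y k j := by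
    intro j
    simp only [Pi.add_apply, Pi.smul_apply, Complex.real_smul]
    ring
  simp only [this]
  rw [Finset.sum_add_distrib, ← Finset.smul_sum, h1, h2, smul_zero, add_zero]

lemma sym_RH {c : ℝ} {y : K → C3} (hy : Sym y) : Sym (RH c y) := by
  intro k i
  have h1 := Bf_sym hy hy k i
  unfold RH
  simp only [Pi.add_apply, Pi.smul_apply, Complex.real_smul]
  rw [h1, hy k i, star_add, star_mul', sq_neg' k]
  simp
where
  sq_neg' (k : K) : qk (-k) = qk k := Pool.Agent.H356R3.NS.sq_neg k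

lemma XX_mem (hS : ∀ k ∈ S, -k ∈ S) (c : ℝ) {x : ES S} (hx : x ∈ Sub S) : XX S c x ∈ Sub S := by
  obtain ⟨h1, h2⟩ := hx
  refine ⟨fun k i => ?_, fun k => ?_⟩
  · by_cases h : k ∈ S
    · rw [ext_XX c x h, ext_XX c x (hS k h)]
      exact sym_RH h1 k i
    · have h' : -k ∉ S := fun h' => h (by simpa using hS _ h')
      rw [ext_not _ h, ext_not _ h']
      simp
  · by_cases h : k ∈ S
    · rw [ext_XX c x h]
      exact dt_RH h2 k
    · rw [ext_not _ h]
      simp [dt]

lemma XX_contDiff (c : ℝ) : ContDiff ℝ 1 (XX S c) := by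
  rw [contDiff_piLp]
  intro p
  have h1 : (fun x : ES S => XX S c x p) = fun x => -((c * qk p.1 : ℝ)) • ext S x p.1 p.2
      + ∑ j, ∑ m, coef p.1 p.2 j m * ∑ l ∈ S, ext S x l j * ext S x (p.1 - l) m := by
    funext x
    simp only [XX, RH, Pi.add_apply, Pi.smul_apply]
    congr 1
    unfold Bf
    refine Finset.sum_congr rfl fun j _ => Finset.sum_congr rfl fun m _ => ?_
    rw [cv_fin (fun k hk => ext_not x hk)]
  rw [h1]
  refine ((ext_contDiff _ _).const_smul _).add ?_
  refine ContDiff.sum fun j _ => ContDiff.sum fun m _ => contDiff_const.mul ?_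
  exact ContDiff.sum fun l _ => (ext_contDiff _ _).mul (ext_contDiff _ _)

lemma inner_ES (x z : ES S) : ⟪x, z⟫_ℝ = ∑ k ∈ S, (ipc (ext S x k) (ext S z k)).re := by
  rw [PiLp.inner_apply, ← Finset.sum_coe_sort S, Fintype.sum_prod_type]
  refine Finset.sum_congr rfl fun k _ => ?_
  unfold ipc
  rw [Complex.re_sum]
  refine Finset.sum_congr rfl fun i _ => ?_
  rw [Complex.inner, ext_mem _ k.2, ext_mem _ k.2]
  simp only [Complex.star_def]
  rw [mul_comm]

lemma ipc_add (v w w' : C3) : ipc v (w + w') = ipc v w + ipc v w' := by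
  unfold ipc
  rw [← Finset.sum_add_distrib]
  refine Finset.sum_congr rfl fun m _ => ?_
  rw [Pi.add_apply, mul_add]

lemma ipc_smul (a : ℝ) (v w : C3) : ipc v (a • w) = (a : ℂ) * ipc v w := by
  unfold ipc
  rw [Finset.mul_sum]
  refine Finset.sum_congr rfl fun m _ => ?_
  rw [Pi.smul_apply, Complex.real_smul]
  ring

lemma re_ipc_comm (v w : C3) : (ipc v w).re = (ipc w v).re := by
  rw [← star_ipc v w, Complex.star_def, Complex.conj_re]

lemma re_ipc_RH (c : ℝ) (y : K → C3) (k : K) :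
    (ipc (y k) (RH c y k)).re = -(c * (qk k * en2 (y k))) + (ipc (y k) (Bf y y k)).re := by
  unfold RH
  rw [ipc_add, ipc_smul, ipc_self, Complex.add_re, ← Complex.ofReal_mul, Complex.ofReal_re]
  ring

theorem gal_exists {c T : ℝ} (hc : 0 ≤ c) (hT : 0 ≤ T) (hS : ∀ k ∈ S, -k ∈ S) {V : K → C3}
    (hV : Sym V) (hdV : ∀ k, dt k (V k) = 0) : ∃ y, Gal c T S V y := by
  have : FiniteDimensional ℝ (ES S) := inferInstance
  have : CompleteSpace ↥(Sub S) := FiniteDimensional.complete ℝ _
  -- the field on the subspace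
  let X : ℝ → ↥(Sub S) → ↥(Sub S) := fun _ x => ⟨XX S c x, XX_mem hS c x.2⟩
  have hlip : ∀ R : ℝ, ∃ C : ℝ≥0, ∀ t ∈ Icc 0 T, LipschitzOnWith C (X t) (closedBall 0 R) := by
    intro R
    obtain ⟨C, hC⟩ := ((XX_contDiff (S := S) c).contDiffOn (s := closedBall 0 R)).exists_lipschitzOnWith
      one_ne_zero (convex_closedBall 0 R) (isCompact_closedBall 0 R)
    refine ⟨C, fun t _ => ?_⟩
    intro x hx z hz
    have hx' : (x : ES S) ∈ closedBall (0 : ES S) R := by
      rw [mem_closedBall_zero_iff] at hx ⊢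
      exact hx
    have hz' : (z : ES S) ∈ closedBall (0 : ES S) R := by
      rw [mem_closedBall_zero_iff] at hz ⊢
      exact hz
    exact hC hx' hz'
  have hen : ∀ t ∈ Icc 0 T, ∀ x : ↥(Sub S), ⟪X t x, x⟫_ℝ ≤ 0 := by
    intro t _ x
    have h1 : ⟪X t x, x⟫_ℝ = ⟪XX S c x, (x : ES S)⟫_ℝ := rfl
    rw [h1, inner_ES]
    have h2 : ∀ k ∈ S, (ipc (ext S (XX S c x) k) (ext S (x : ES S) k)).re
        = -(c * (qk k * en2 (ext S (x : ES S) k))) + 1 * (ipc (ext S (x : ES S) k) (Bf (ext S (x : ES S)) (ext S (x : ES S)) k)).re := by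
      intro k hk
      rw [ext_XX c _ hk, re_ipc_comm, re_ipc_RH, one_mul]
    rw [Finset.sum_congr rfl h2, Finset.sum_add_distrib]
    have h3 := prd_one hS (fun k hk => ext_not (x : ES S) hk) x.2.1 x.2.2
    unfold prd at h3
    rw [h3, add_zero]
    refine Finset.sum_nonpos fun k _ => ?_
    have := mul_nonneg hc (mul_nonneg (qk_nonneg k) (en2_nonneg (ext S (x : ES S) k)))
    linarith
  -- initial datum
  set v0 : ES S := WithLp.toLp 2 fun p => V p.1 p.2 with hv0
  have e0 : ∀ k ∈ S, ext S v0 k = V k := by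
    intro k hk
    funext i
    rw [ext_mem _ hk]
  have hv0m : v0 ∈ Sub S := by
    refine ⟨fun k i => ?_, fun k => ?_⟩
    · by_cases h : k ∈ S
      · rw [e0 k h, e0 _ (hS k h)]
        exact hV k i
      · have h' : -k ∉ S := fun h' => h (by simpa using hS _ h')
        rw [ext_not _ h, ext_not _ h']
        simp
    · by_cases h : k ∈ S
      · rw [e0 k h]
        exact hdV k
      · rw [ext_not _ h]
        simp [dt]
  obtain ⟨x, hx0, hx, _⟩ := H772R2.NSR.exists_global X hT hlip (fun _ => continuousOn_const) ⟨v0, hv0m⟩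
    le_rfl hen
  refine ⟨fun t => ext S (x t : ES S), fun t _ k hk => ext_not _ hk, fun t _ => (x t).2.1,
    fun t _ => (x t).2.2, fun t ht k hk => ?_, fun k hk => ?_⟩
  · have h1 := hx t ht
    have h2 : HasDerivWithinAt (fun t => (x t : ES S)) (XX S c (x t)) (Icc 0 T) t :=
      (Sub S).subtypeL.hasFDerivAt.comp_hasDerivWithinAt t h1
    rw [hasDerivWithinAt_pi]
    intro i
    have h3 : HasDerivWithinAt (fun t => (x t : ES S) (⟨k, hk⟩, i)) (XX S c (x t) (⟨k, hk⟩, i)) (Icc 0 T) t :=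
      (PiLp.proj (𝕜 := ℝ) 2 (fun _ : ↥S × Fin 3 => ℂ) (⟨k, hk⟩, i)).hasFDerivAt.comp_hasDerivWithinAt t h2
    have h4 : (fun t => ext S (x t : ES S) k i) = fun t => (x t : ES S) (⟨k, hk⟩, i) := by
      funext t
      rw [ext_mem _ hk]
    rw [h4]
    exact h3
  · show ext S (x 0 : ES S) k = V k
    rw [hx0]
    exact e0 k hk

end

end Pool.Agent.Y6
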