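import Pool.Agent.Y6.Gev

/-!
Octave gaps: the bound of the enstrophy.
-/

open MeasureTheory Set Filter Topology
open scoped ContDiff ENNReal

set_option autoImplicit false

namespace Pool.Agent.Y6

open Pool.Agent.H356R3.NS hiding K sq

/-- the sum of the quotients over rapidly increasing scales -/
lemma sum_scales {m : ℕ → ℕ} (hm1 : ∀ j, 1 ≤ m j) (hm4 : ∀ j, 4 * m j ≤ m (j + 1)) (x : ℕ) (hx : 1 ≤ x)
    (J : ℕ) : ∑ j ∈ Finset.range J, (if x ≤ m j then Real.sqrt ((x : ℝ) / m j) else 0)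
      ≤ 2 - 2 * min 1 (Real.sqrt ((x : ℝ) / m J)) := by
  have hmp : ∀ j, (0 : ℝ) < m j := fun j => by exact_mod_cast hm1 j
  induction J with
  | zero =>
    rw [Finset.sum_range_zero]
    have := min_le_left 1 (Real.sqrt ((x : ℝ) / m 0))
    linarith
  | succ J ih =>
    rw [Finset.sum_range_succ]
    split_ifs with h
    · have h1 : Real.sqrt ((x : ℝ) / m J) ≤ 1 := by
        rw [Real.sqrt_le_one, div_le_one (hmp J)]
        exact_mod_cast h
      have h2 : Real.sqrt ((x : ℝ) / m (J + 1)) ≤ Real.sqrt ((x : ℝ) / m J) / 2 := by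
        have e : Real.sqrt ((x : ℝ) / m J) / 2 = Real.sqrt ((x : ℝ) / (4 * m J)) := by
          have e1 : (x : ℝ) / (4 * m J) = (x : ℝ) / m J / 2 ^ 2 := by
            have := (hmp J).ne'
            field_simp
            norm_num
          have e2 := Real.sqrt_div (x := (x : ℝ) / m J) (by positivity) (2 ^ 2)
          rw [e1, e2, Real.sqrt_sq (by norm_num : (0 : ℝ) ≤ 2)]
        rw [e]
        apply Real.sqrt_le_sqrt
        have h3 : (4 * m J : ℝ) ≤ m (J + 1) := by exact_mod_cast hm4 J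
        have h4 : (0 : ℝ) < 4 * m J := by have := hmp J; positivity
        gcongr
      rw [min_eq_right h1] at ih
      have := min_le_right 1 (Real.sqrt ((x : ℝ) / m (J + 1)))
      linarith
    · have h1 : 1 ≤ Real.sqrt ((x : ℝ) / m J) := by
        rw [Real.one_le_sqrt, one_le_div (hmp J)]
        have : m J ≤ x := by omega
        exact_mod_cast this
      rw [min_eq_left h1] at ih
      have := min_le_left 1 (Real.sqrt ((x : ℝ) / m (J + 1)))
      linarith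

/-- the weight of `XM` -/
noncomputable def xw (h : K → ℕ) (M : ℕ) (k : K) : ℝ :=
  ind {k | h k ≤ M} k * (Real.sqrt ((max (h k) 1 : ℕ) / M) * qk k)

lemma XM_eq (h : K → ℕ) (M : ℕ) (y : K → C3) : XM h M y = wn (xw h M) y := rfl

lemma xw_nonneg (h : K → ℕ) (M : ℕ) (k : K) : 0 ≤ xw h M k :=
  mul_nonneg (ind_nonneg _ _) (mul_nonneg (Real.sqrt_nonneg _) (qk_nonneg k))

lemma xw_eq {h : K → ℕ} {M : ℕ} (hM : 1 ≤ M) (k : K) :
    xw h M k = (if max (h k) 1 ≤ M then Real.sqrt ((max (h k) 1 : ℕ) / M) else 0) * qk k := by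
  unfold xw ind
  have : (k ∈ {k | h k ≤ M}) ↔ max (h k) 1 ≤ M := by
    simp only [mem_ofPred_eq]
    omega
  by_cases hk : max (h k) 1 ≤ M
  · rw [if_pos (this.2 hk), if_pos hk, one_mul]
  · rw [if_neg (fun h => hk (this.1 h)), if_neg hk, zero_mul, zero_mul]

lemma xw_le {h : K → ℕ} {M : ℕ} (hM : 1 ≤ M) (k : K) : xw h M k ≤ qk k := by
  rw [xw_eq hM]
  refine mul_le_of_le_one_left (qk_nonneg k) ?_
  split_ifs with hk
  · rw [Real.sqrt_le_one, div_le_one (by exact_mod_cast hM)]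
    exact_mod_cast hk
  · norm_num

lemma adm_xw {h : K → ℕ} {M : ℕ} (hM : 1 ≤ M) : Adm (xw h M) :=
  adm_qk.of_le fun k => by
    rw [abs_of_nonneg (xw_nonneg _ _ _), abs_of_nonneg (qk_nonneg k)]
    exact xw_le hM k

lemma sum_XM_le {h : K → ℕ} {m : ℕ → ℕ} (hm1 : ∀ j, 1 ≤ m j) (hm4 : ∀ j, 4 * m j ≤ m (j + 1)) (J : ℕ)
    {y : K → C3} (hy : RapK y) : ∑ j ∈ Finset.range J, XM h (m j) y ≤ 2 * wn qk y := by
  simp only [XM_eq]
  rw [← wn_sum _ hy fun j _ => adm_xw (hm1 j), ← wn_const_mul]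
  have h1 : ∀ k, ∑ j ∈ Finset.range J, xw h (m j) k ≤ 2 * qk k := by
    intro k
    simp only [xw_eq (hm1 _), ← Finset.sum_mul]
    refine mul_le_mul_of_nonneg_right ?_ (qk_nonneg k)
    refine (sum_scales hm1 hm4 (max (h k) 1) (le_max_right _ _) J).trans ?_
    have : 0 ≤ min 1 (Real.sqrt (((max (h k) 1 : ℕ) : ℝ) / m J)) := le_min zero_le_one (Real.sqrt_nonneg _)
    linarith
  refine wn_mono hy ?_ (adm_qk.const_mul 2) h1
  refine (adm_qk.const_mul 2).of_le fun k => ?_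
  rw [abs_of_nonneg (Finset.sum_nonneg fun j _ => xw_nonneg _ _ _),
    abs_of_nonneg (mul_nonneg (by norm_num) (qk_nonneg k))]
  exact h1 k

/-- the constants of the two production estimates -/
structure Prod (C : ℝ) (h : K → ℕ) (A : ℝ) : Prop where
  c0 : 0 ≤ C
  a0 : 0 ≤ A
  l2 : ∀ M : ℕ, 1 ≤ M → ∀ y : K → C3, Fld y → |prdi (ind {k | 2 * M < h k}) y| ≤
    C * Real.sqrt (A * M * XM h M y) * Real.sqrt (wn (ind {k | 2 * M < h k}) y) *
      Real.sqrt (wn (fun k => ind {k | 2 * M < h k} k * qk k) y)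
    + C * Real.sqrt (wn (ind {k | M < h k ∧ h k ≤ 2 * M}) y) * Real.sqrt (wn qk y) *
      Real.sqrt (wn (fun k => qk k ^ 2) y)
  h1 : ∀ M : ℕ, 1 ≤ M → ∀ y : K → C3, Fld y → ∃ F : ℝ, 0 ≤ F ∧
    F ^ 4 ≤ C * wn (fun k => ind {k | M < h k} k * qk k) y ^ 3 * wn (fun k => qk k ^ 2) y ^ 3 ∧
    |prdi qk y| ≤ C * Real.sqrt (A * M * XM h M y) * Real.sqrt (wn qk y) *
      Real.sqrt (wn (fun k => qk k ^ 2) y) + F

lemma prod_exists (H3 : St_L2) (H4 : St_H1) : ∃ C : ℝ, ∀ (h : K → ℕ) (H A : ℝ), 0 ≤ A → Height h H A →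
    Prod C h A := by
  obtain ⟨C1, h1, H1⟩ := H3
  obtain ⟨C2, h2, H2⟩ := H4
  refine ⟨max C1 C2, fun h H A hA hh => ⟨h1.trans (le_max_left _ _), hA, ?_, ?_⟩⟩
  · intro M hM y hy
    refine (H1 h H A hA hh M hM y hy).trans ?_
    have : C1 ≤ max C1 C2 := le_max_left _ _
    gcongr
  · intro M hM y hy
    obtain ⟨F, hF0, hF4, hF⟩ := H2 h H A hA hh M hM y hy
    have : C2 ≤ max C1 C2 := le_max_right _ _
    have a1 : 0 ≤ wn (fun k => ind {k | M < h k} k * qk k) y :=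
      wn_nonneg fun k => mul_nonneg (ind_nonneg _ _) (qk_nonneg k)
    have a2 : 0 ≤ wn (fun k => qk k ^ 2) y := wn_nonneg fun k => pow_nonneg (qk_nonneg k) 2
    refine ⟨F, hF0, hF4.trans ?_, hF.trans ?_⟩
    · gcongr
    · gcongr

section step

variable {C A c : ℝ} {h : K → ℕ} {M : ℕ} {y : K → C3}

/-- growth of the energy above the gap -/
lemma Prod.up (hp : Prod C h A) (hc : 0 < c) (hM : 1 ≤ M) (hy : Fld y) {ε : ℝ}
    (hε : Real.sqrt (wn (ind {k | M < h k ∧ h k ≤ 2 * M}) y) ≤ ε) :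
    -(2 * c) * wn (fun k => ind {k | 2 * M < h k} k * qk k) y + 2 * prdi (ind {k | 2 * M < h k}) y
      ≤ 2 * C ^ 2 / c * (A * M * XM h M y) * wn (ind {k | 2 * M < h k}) y
        + C * ε * (wn qk y + wn (fun k => qk k ^ 2) y) := by
  have hC := hp.c0
  have h1 := (le_abs_self _).trans (hp.l2 M hM y hy)
  have hX : 0 ≤ XM h M y := wn_nonneg (xw_nonneg h M)
  have hD : 0 ≤ A * M * XM h M y := mul_nonneg (mul_nonneg hp.a0 (Nat.cast_nonneg M)) hX
  have hY : 0 ≤ wn (ind {k | 2 * M < h k}) y := wn_nonneg (ind_nonneg _)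
  have hW : 0 ≤ wn (fun k => ind {k | 2 * M < h k} k * qk k) y :=
    wn_nonneg fun k => mul_nonneg (ind_nonneg _ _) (qk_nonneg k)
  have hZ : 0 ≤ wn qk y := wn_nonneg qk_nonneg
  have hP : 0 ≤ wn (fun k => qk k ^ 2) y := wn_nonneg fun k => pow_nonneg (qk_nonneg k) 2
  set D := Real.sqrt (A * M * XM h M y)
  set a := Real.sqrt (wn (ind {k | 2 * M < h k}) y)
  set w := Real.sqrt (wn (fun k => ind {k | 2 * M < h k} k * qk k) y)
  set z := Real.sqrt (wn qk y)
  set p := Real.sqrt (wn (fun k => qk k ^ 2) y)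
  have eD : D ^ 2 = A * M * XM h M y := Real.sq_sqrt hD
  have ea : a ^ 2 = wn (ind {k | 2 * M < h k}) y := Real.sq_sqrt hY
  have ew : w ^ 2 = wn (fun k => ind {k | 2 * M < h k} k * qk k) y := Real.sq_sqrt hW
  have ez : z ^ 2 = wn qk y := Real.sq_sqrt hZ
  have ep : p ^ 2 = wn (fun k => qk k ^ 2) y := Real.sq_sqrt hP
  have z0 : 0 ≤ z := Real.sqrt_nonneg _
  have p0 : 0 ≤ p := Real.sqrt_nonneg _
  rw [← eD, ← ea, ← ew, ← ez, ← ep]
  have hε0 : 0 ≤ ε := (Real.sqrt_nonneg _).trans hε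
  have h2 : C * Real.sqrt (wn (ind {k | M < h k ∧ h k ≤ 2 * M}) y) * z * p ≤ C * ε * z * p := by
    gcongr
  have h3 : 2 * (C * ε * z * p) ≤ C * ε * (z ^ 2 + p ^ 2) := by
    have : 0 ≤ C * ε := mul_nonneg hC hε0
    nlinarith [sq_nonneg (z - p)]
  have h4 : 2 * (C * D * a * w) ≤ 2 * c * w ^ 2 + 2 * C ^ 2 / c * D ^ 2 * a ^ 2 := by
    have h5 : 0 ≤ (c * w - C * D * a) ^ 2 / c := by positivity
    have h6 : (c * w - C * D * a) ^ 2 / c = c * w ^ 2 + C ^ 2 / c * D ^ 2 * a ^ 2 - 2 * (C * D * a * w) := by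
      field_simp; ring
    have h7 : 0 ≤ C ^ 2 / c * D ^ 2 * a ^ 2 := by positivity
    have h8 : 2 * C ^ 2 / c * D ^ 2 * a ^ 2 = 2 * (C ^ 2 / c * D ^ 2 * a ^ 2) := by ring
    have h9 : 0 ≤ c * w ^ 2 := by positivity
    linarith
  linarith

/-- growth of the enstrophy -/
lemma Prod.ens (hp : Prod C h A) (hc : 0 < c) (hM : 1 ≤ M) (hy : Fld y) {ε2 : ℝ}
    (hε : wn (ind {k | M < h k ∧ h k ≤ 2 * M}) y ≤ ε2)
    (hsm : C * wn qk y * (ε2 + wn (ind {k | 2 * M < h k}) y) ≤ (c / 4) ^ 4) :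
    -(2 * c) * wn (fun k => qk k * qk k) y + 2 * prdi qk y
      ≤ -(c * wn (fun k => qk k ^ 2) y) + 2 * C ^ 2 / c * (A * M * XM h M y) * wn qk y := by
  have hC := hp.c0
  obtain ⟨F, hF0, hF4, hF⟩ := hp.h1 M hM y hy
  have h1 := (le_abs_self _).trans hF
  have hX : 0 ≤ XM h M y := wn_nonneg (xw_nonneg h M)
  have hD : 0 ≤ A * M * XM h M y := mul_nonneg (mul_nonneg hp.a0 (Nat.cast_nonneg M)) hX
  have hV : 0 ≤ wn (fun k => ind {k | M < h k} k * qk k) y :=
    wn_nonneg fun k => mul_nonneg (ind_nonneg _ _) (qk_nonneg k)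
  have hZ : 0 ≤ wn qk y := wn_nonneg qk_nonneg
  have hP : 0 ≤ wn (fun k => qk k ^ 2) y := wn_nonneg fun k => pow_nonneg (qk_nonneg k) 2
  have hE : 0 ≤ wn (ind {k | M < h k}) y := wn_nonneg (ind_nonneg _)
  have e0 : (fun k => qk k * qk k) = fun k => qk k ^ 2 := by funext k; ring
  rw [e0]
  -- the high part
  have hVZ : wn (fun k => ind {k | M < h k} k * qk k) y ≤ wn qk y :=
    wn_mono hy.rap ((adm_ind _).mul adm_qk) adm_qk fun k =>
      mul_le_of_le_one_left (qk_nonneg k) (ind_le_one _ _)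
  have hEv : wn (ind {k | M < h k}) y ≤ ε2 + wn (ind {k | 2 * M < h k}) y := by
    have e1 : ind {k | M < h k} = fun k => ind {k | M < h k ∧ h k ≤ 2 * M} k + ind {k | 2 * M < h k} k := by
      funext k
      by_cases h1 : M < h k
      · by_cases h2 : 2 * M < h k
        · rw [ind_of_mem (W := {k | M < h k}) h1, ind_of_mem (W := {k | 2 * M < h k}) h2,
            ind_of_notMem (W := {k | M < h k ∧ h k ≤ 2 * M}) (fun h3 => absurd h2 (not_lt.2 h3.2))]
          norm_num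
        · rw [ind_of_mem (W := {k | M < h k}) h1, ind_of_notMem (W := {k | 2 * M < h k}) h2,
            ind_of_mem (W := {k | M < h k ∧ h k ≤ 2 * M}) ⟨h1, not_lt.1 h2⟩]
          norm_num
      · rw [ind_of_notMem (W := {k | M < h k}) h1,
          ind_of_notMem (W := {k | M < h k ∧ h k ≤ 2 * M}) (fun h3 => h1 h3.1),
          ind_of_notMem (W := {k | 2 * M < h k}) (fun h3 => h1 (by
            have : 2 * M < h k := h3
            omega))]
        norm_num
    rw [e1, wn_add hy.rap (adm_ind _) (adm_ind _)]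
    linarith
  have hcs : wn (fun k => ind {k | M < h k} k * qk k) y ^ 2
      ≤ wn (ind {k | M < h k}) y * wn (fun k => qk k ^ 2) y := by
    have h3 := wn_cs (y := y) hy.rap (adm_ind {k | M < h k}) adm_qk (ind_nonneg _) qk_nonneg
    have e2 : (fun k => ind {k | M < h k} k ^ 2) = ind {k | M < h k} := by
      funext k
      unfold ind
      split_ifs <;> norm_num
    rw [e2] at h3
    calc _ ≤ (Real.sqrt (wn (ind {k | M < h k}) y) * Real.sqrt (wn (fun k => qk k ^ 2) y)) ^ 2 :=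
          pow_le_pow_left₀ hV h3 2
      _ = _ := by rw [mul_pow, Real.sq_sqrt hE, Real.sq_sqrt hP]
  set Vv := wn (fun k => ind {k | M < h k} k * qk k) y
  set P := wn (fun k => qk k ^ 2) y with hPdef
  set Z := wn qk y with hZdef
  set E := wn (ind {k | M < h k}) y
  have hF5 : F ≤ c / 4 * P := by
    have h4 : F ^ 4 ≤ (c / 4 * P) ^ 4 := by
      calc F ^ 4 ≤ C * Vv ^ 3 * P ^ 3 := hF4
        _ = C * (Vv * Vv ^ 2) * P ^ 3 := by ring
        _ ≤ C * (Z * (E * P)) * P ^ 3 := by gcongr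
        _ = (C * Z * E) * P ^ 4 := by ring
        _ ≤ (C * Z * (ε2 + wn (ind {k | 2 * M < h k}) y)) * P ^ 4 := by gcongr
        _ ≤ (c / 4) ^ 4 * P ^ 4 := by gcongr
        _ = _ := by ring
    exact le_of_pow_le_pow_left₀ (by norm_num) (by positivity) h4
  set D := Real.sqrt (A * M * XM h M y)
  have eD : D ^ 2 = A * M * XM h M y := Real.sq_sqrt hD
  set z := Real.sqrt Z
  set p := Real.sqrt P
  have ez : z ^ 2 = Z := Real.sq_sqrt hZ
  have ep : p ^ 2 = P := Real.sq_sqrt hP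
  have h6 : 2 * (C * D * z * p) ≤ c / 2 * P + 2 * C ^ 2 / c * D ^ 2 * Z := by
    rw [← ez, ← ep]
    have h7 : 0 ≤ (c / 2 * p - C * D * z) ^ 2 * (2 / c) := by positivity
    have h8 : (c / 2 * p - C * D * z) ^ 2 * (2 / c)
        = c / 2 * p ^ 2 + 2 * C ^ 2 / c * D ^ 2 * z ^ 2 - 2 * (C * D * z * p) := by
      field_simp; ring
    linarith
  rw [← eD]
  linarith

end step

end Pool.Agent.Y6
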