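import Pool.Agent.Y6.Gap

/-!
Octave gaps: the bound of the enstrophy (main argument).
-/

open MeasureTheory Set Filter Topology
open scoped ContDiff ENNReal

set_option autoImplicit false

namespace Pool.Agent.Y6

open Pool.Agent.H356R3.NS hiding K sq

lemma prim_deriv {f : ℝ → ℝ} {T t0 s : ℝ} (hf : ContinuousOn f (Ico 0 T)) (ht0 : t0 ∈ Ioo 0 T)
    (hs : s ∈ Ioo 0 T) : HasDerivAt (fun s => ∫ r in t0..s, f r) (f s) s := by
  have hf' : ContinuousOn f (Ioo 0 T) := hf.mono Ioo_subset_Ico_self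
  have hsub : uIcc t0 s ⊆ Ioo 0 T := by
    intro r hr
    rcases le_total t0 s with h | h
    · rw [uIcc_of_le h] at hr
      exact ⟨ht0.1.trans_le hr.1, hr.2.trans_lt hs.2⟩
    · rw [uIcc_of_ge h] at hr
      exact ⟨hs.1.trans_le hr.1, hr.2.trans_lt ht0.2⟩
  exact intervalIntegral.integral_hasDerivAt_right ((hf'.mono hsub).intervalIntegrable)
    (hf'.stronglyMeasurableAtFilter isOpen_Ioo s hs) (hf'.continuousAt (Ioo_mem_nhds hs.1 hs.2))

lemma scales {Ms : Set ℕ} (hMs : ∀ n : ℕ, ∃ M ∈ Ms, n ≤ M) (n0 : ℕ) :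
    ∃ m : ℕ → ℕ, (∀ j, m j ∈ Ms) ∧ (∀ j, n0 ≤ m j) ∧ (∀ j, 1 ≤ m j) ∧ (∀ j, 4 * m j ≤ m (j + 1)) := by
  choose g hg1 hg2 using hMs
  let m : ℕ → ℕ := fun j => Nat.rec (g (max n0 1)) (fun _ x => g (4 * x)) j
  have h0 : m 0 = g (max n0 1) := rfl
  have hs : ∀ j, m (j + 1) = g (4 * m j) := fun j => rfl
  have h4 : ∀ j, 4 * m j ≤ m (j + 1) := fun j => by rw [hs]; exact hg2 _
  have h5 : ∀ j, max n0 1 ≤ m j := by
    intro j
    induction j with
    | zero => rw [h0]; exact hg2 _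
    | succ j ih => have := h4 j; omega
  refine ⟨m, fun j => ?_, fun j => (le_max_left _ _).trans (h5 j), fun j => (le_max_right _ _).trans (h5 j), h4⟩
  cases j with
  | zero => rw [h0]; exact hg1 _
  | succ j => rw [hs]; exact hg1 _

section

variable {c T : ℝ} {S : Set K} {u : ℝ → K → C3}

/-- the energy does not increase -/
lemma TSol.energy (H1 : St_der) (H2 : St_tri) (hs : TSol c T S u) :
    (∀ t ∈ Ioo 0 T, HasDerivAt (fun t => wn (fun _ => 1) (u t)) (-(2 * c) * wn qk (u t)) t) ∧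
    ContinuousOn (fun t => wn (fun _ => 1) (u t)) (Ico 0 T) := by
  obtain ⟨h1, h2⟩ := hs.deriv H1 (adm_const 1)
  refine ⟨fun t ht => (h1 t ht).congr_deriv ?_, h2⟩
  rw [prdi_one H2 (hs.fld t ⟨ht.1.le, ht.2⟩)]
  simp

lemma TSol.energy_le (H1 : St_der) (H2 : St_tri) (hc : 0 ≤ c) (hs : TSol c T S u) {t : ℝ}
    (ht : t ∈ Ico 0 T) : wn (fun _ => 1) (u t) ≤ wn (fun _ => 1) (u 0) := by
  obtain ⟨h1, h2⟩ := hs.energy H1 H2
  refine anti_of_hasDerivAt (f := fun t => wn (fun _ => 1) (u t)) ht.1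
    (h2.mono fun s hs => ⟨hs.1, hs.2.trans_lt ht.2⟩) (fun s hs => h1 s ⟨hs.1, hs.2.trans ht.2⟩) ?_
  intro s _
  have : 0 ≤ wn qk (u s) := wn_nonneg qk_nonneg
  nlinarith [mul_nonneg hc this]

/-- the energy above a gap is exponentially small at a positive time -/
lemma high_le {h : K → ℕ} {H A : ℝ} (hh : Height h H A) (hH : 0 < H) {t0 : ℝ} {M : ℕ}
    (hM : 1 ≤ M) {y : K → C3} (hy : Fld y) {B : ℝ}
    (hB : wn (gev t0 (2 * M / H)) y ≤ B) :
    wn (ind {k | 2 * M < h k}) y ≤ Real.exp (-(4 * t0 / H * M)) * B := by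
  have hR : (0 : ℝ) ≤ 2 * M / H := by positivity
  have h1 : wn (ind {k | 2 * M < h k}) y
      ≤ wn (fun k => Real.exp (-(4 * t0 / H * M)) * gev t0 (2 * M / H) k) y := by
    refine wn_mono hy.rap (adm_ind _) ((adm_gev hR).const_mul _) fun k => ?_
    by_cases hk : 2 * M < h k
    · rw [ind_of_mem (W := {k | 2 * M < h k}) hk]
      have h2 : (2 * M : ℝ) ≤ H * nk k := by
        have h3 : ((2 * M : ℕ) : ℝ) ≤ h k := by exact_mod_cast hk.le
        push_cast at h3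
        exact h3.trans (hh.le k)
      have h3 : 2 * M / H ≤ nk k := by
        rw [div_le_iff₀ hH]; linarith
      have hk0 : k ≠ 0 := by
        rintro rfl
        rw [nk_zero] at h3
        have h5 : (1 : ℝ) ≤ M := by exact_mod_cast hM
        have h4 : (0 : ℝ) < 2 * M / H := by positivity
        linarith
      have hq : 1 ≤ qk k := by
        have := one_le_nk hk0
        rw [show qk k = nk k ^ 2 from (nk_sq k).symm]
        nlinarith
      unfold gev
      rw [min_eq_right h3, ← mul_assoc, ← Real.exp_add]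
      have e : -(4 * t0 / H * M) + 2 * t0 * (2 * M / H) = 0 := by field_simp; ring
      rw [e, Real.exp_zero, one_mul]
      exact hq
    · rw [ind_of_notMem (W := {k | 2 * M < h k}) hk]
      exact mul_nonneg (Real.exp_pos _).le (gev_nonneg _ _ _)
  rw [wn_const_mul] at h1
  exact h1.trans (mul_le_mul_of_nonneg_left hB (Real.exp_pos _).le)

/-- The argument at one scale. -/
theorem one_scale (H1 : St_der) (H2 : St_tri) {C A : ℝ} {h : K → ℕ} (hp : Prod C h A) (hc : 0 < c)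
    {M : ℕ} (hM : 1 ≤ M) (hu : TSol c T S u) {t0 t : ℝ} (ht0 : 0 < t0) (htt : t0 ≤ t) (htT : t < T)
    {Z1 E0 Y0 ε G : ℝ} (hE0 : wn (fun _ => 1) (u t0) ≤ E0) (hZ1 : wn qk (u t0) ≤ Z1)
    (hY0 : wn (ind {k | 2 * M < h k}) (u t0) ≤ Y0) (hε : 0 ≤ ε)
    (hgap : ∀ s ∈ Ico 0 T, wn (ind {k | M < h k ∧ h k ≤ 2 * M}) (u s) ≤ ε ^ 2)
    (hG : 2 * C ^ 2 / c * (A * M) * (∫ r in t0..t, XM h M (u r)) ≤ G)
    (hsmall : C * (Z1 * Real.exp G) * (ε ^ 2 + Real.exp G * (Y0 + C * ε * (E0 / (2 * c) + Z1 / c)))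
      < (c / 4) ^ 4) : wn qk (u t) ≤ Z1 * Real.exp G := by
  have hC := hp.c0
  have hA := hp.a0
  set κ : ℝ := 2 * C ^ 2 / c * (A * M) with hκ
  have hκ0 : 0 ≤ κ := by positivity
  set X : ℝ → ℝ := fun s => XM h M (u s) with hX
  have hX0 : ∀ s, 0 ≤ X s := fun s => wn_nonneg (xw_nonneg h M)
  set Γ : ℝ → ℝ := fun s => κ * ∫ r in t0..s, X r with hΓ
  set E : ℝ → ℝ := fun s => wn (fun _ => 1) (u s) with hE
  set Z : ℝ → ℝ := fun s => wn qk (u s) with hZ
  set P : ℝ → ℝ := fun s => wn (fun k => qk k ^ 2) (u s) with hP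
  set Y : ℝ → ℝ := fun s => wn (ind {k | 2 * M < h k}) (u s) with hY
  have hE' : ∀ s, 0 ≤ E s := fun s => wn_nonneg fun _ => zero_le_one
  have hZ' : ∀ s, 0 ≤ Z s := fun s => wn_nonneg qk_nonneg
  have hP' : ∀ s, 0 ≤ P s := fun s => wn_nonneg fun k => pow_nonneg (qk_nonneg k) 2
  have hY' : ∀ s, 0 ≤ Y s := fun s => wn_nonneg (ind_nonneg _)
  have hT : 0 < T := (ht0.trans_le htt).trans htT
  have ht0T : t0 ∈ Ioo 0 T := ⟨ht0, htt.trans_lt htT⟩
  have hXc : ContinuousOn X (Ico 0 T) := (hu.deriv H1 (adm_xw hM)).2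
  obtain ⟨dE, cE⟩ := hu.energy H1 H2
  obtain ⟨dZ, cZ⟩ := hu.deriv H1 adm_qk
  obtain ⟨dY, cY⟩ := hu.deriv H1 (adm_ind {k | 2 * M < h k})
  have sub : ∀ {s}, s ∈ Icc t0 t → s ∈ Ioo 0 T := fun hs => ⟨ht0.trans_le hs.1, hs.2.trans_lt htT⟩
  have sub' : Icc t0 t ⊆ Ico 0 T := fun s hs => ⟨ht0.le.trans hs.1, hs.2.trans_lt htT⟩
  have dΓ : ∀ s ∈ Icc t0 t, HasDerivAt Γ (κ * X s) s := fun s hs =>
    (prim_deriv hXc ht0T (sub hs)).const_mul κ
  have cΓ : ContinuousOn Γ (Icc t0 t) := fun s hs => (dΓ s hs).continuousAt.continuousWithinAt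
  have hΓ0 : Γ t0 = 0 := by simp [hΓ]
  have hmono : MonotoneOn Γ (Icc t0 t) := by
    refine monotoneOn_of_deriv_nonneg (convex_Icc t0 t) cΓ ?_ ?_
    · intro s hs
      rw [interior_Icc] at hs
      exact (dΓ s (Ioo_subset_Icc_self hs)).differentiableAt.differentiableWithinAt
    · intro s hs
      rw [interior_Icc] at hs
      rw [(dΓ s (Ioo_subset_Icc_self hs)).deriv]
      exact mul_nonneg hκ0 (hX0 s)
  have hΓnn : ∀ s ∈ Icc t0 t, 0 ≤ Γ s := fun s hs => by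
    rw [← hΓ0]; exact hmono ⟨le_rfl, htt⟩ hs hs.1
  have hΓle : ∀ s ∈ Icc t0 t, Γ s ≤ G := fun s hs => (hmono hs ⟨htt, le_rfl⟩ hs.2).trans hG
  -- the functions
  set F1 : ℝ → ℝ := fun s => Z s * Real.exp (-Γ s) with hF1
  set F2 : ℝ → ℝ := fun s => Y s * Real.exp (-Γ s) + C * ε * (E s / (2 * c) + F1 s / c) with hF2
  have cF1 : ContinuousOn F1 (Icc t0 t) := (cZ.mono sub').mul (cΓ.neg.rexp)
  have cF2 : ContinuousOn F2 (Icc t0 t) :=
    ((cY.mono sub').mul (cΓ.neg.rexp)).add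
      (continuousOn_const.mul (((cE.mono sub').div_const _).add (cF1.div_const _)))
  set f : ℝ → ℝ := fun s => C * Z s * (ε ^ 2 + Y s) with hf
  have cf : ContinuousOn f (Icc t0 t) :=
    (continuousOn_const.mul (cZ.mono sub')).mul (continuousOn_const.add (cY.mono sub'))
  -- consequences of the smallness
  have step : ∀ s ∈ Icc t0 t, (∀ r ∈ Ico t0 s, f r < (c / 4) ^ 4) →
      Z s ≤ Z1 * Real.exp G ∧ f s < (c / 4) ^ 4 := by
    intro s hs hlt
    have hI : Ioo t0 s ⊆ Icc t0 t := fun r hr => ⟨hr.1.le, hr.2.le.trans hs.2⟩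
    set Z' : ℝ → ℝ := fun r => -(2 * c) * wn (fun k => qk k * qk k) (u r) + 2 * prdi qk (u r) with hZ'd
    set Y' : ℝ → ℝ := fun r => -(2 * c) * wn (fun k => ind {k | 2 * M < h k} k * qk k) (u r)
      + 2 * prdi (ind {k | 2 * M < h k}) (u r) with hY'd
    have dF1 : ∀ r ∈ Ioo t0 s, HasDerivAt F1
        (Z' r * Real.exp (-Γ r) + Z r * (Real.exp (-Γ r) * (-(κ * X r)))) r := fun r hr =>
      (dZ r (sub (hI hr))).mul ((dΓ r (hI hr)).neg.exp)
    have leZ : ∀ r ∈ Ioo t0 s, Z' r ≤ -(c * P r) + κ * X r * Z r := by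
      intro r hr
      have hr' := sub (hI hr)
      have h1 := hp.ens hc hM (hu.fld r ⟨hr'.1.le, hr'.2⟩) (hgap r ⟨hr'.1.le, hr'.2⟩) (hlt r ⟨hr.1.le, hr.2⟩).le
      refine h1.trans (le_of_eq ?_)
      simp only [hκ, hX]
      ring
    have leY : ∀ r ∈ Ioo t0 s, Y' r ≤ κ * X r * Y r + C * ε * (Z r + P r) := by
      intro r hr
      have hr' := sub (hI hr)
      have h1 := hp.up hc hM (hu.fld r ⟨hr'.1.le, hr'.2⟩) (ε := ε) (by
        rw [← Real.sqrt_sq hε]
        exact Real.sqrt_le_sqrt (hgap r ⟨hr'.1.le, hr'.2⟩))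
      refine h1.trans (le_of_eq ?_)
      simp only [hκ, hX]
      ring
    have hexp : ∀ r ∈ Icc t0 t, Real.exp (-Γ r) ≤ 1 := fun r hr =>
      Real.exp_le_one_iff.2 (neg_nonpos.2 (hΓnn r hr))
    have nF1 : ∀ r ∈ Ioo t0 s, Z' r * Real.exp (-Γ r) + Z r * (Real.exp (-Γ r) * (-(κ * X r)))
        ≤ -(c * (P r * Real.exp (-Γ r))) := by
      intro r hr
      have h1 := leZ r hr
      have h2 := Real.exp_pos (-Γ r)
      have h3 : Z' r * Real.exp (-Γ r) ≤ (-(c * P r) + κ * X r * Z r) * Real.exp (-Γ r) :=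
        mul_le_mul_of_nonneg_right h1 h2.le
      linarith
    have hF1s : F1 s ≤ F1 t0 := by
      refine anti_of_hasDerivAt hs.1 (cF1.mono fun r hr => ⟨hr.1, hr.2.trans hs.2⟩) dF1 fun r hr => ?_
      refine (nF1 r hr).trans ?_
      have := mul_nonneg hc.le (mul_nonneg (hP' r) (Real.exp_pos (-Γ r)).le)
      linarith
    have hF10 : F1 t0 ≤ Z1 := by
      simp only [hF1, hΓ0, neg_zero, Real.exp_zero, mul_one]
      exact hZ1
    have dF2 : ∀ r ∈ Ioo t0 s, HasDerivAt F2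
        ((Y' r * Real.exp (-Γ r) + Y r * (Real.exp (-Γ r) * (-(κ * X r))))
          + C * ε * ((-(2 * c) * Z r) / (2 * c)
            + (Z' r * Real.exp (-Γ r) + Z r * (Real.exp (-Γ r) * (-(κ * X r)))) / c)) r := fun r hr =>
      ((dY r (sub (hI hr))).mul ((dΓ r (hI hr)).neg.exp)).add
        ((((dE r (sub (hI hr))).div_const _).add ((dF1 r hr).div_const _)).const_mul _)
    have hF2s : F2 s ≤ F2 t0 := by
      refine anti_of_hasDerivAt hs.1 (cF2.mono fun r hr => ⟨hr.1, hr.2.trans hs.2⟩) dF2 fun r hr => ?_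
      have h1 := leY r hr
      have h2 := Real.exp_pos (-Γ r)
      have h3 : Y' r * Real.exp (-Γ r) ≤ (κ * X r * Y r + C * ε * (Z r + P r)) * Real.exp (-Γ r) :=
        mul_le_mul_of_nonneg_right h1 h2.le
      have h4 : (-(2 * c) * Z r) / (2 * c) = -Z r := by field_simp
      have h5 : (Z' r * Real.exp (-Γ r) + Z r * (Real.exp (-Γ r) * (-(κ * X r)))) / c
          ≤ -(P r * Real.exp (-Γ r)) := by
        rw [div_le_iff₀ hc]
        have := nF1 r hr
        linarith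
      have h6 : C * ε * ((-(2 * c) * Z r) / (2 * c)
            + (Z' r * Real.exp (-Γ r) + Z r * (Real.exp (-Γ r) * (-(κ * X r)))) / c)
          ≤ C * ε * (-Z r + -(P r * Real.exp (-Γ r))) := by
        rw [h4]
        exact mul_le_mul_of_nonneg_left (by linarith) (mul_nonneg hC hε)
      have h7 : C * ε * (Z r * Real.exp (-Γ r)) ≤ C * ε * Z r :=
        mul_le_mul_of_nonneg_left (mul_le_of_le_one_right (hZ' r) (hexp r (hI hr))) (mul_nonneg hC hε)
      have h8 : (κ * X r * Y r + C * ε * (Z r + P r)) * Real.exp (-Γ r)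
          + Y r * (Real.exp (-Γ r) * (-(κ * X r))) + C * ε * (-Z r + -(P r * Real.exp (-Γ r)))
          = C * ε * (Z r * Real.exp (-Γ r)) - C * ε * Z r := by ring
      linarith
    have hF20 : F2 t0 ≤ Y0 + C * ε * (E0 / (2 * c) + Z1 / c) := by
      simp only [hF2, hΓ0, neg_zero, Real.exp_zero, mul_one]
      have h1 : E t0 / (2 * c) ≤ E0 / (2 * c) := by gcongr
      have h2 : F1 t0 / c ≤ Z1 / c := by gcongr
      have h3 : C * ε * (E t0 / (2 * c) + F1 t0 / c) ≤ C * ε * (E0 / (2 * c) + Z1 / c) := by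
        have : 0 ≤ C * ε := mul_nonneg hC hε
        gcongr
      have h4 : Y t0 ≤ Y0 := hY0
      linarith
    have hZs : Z s ≤ Z1 * Real.exp G := by
      have h1 : Z s = F1 s * Real.exp (Γ s) := by
        simp only [hF1]
        rw [mul_assoc, ← Real.exp_add]
        simp
      have h2 : 0 ≤ Z1 := (hZ' t0).trans hZ1
      rw [h1]
      exact mul_le_mul (hF1s.trans hF10) (Real.exp_le_exp.2 (hΓle s hs)) (Real.exp_pos _).le h2
    have hYs : Y s ≤ Real.exp G * (Y0 + C * ε * (E0 / (2 * c) + Z1 / c)) := by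
      have h1 : Y s * Real.exp (-Γ s) ≤ F2 s := by
        have h2 : 0 ≤ C * ε * (E s / (2 * c) + F1 s / c) := by
          refine mul_nonneg (mul_nonneg hC hε) (add_nonneg (div_nonneg (hE' s) (by positivity))
            (div_nonneg (mul_nonneg (hZ' s) (Real.exp_pos _).le) hc.le))
        simp only [hF2]
        linarith
      have h3 : Y s = Real.exp (Γ s) * (Y s * Real.exp (-Γ s)) := by
        rw [mul_left_comm, ← Real.exp_add]
        simp
      have h4 : 0 ≤ Y s * Real.exp (-Γ s) := mul_nonneg (hY' s) (Real.exp_pos _).le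
      rw [h3]
      exact mul_le_mul (Real.exp_le_exp.2 (hΓle s hs)) (h1.trans (hF2s.trans hF20)) h4
        (Real.exp_pos _).le
    refine ⟨hZs, lt_of_le_of_lt ?_ hsmall⟩
    have h1 : 0 ≤ ε ^ 2 + Y s := add_nonneg (sq_nonneg _) (hY' s)
    have h2 : 0 ≤ Z1 * Real.exp G := (hZ' s).trans hZs
    simp only [hf]
    gcongr
  have hall := boot cf (fun s hs hlt => (step s hs hlt).2)
  exact (step t ⟨htt, le_rfl⟩ fun r hr => hall r ⟨hr.1, hr.2.le⟩).1

/-- **Main theorem on the Fourier side**: a bound of the enstrophy for solutions which have almost no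
energy in infinitely many octaves. -/
theorem gap_bound (H1 : St_der) (H2 : St_tri) (H3 : St_L2) (H4 : St_H1) (H5 : St_gev) {c : ℝ} (hc : 0 < c)
    {h : K → ℕ} {H A : ℝ} (hA : 0 ≤ A) (hH : 0 < H) (hh : Height h H A) {E0 Z0 σ : ℝ} (hE0 : 0 ≤ E0)
    (hZ0 : 0 ≤ Z0) (hσ : 0 < σ) {Ms : Set ℕ} (hMs : ∀ n : ℕ, ∃ M ∈ Ms, n ≤ M) :
    ∃ B : ℝ, ∀ (T : ℝ) (S : Set K) (u : ℝ → K → C3), TSol c T S u → wn (fun _ => 1) (u 0) ≤ E0 →
      wn qk (u 0) ≤ Z0 →
      (∀ M ∈ Ms, ∀ t ∈ Ico 0 T, wn (ind {k | M < h k ∧ h k ≤ 2 * M}) (u t) ≤ Real.exp (-(σ * M)) ^ 2) →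
      ∀ t ∈ Ico 0 T, wn qk (u t) ≤ B := by
  obtain ⟨C, hC⟩ := prod_exists H3 H4
  have hp : Prod C h A := hC h H A hA hh
  have hC0 := hp.c0
  obtain ⟨t0, ht0, hgev⟩ := gev_short H1 H5 hc hZ0
  set Z1 : ℝ := Z0 + 1 with hZ1
  have hZ1p : 0 < Z1 := by linarith
  set θ : ℝ := min σ (4 * t0 / H) / 4 with hθ
  have hθp : 0 < θ := by
    have : 0 < min σ (4 * t0 / H) := lt_min hσ (by positivity)
    positivity
  have hθσ : 4 * θ ≤ σ := by
    have : min σ (4 * t0 / H) ≤ σ := min_le_left _ _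
    linarith
  have hθt : 4 * θ ≤ 4 * t0 / H := by
    have : min σ (4 * t0 / H) ≤ 4 * t0 / H := min_le_right _ _
    linarith
  set C1 : ℝ := E0 / (2 * c) + Z1 / c with hC1
  have hC1p : 0 ≤ C1 := by positivity
  set K' : ℝ := C * Z1 * (1 + Z1 + C * C1) with hK'
  have hK'0 : 0 ≤ K' := by positivity
  set δ : ℝ := (c / 4) ^ 4 with hδ
  have hδp : 0 < δ := by positivity
  obtain ⟨n0, hn0⟩ := exists_nat_gt (K' / δ / (2 * θ))
  obtain ⟨m, hmMs, hmn, hm1, hm4⟩ := scales hMs n0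
  obtain ⟨J0, hJ0⟩ := exists_nat_ge (2 * C ^ 2 / c * A * (E0 / c) / θ)
  set J : ℕ := J0 + 1 with hJ
  have hJp : (0 : ℝ) < J := by positivity
  have hJ1 : 2 * C ^ 2 / c * A * (E0 / c) ≤ θ * J := by
    have h1 : 2 * C ^ 2 / c * A * (E0 / c) ≤ J0 * θ := (div_le_iff₀ hθp).1 hJ0
    have h2 : (J : ℝ) = J0 + 1 := by rw [hJ]; push_cast; ring
    rw [h2]
    nlinarith
  have hmle : ∀ j, ∀ i ≤ j, m i ≤ m j := by
    have : Monotone m := monotone_nat_of_le_succ fun j => by have := hm4 j; omega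
    exact fun j i hij => this hij
  refine ⟨Z1 * Real.exp (θ * m J), fun T S u hu hE hZ hgap t ht => ?_⟩
  have hT : 0 < T := ht.1.trans_lt ht.2
  rcases le_or_gt t t0 with htt | htt
  · have h1 := hgev T S u hu hZ 0 le_rfl t ht htt
    rw [gev_zero_right] at h1
    refine h1.trans (le_mul_of_one_le_right hZ1p.le (Real.one_le_exp (by positivity)))
  -- the budget of enstrophy
  have ht0T : t0 ∈ Ioo 0 T := ⟨ht0, htt.trans ht.2⟩
  have hu0 := hu.fld t0 ⟨ht0.le, ht0T.2⟩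
  have hXc : ∀ j, ContinuousOn (fun s => XM h (m j) (u s)) (Ico 0 T) := fun j =>
    (hu.deriv H1 (adm_xw (hm1 j))).2
  obtain ⟨dE, cE⟩ := hu.energy H1 H2
  have sub : ∀ {s}, s ∈ Icc t0 t → s ∈ Ioo 0 T := fun hs => ⟨ht0.trans_le hs.1, hs.2.trans_lt ht.2⟩
  have hEt0 : wn (fun _ => 1) (u t0) ≤ E0 := (hu.energy_le H1 H2 hc.le ⟨ht0.le, ht0T.2⟩).trans hE
  have hbud : ∑ j ∈ Finset.range J, (∫ r in t0..t, XM h (m j) (u r)) ≤ E0 / c := by
    set F : ℝ → ℝ := fun s => ∑ j ∈ Finset.range J, (∫ r in t0..s, XM h (m j) (u r))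
      + wn (fun _ => 1) (u s) / c with hF
    have dF : ∀ s ∈ Icc t0 t, HasDerivAt F
        (∑ j ∈ Finset.range J, XM h (m j) (u s) + (-(2 * c) * wn qk (u s)) / c) s := fun s hs =>
      (HasDerivAt.fun_sum fun j _ => prim_deriv (hXc j) ht0T (sub hs)).add ((dE s (sub hs)).div_const c)
    have h1 : F t ≤ F t0 := by
      refine anti_of_hasDerivAt htt.le (fun s hs => (dF s hs).continuousAt.continuousWithinAt)
        (fun s hs => dF s (Ioo_subset_Icc_self hs)) fun s hs => ?_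
      have h2 := sum_XM_le (h := h) hm1 hm4 J (hu.fld s ⟨(sub (Ioo_subset_Icc_self hs)).1.le,
        (sub (Ioo_subset_Icc_self hs)).2⟩).rap
      have h3 : (-(2 * c) * wn qk (u s)) / c = -(2 * wn qk (u s)) := by field_simp
      rw [h3]
      linarith
    have h2 : F t0 = wn (fun _ => 1) (u t0) / c := by simp [hF]
    have h3 : 0 ≤ wn (fun _ => 1) (u t) / c := div_nonneg (wn_nonneg fun _ => zero_le_one) hc.le
    have h4 : wn (fun _ => 1) (u t0) / c ≤ E0 / c := by gcongr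
    rw [h2] at h1
    simp only [hF] at h1
    linarith
  obtain ⟨j, hjJ, hj⟩ := Finset.exists_le_of_sum_le (s := Finset.range J) ⟨0, by simp [hJ]⟩
    (f := fun j => ∫ r in t0..t, XM h (m j) (u r)) (g := fun _ => E0 / c / J) (by
      rw [Finset.sum_const, Finset.card_range, nsmul_eq_mul]
      refine hbud.trans (le_of_eq ?_)
      field_simp)
  have hjJ' : j ≤ J := (Finset.mem_range.1 hjJ).le
  set M : ℕ := m j with hM
  have hM1 : 1 ≤ M := hm1 j
  have hMp : (0 : ℝ) < M := by exact_mod_cast hM1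
  have hG : 2 * C ^ 2 / c * (A * M) * (∫ r in t0..t, XM h M (u r)) ≤ θ * M := by
    calc 2 * C ^ 2 / c * (A * M) * (∫ r in t0..t, XM h M (u r))
        ≤ 2 * C ^ 2 / c * (A * M) * (E0 / c / J) := by gcongr
      _ = (2 * C ^ 2 / c * A * (E0 / c)) / J * M := by ring
      _ ≤ θ * M := by
          gcongr
          rw [div_le_iff₀ hJp]
          exact hJ1
  have hY0 : wn (ind {k | 2 * M < h k}) (u t0) ≤ Real.exp (-(4 * t0 / H * M)) * Z1 :=
    high_le hh hH hM1 hu0 (hgev T S u hu hZ _ (by positivity) t0 ⟨ht0.le, ht0T.2⟩ le_rfl)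
  have hZt0 : wn qk (u t0) ≤ Z1 := by
    have h1 := hgev T S u hu hZ 0 le_rfl t0 ⟨ht0.le, ht0T.2⟩ le_rfl
    rwa [gev_zero_right] at h1
  have hfin := one_scale H1 H2 hp hc hM1 hu ht0 htt.le ht.2 (Z1 := Z1) (E0 := E0)
    (Y0 := Real.exp (-(4 * t0 / H * M)) * Z1) (ε := Real.exp (-(σ * M))) (G := θ * M) hEt0 hZt0 hY0
    (Real.exp_pos _).le (hgap M (hmMs j)) hG ?_
  · refine hfin.trans (mul_le_mul_of_nonneg_left (Real.exp_le_exp.2 ?_) hZ1p.le)
    have : (M : ℝ) ≤ m J := by exact_mod_cast hmle J j hjJ'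
    gcongr
  · -- smallness
    set x : ℝ := Real.exp (-(4 * θ * M)) with hx
    have hxp : 0 < x := Real.exp_pos _
    have hx1 : Real.exp (-(4 * t0 / H * M)) ≤ x := Real.exp_le_exp.2 (by
      have := mul_le_mul_of_nonneg_right hθt hMp.le
      linarith)
    have hx2 : Real.exp (-(σ * M)) ≤ x := Real.exp_le_exp.2 (by
      have := mul_le_mul_of_nonneg_right hθσ hMp.le
      linarith)
    have hxle : x ≤ 1 := Real.exp_le_one_iff.2 (by
      have : 0 < θ * M := mul_pos hθp hMp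
      linarith)
    have hx3 : Real.exp (-(σ * M)) ^ 2 ≤ x := by
      calc Real.exp (-(σ * M)) ^ 2 ≤ x ^ 2 := pow_le_pow_left₀ (Real.exp_pos _).le hx2 2
        _ ≤ x := by nlinarith
    set g : ℝ := Real.exp (θ * M) with hg
    have hgp : 0 < g := Real.exp_pos _
    have hg1 : 1 ≤ g := Real.one_le_exp (by positivity)
    have e1 : g * g * x = Real.exp (-(2 * θ * M)) := by
      rw [hg, hx, ← Real.exp_add, ← Real.exp_add]
      congr 1
      ring
    have e2 : C * (Z1 * g) * (Real.exp (-(σ * M)) ^ 2 + g * (Real.exp (-(4 * t0 / H * M)) * Z1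
        + C * Real.exp (-(σ * M)) * C1)) ≤ K' * (g * g * x) := by
      have h2 : Real.exp (-(σ * M)) ^ 2 + g * (Real.exp (-(4 * t0 / H * M)) * Z1
          + C * Real.exp (-(σ * M)) * C1) ≤ g * x + g * (x * Z1 + C * x * C1) := by
        have h3 : Real.exp (-(σ * M)) ^ 2 ≤ g * x := hx3.trans (le_mul_of_one_le_left hxp.le hg1)
        gcongr
      calc _ ≤ C * (Z1 * g) * (g * x + g * (x * Z1 + C * x * C1)) :=
            mul_le_mul_of_nonneg_left h2 (by positivity)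
        _ = K' * (g * g * x) := by rw [hK']; ring
    refine lt_of_le_of_lt e2 ?_
    rw [e1]
    have h5 : K' / δ < 2 * θ * M := by
      have h6 : (n0 : ℝ) ≤ M := by exact_mod_cast hmn j
      have h7 := (div_lt_iff₀ (by positivity : (0 : ℝ) < 2 * θ)).1 hn0
      nlinarith
    have h6 : K' < δ * (2 * θ * M) := by
      have := (div_lt_iff₀ hδp).1 h5
      linarith
    have h7 : 2 * θ * M < Real.exp (2 * θ * M) := by
      have := Real.add_one_le_exp (2 * θ * M)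
      linarith
    rw [Real.exp_neg, ← div_eq_mul_inv, div_lt_iff₀ (Real.exp_pos _)]
    calc K' < δ * (2 * θ * M) := h6
      _ ≤ δ * Real.exp (2 * θ * M) := by gcongr

end

end Pool.Agent.Y6
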