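import Pool.Agent.Y6.Gap2
import Pool.Agent.Y6.Stm5

/-!
Closed levels and almost empty octaves: the bound of the enstrophy (general form).
-/

open MeasureTheory Set Filter Topology
open scoped ContDiff ENNReal

set_option autoImplicit false

namespace Pool.Agent.Y6

open Pool.Agent.H356R3.NS hiding K sq

/-- the sum of the quotients over doubling scales -/
lemma sum_scales2 {m : ℕ → ℕ} (hm1 : ∀ j, 1 ≤ m j) (hm2 : ∀ j, 2 * m j ≤ m (j + 1)) (x : ℕ)
    (J : ℕ) : ∑ j ∈ Finset.range J, (if x ≤ m j then Real.sqrt ((x : ℝ) / m j) else 0)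
      ≤ 4 - 4 * min 1 (Real.sqrt ((x : ℝ) / m J)) := by
  have hmp : ∀ j, (0 : ℝ) < m j := fun j => by exact_mod_cast hm1 j
  induction J with
  | zero =>
    rw [Finset.sum_range_zero]
    have := min_le_left 1 (Real.sqrt ((x : ℝ) / m 0))
    linarith
  | succ J ih =>
    rw [Finset.sum_range_succ]
    split_ifs with h
    · have h1 : Real.sqrt ((x : ℝ) / m J) ≤ 1 := by
        rw [Real.sqrt_le_one, div_le_one (hmp J)]
        exact_mod_cast h
      have h0 := Real.sqrt_nonneg ((x : ℝ) / m J)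
      have h2 : Real.sqrt ((x : ℝ) / m (J + 1)) ≤ 3 / 4 * Real.sqrt ((x : ℝ) / m J) := by
        apply Real.sqrt_le_iff.2
        refine ⟨by positivity, ?_⟩
        rw [mul_pow, Real.sq_sqrt (by have := hmp J; positivity)]
        have h3 : (2 * m J : ℝ) ≤ m (J + 1) := by exact_mod_cast hm2 J
        have h4 : (0 : ℝ) < 2 * m J := by have := hmp J; positivity
        have h5 : (x : ℝ) / m (J + 1) ≤ (x : ℝ) / (2 * m J) := by gcongr
        refine h5.trans ?_
        have h6 : (x : ℝ) / (2 * m J) = 1 / 2 * ((x : ℝ) / m J) := by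
          have := (hmp J).ne'
          field_simp
        rw [h6]
        have h7 : 0 ≤ (x : ℝ) / m J := by have := hmp J; positivity
        nlinarith
      rw [min_eq_right h1] at ih
      have := min_le_right 1 (Real.sqrt ((x : ℝ) / m (J + 1)))
      linarith
    · have h1 : 1 ≤ Real.sqrt ((x : ℝ) / m J) := by
        rw [Real.one_le_sqrt, one_le_div (hmp J)]
        have : m J ≤ x := by omega
        exact_mod_cast this
      rw [min_eq_left h1] at ih
      have := min_le_left 1 (Real.sqrt ((x : ℝ) / m (J + 1)))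
      linarith

lemma sum_XM_le2 {h : K → ℕ} {m : ℕ → ℕ} (hm1 : ∀ j, 1 ≤ m j) (hm2 : ∀ j, 2 * m j ≤ m (j + 1)) (J : ℕ)
    {y : K → C3} (hy : RapK y) : ∑ j ∈ Finset.range J, XM h (m j) y ≤ 4 * wn qk y := by
  simp only [XM_eq]
  rw [← wn_sum _ hy fun j _ => adm_xw (hm1 j), ← wn_const_mul]
  have h1 : ∀ k, ∑ j ∈ Finset.range J, xw h (m j) k ≤ 4 * qk k := by
    intro k
    simp only [xw_eq (hm1 _), ← Finset.sum_mul]
    refine mul_le_mul_of_nonneg_right ?_ (qk_nonneg k)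
    refine (sum_scales2 hm1 hm2 (max (h k) 1) J).trans ?_
    have : 0 ≤ min 1 (Real.sqrt (((max (h k) 1 : ℕ) : ℝ) / m J)) := le_min zero_le_one (Real.sqrt_nonneg _)
    linarith
  refine wn_mono hy ?_ (adm_qk.const_mul 4) h1
  refine (adm_qk.const_mul 4).of_le fun k => ?_
  rw [abs_of_nonneg (Finset.sum_nonneg fun j _ => xw_nonneg _ _ _),
    abs_of_nonneg (mul_nonneg (by norm_num) (qk_nonneg k))]
  exact h1 k

/-- the estimate of the production of the energy above the level `M`, with leak `ε` -/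
def UpB (C A : ℝ) (h : K → ℕ) (M : ℕ) (ε : ℝ) (y : K → C3) : Prop :=
  |prdi (ind {k | M < h k}) y| ≤
    C * Real.sqrt (A * M * XM h M y) * Real.sqrt (wn (ind {k | M < h k}) y) *
      Real.sqrt (wn (fun k => ind {k | M < h k} k * qk k) y)
    + C * ε * Real.sqrt (wn qk y) * Real.sqrt (wn (fun k => qk k ^ 2) y)

/-- the estimate of the production of the enstrophy -/
structure EnsB (C : ℝ) (h : K → ℕ) (A : ℝ) : Prop where
  c0 : 0 ≤ C
  a0 : 0 ≤ A
  h1 : ∀ M : ℕ, 1 ≤ M → ∀ y : K → C3, Fld y → ∃ F : ℝ, 0 ≤ F ∧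
    F ^ 4 ≤ C * wn (fun k => ind {k | M < h k} k * qk k) y ^ 3 * wn (fun k => qk k ^ 2) y ^ 3 ∧
    |prdi qk y| ≤ C * Real.sqrt (A * M * XM h M y) * Real.sqrt (wn qk y) *
      Real.sqrt (wn (fun k => qk k ^ 2) y) + F

lemma UpB.mono {C C' A : ℝ} {h : K → ℕ} {M : ℕ} {ε ε' : ℝ} {y : K → C3} (hb : UpB C A h M ε y)
    (hC0 : 0 ≤ C) (hC : C ≤ C') (hε0 : 0 ≤ ε) (hε : ε ≤ ε') : UpB C' A h M ε' y := by
  unfold UpB at hb ⊢
  refine hb.trans ?_
  have : 0 ≤ C' := hC0.trans hC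
  gcongr

/-- all the constants -/
lemma consts (H3 : St_L2g) (H3' : St_L2c) (H4 : St_H1) : ∃ C : ℝ, ∀ (h : K → ℕ) (H A : ℝ), 0 ≤ A →
    Height h H A → EnsB C h A ∧ (∀ M : ℕ, 1 ≤ M → ∀ y : K → C3, Fld y → ∀ ε : ℝ,
      Real.sqrt (wn (ind {k | M < h k ∧ h k ≤ 2 * M}) y) ≤ ε → UpB C A h M ε y) ∧
    (∀ M : ℕ, 1 ≤ M → ∀ y : K → C3, Fld y →
      (∀ k l, h k ≤ M → h l ≤ M → M < h (k + l) → y k = 0 ∨ y l = 0 ∨ y (k + l) = 0) →
      UpB C A h M 0 y) := by
  obtain ⟨C1, h1, H1⟩ := H3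
  obtain ⟨C2, h2, H2⟩ := H3'
  obtain ⟨C3, h3, H3⟩ := H4
  set C := max C1 (max C2 C3) with hC
  have l1 : C1 ≤ C := le_max_left _ _
  have l2 : C2 ≤ C := (le_max_left _ _).trans (le_max_right _ _)
  have l3 : C3 ≤ C := (le_max_right _ _).trans (le_max_right _ _)
  refine ⟨C, fun h H A hA hh => ⟨⟨h1.trans l1, hA, ?_⟩, ?_, ?_⟩⟩
  · intro M hM y hy
    obtain ⟨F, hF0, hF4, hF⟩ := H3 h H A hA hh M hM y hy
    have a1 : 0 ≤ wn (fun k => ind {k | M < h k} k * qk k) y :=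
      wn_nonneg fun k => mul_nonneg (ind_nonneg _ _) (qk_nonneg k)
    have a2 : 0 ≤ wn (fun k => qk k ^ 2) y := wn_nonneg fun k => pow_nonneg (qk_nonneg k) 2
    refine ⟨F, hF0, hF4.trans ?_, hF.trans ?_⟩
    · gcongr
    · gcongr
  · intro M hM y hy ε hε
    have hb : UpB C1 A h M (Real.sqrt (wn (ind {k | M < h k ∧ h k ≤ 2 * M}) y)) y :=
      H1 h H A hA hh M hM y hy
    exact hb.mono h1 l1 (Real.sqrt_nonneg _) hε
  · intro M hM y hy hcl
    have hb : UpB C2 A h M 0 y := by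
      have := H2 h H A hA hh M hM y hy hcl
      unfold UpB
      simpa using this
    exact hb.mono h2 l2 le_rfl le_rfl

section step

variable {C A c : ℝ} {h : K → ℕ} {M : ℕ} {y : K → C3}

/-- growth of the energy above the level -/
lemma UpB.up {ε : ℝ} (hb : UpB C A h M ε y) (hC : 0 ≤ C) (hA : 0 ≤ A) (hc : 0 < c) (hε0 : 0 ≤ ε) :
    -(2 * c) * wn (fun k => ind {k | M < h k} k * qk k) y + 2 * prdi (ind {k | M < h k}) y
      ≤ 2 * C ^ 2 / c * (A * M * XM h M y) * wn (ind {k | M < h k}) y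
        + C * ε * (wn qk y + wn (fun k => qk k ^ 2) y) := by
  have h1 := (le_abs_self _).trans hb
  have hX : 0 ≤ XM h M y := wn_nonneg (xw_nonneg h M)
  have hD : 0 ≤ A * M * XM h M y := mul_nonneg (mul_nonneg hA (Nat.cast_nonneg M)) hX
  have hY : 0 ≤ wn (ind {k | M < h k}) y := wn_nonneg (ind_nonneg _)
  have hW : 0 ≤ wn (fun k => ind {k | M < h k} k * qk k) y :=
    wn_nonneg fun k => mul_nonneg (ind_nonneg _ _) (qk_nonneg k)
  have hZ : 0 ≤ wn qk y := wn_nonneg qk_nonneg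
  have hP : 0 ≤ wn (fun k => qk k ^ 2) y := wn_nonneg fun k => pow_nonneg (qk_nonneg k) 2
  set D := Real.sqrt (A * M * XM h M y)
  set a := Real.sqrt (wn (ind {k | M < h k}) y)
  set w := Real.sqrt (wn (fun k => ind {k | M < h k} k * qk k) y)
  set z := Real.sqrt (wn qk y)
  set p := Real.sqrt (wn (fun k => qk k ^ 2) y)
  have eD : D ^ 2 = A * M * XM h M y := Real.sq_sqrt hD
  have ea : a ^ 2 = wn (ind {k | M < h k}) y := Real.sq_sqrt hY
  have ew : w ^ 2 = wn (fun k => ind {k | M < h k} k * qk k) y := Real.sq_sqrt hW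
  have ez : z ^ 2 = wn qk y := Real.sq_sqrt hZ
  have ep : p ^ 2 = wn (fun k => qk k ^ 2) y := Real.sq_sqrt hP
  rw [← eD, ← ea, ← ew, ← ez, ← ep]
  have h3 : 2 * (C * ε * z * p) ≤ C * ε * (z ^ 2 + p ^ 2) := by
    have : 0 ≤ C * ε := mul_nonneg hC hε0
    nlinarith [sq_nonneg (z - p)]
  have h4 : 2 * (C * D * a * w) ≤ 2 * c * w ^ 2 + 2 * C ^ 2 / c * D ^ 2 * a ^ 2 := by
    have h5 : 0 ≤ (c * w - C * D * a) ^ 2 / c := by positivity
    have h6 : (c * w - C * D * a) ^ 2 / c = c * w ^ 2 + C ^ 2 / c * D ^ 2 * a ^ 2 - 2 * (C * D * a * w) := by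
      field_simp; ring
    have h7 : 0 ≤ C ^ 2 / c * D ^ 2 * a ^ 2 := by positivity
    have h8 : 2 * C ^ 2 / c * D ^ 2 * a ^ 2 = 2 * (C ^ 2 / c * D ^ 2 * a ^ 2) := by ring
    have h9 : 0 ≤ c * w ^ 2 := by positivity
    linarith
  linarith

/-- growth of the enstrophy -/
lemma EnsB.ens (hp : EnsB C h A) (hc : 0 < c) (hM : 1 ≤ M) (hy : Fld y)
    (hsm : C * wn qk y * wn (ind {k | M < h k}) y ≤ (c / 4) ^ 4) :
    -(2 * c) * wn (fun k => qk k * qk k) y + 2 * prdi qk y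
      ≤ -(c * wn (fun k => qk k ^ 2) y) + 2 * C ^ 2 / c * (A * M * XM h M y) * wn qk y := by
  have hC := hp.c0
  obtain ⟨F, hF0, hF4, hF⟩ := hp.h1 M hM y hy
  have h1 := (le_abs_self _).trans hF
  have hX : 0 ≤ XM h M y := wn_nonneg (xw_nonneg h M)
  have hD : 0 ≤ A * M * XM h M y := mul_nonneg (mul_nonneg hp.a0 (Nat.cast_nonneg M)) hX
  have hV : 0 ≤ wn (fun k => ind {k | M < h k} k * qk k) y :=
    wn_nonneg fun k => mul_nonneg (ind_nonneg _ _) (qk_nonneg k)
  have hZ : 0 ≤ wn qk y := wn_nonneg qk_nonneg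
  have hP : 0 ≤ wn (fun k => qk k ^ 2) y := wn_nonneg fun k => pow_nonneg (qk_nonneg k) 2
  have hE : 0 ≤ wn (ind {k | M < h k}) y := wn_nonneg (ind_nonneg _)
  have e0 : (fun k => qk k * qk k) = fun k => qk k ^ 2 := by funext k; ring
  rw [e0]
  -- the high part
  have hVZ : wn (fun k => ind {k | M < h k} k * qk k) y ≤ wn qk y :=
    wn_mono hy.rap ((adm_ind _).mul adm_qk) adm_qk fun k =>
      mul_le_of_le_one_left (qk_nonneg k) (ind_le_one _ _)
  have hcs : wn (fun k => ind {k | M < h k} k * qk k) y ^ 2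
      ≤ wn (ind {k | M < h k}) y * wn (fun k => qk k ^ 2) y := by
    have h3 := wn_cs (y := y) hy.rap (adm_ind {k | M < h k}) adm_qk (ind_nonneg _) qk_nonneg
    have e2 : (fun k => ind {k | M < h k} k ^ 2) = ind {k | M < h k} := by
      funext k
      unfold ind
      split_ifs <;> norm_num
    rw [e2] at h3
    calc _ ≤ (Real.sqrt (wn (ind {k | M < h k}) y) * Real.sqrt (wn (fun k => qk k ^ 2) y)) ^ 2 :=
          pow_le_pow_left₀ hV h3 2
      _ = _ := by rw [mul_pow, Real.sq_sqrt hE, Real.sq_sqrt hP]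
  set Vv := wn (fun k => ind {k | M < h k} k * qk k) y
  set P := wn (fun k => qk k ^ 2) y with hPdef
  set Z := wn qk y with hZdef
  set E := wn (ind {k | M < h k}) y
  have hF5 : F ≤ c / 4 * P := by
    have h4 : F ^ 4 ≤ (c / 4 * P) ^ 4 := by
      calc F ^ 4 ≤ C * Vv ^ 3 * P ^ 3 := hF4
        _ = C * (Vv * Vv ^ 2) * P ^ 3 := by ring
        _ ≤ C * (Z * (E * P)) * P ^ 3 := by gcongr
        _ = (C * Z * E) * P ^ 4 := by ring
        _ ≤ (c / 4) ^ 4 * P ^ 4 := by gcongr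
        _ = _ := by ring
    exact le_of_pow_le_pow_left₀ (by norm_num) (by positivity) h4
  set D := Real.sqrt (A * M * XM h M y)
  have eD : D ^ 2 = A * M * XM h M y := Real.sq_sqrt hD
  set z := Real.sqrt Z
  set p := Real.sqrt P
  have ez : z ^ 2 = Z := Real.sq_sqrt hZ
  have ep : p ^ 2 = P := Real.sq_sqrt hP
  have h6 : 2 * (C * D * z * p) ≤ c / 2 * P + 2 * C ^ 2 / c * D ^ 2 * Z := by
    rw [← ez, ← ep]
    have h7 : 0 ≤ (c / 2 * p - C * D * z) ^ 2 * (2 / c) := by positivity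
    have h8 : (c / 2 * p - C * D * z) ^ 2 * (2 / c)
        = c / 2 * p ^ 2 + 2 * C ^ 2 / c * D ^ 2 * z ^ 2 - 2 * (C * D * z * p) := by
      field_simp; ring
    linarith
  rw [← eD]
  linarith

end step

section

variable {c T : ℝ} {S : Set K} {u : ℝ → K → C3}

/-- the energy above a level is exponentially small at a positive time -/
lemma high_le2 {h : K → ℕ} {H A : ℝ} (hh : Height h H A) (hH : 0 < H) {t0 : ℝ} {M : ℕ}
    (hM : 1 ≤ M) {y : K → C3} (hy : Fld y) {B : ℝ}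
    (hB : wn (gev t0 (M / H)) y ≤ B) :
    wn (ind {k | M < h k}) y ≤ Real.exp (-(2 * t0 / H * M)) * B := by
  have hR : (0 : ℝ) ≤ M / H := by positivity
  have h1 : wn (ind {k | M < h k}) y
      ≤ wn (fun k => Real.exp (-(2 * t0 / H * M)) * gev t0 (M / H) k) y := by
    refine wn_mono hy.rap (adm_ind _) ((adm_gev hR).const_mul _) fun k => ?_
    by_cases hk : M < h k
    · rw [ind_of_mem (W := {k | M < h k}) hk]
      have h2 : (M : ℝ) ≤ H * nk k := by
        have h3 : ((M : ℕ) : ℝ) ≤ h k := by exact_mod_cast hk.le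
        exact h3.trans (hh.le k)
      have h3 : M / H ≤ nk k := by
        rw [div_le_iff₀ hH]; linarith
      have hk0 : k ≠ 0 := by
        rintro rfl
        rw [nk_zero] at h3
        have h5 : (1 : ℝ) ≤ M := by exact_mod_cast hM
        have h4 : (0 : ℝ) < M / H := by positivity
        linarith
      have hq : 1 ≤ qk k := by
        have := one_le_nk hk0
        rw [show qk k = nk k ^ 2 from (nk_sq k).symm]
        nlinarith
      unfold gev
      rw [min_eq_right h3, ← mul_assoc, ← Real.exp_add]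
      have e : -(2 * t0 / H * M) + 2 * t0 * (M / H) = 0 := by field_simp; ring
      rw [e, Real.exp_zero, one_mul]
      exact hq
    · rw [ind_of_notMem (W := {k | M < h k}) hk]
      exact mul_nonneg (Real.exp_pos _).le (gev_nonneg _ _ _)
  rw [wn_const_mul] at h1
  exact h1.trans (mul_le_mul_of_nonneg_left hB (Real.exp_pos _).le)

/-- The argument at one scale. -/
theorem one_scale2 (H1 : St_der) (H2 : St_tri) {C A : ℝ} {h : K → ℕ} (hp : EnsB C h A) (hc : 0 < c)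
    {M : ℕ} (hM : 1 ≤ M) (hu : TSol c T S u) {t0 t : ℝ} (ht0 : 0 < t0) (htt : t0 ≤ t) (htT : t < T)
    {Z1 E0 Y0 ε G : ℝ} (hE0 : wn (fun _ => 1) (u t0) ≤ E0) (hZ1 : wn qk (u t0) ≤ Z1)
    (hY0 : wn (ind {k | M < h k}) (u t0) ≤ Y0) (hε : 0 ≤ ε)
    (hgap : ∀ s ∈ Ico 0 T, UpB C A h M ε (u s))
    (hG : 2 * C ^ 2 / c * (A * M) * (∫ r in t0..t, XM h M (u r)) ≤ G)
    (hsmall : C * (Z1 * Real.exp G) * (Real.exp G * (Y0 + C * ε * (E0 / (2 * c) + Z1 / c)))
      < (c / 4) ^ 4) : wn qk (u t) ≤ Z1 * Real.exp G := by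
  have hC := hp.c0
  have hA := hp.a0
  set κ : ℝ := 2 * C ^ 2 / c * (A * M) with hκ
  have hκ0 : 0 ≤ κ := by positivity
  set X : ℝ → ℝ := fun s => XM h M (u s) with hX
  have hX0 : ∀ s, 0 ≤ X s := fun s => wn_nonneg (xw_nonneg h M)
  set Γ : ℝ → ℝ := fun s => κ * ∫ r in t0..s, X r with hΓ
  set E : ℝ → ℝ := fun s => wn (fun _ => 1) (u s) with hE
  set Z : ℝ → ℝ := fun s => wn qk (u s) with hZ
  set P : ℝ → ℝ := fun s => wn (fun k => qk k ^ 2) (u s) with hP
  set Y : ℝ → ℝ := fun s => wn (ind {k | M < h k}) (u s) with hY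
  have hE' : ∀ s, 0 ≤ E s := fun s => wn_nonneg fun _ => zero_le_one
  have hZ' : ∀ s, 0 ≤ Z s := fun s => wn_nonneg qk_nonneg
  have hP' : ∀ s, 0 ≤ P s := fun s => wn_nonneg fun k => pow_nonneg (qk_nonneg k) 2
  have hY' : ∀ s, 0 ≤ Y s := fun s => wn_nonneg (ind_nonneg _)
  have hT : 0 < T := (ht0.trans_le htt).trans htT
  have ht0T : t0 ∈ Ioo 0 T := ⟨ht0, htt.trans_lt htT⟩
  have hXc : ContinuousOn X (Ico 0 T) := (hu.deriv H1 (adm_xw hM)).2
  obtain ⟨dE, cE⟩ := hu.energy H1 H2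
  obtain ⟨dZ, cZ⟩ := hu.deriv H1 adm_qk
  obtain ⟨dY, cY⟩ := hu.deriv H1 (adm_ind {k | M < h k})
  have sub : ∀ {s}, s ∈ Icc t0 t → s ∈ Ioo 0 T := fun hs => ⟨ht0.trans_le hs.1, hs.2.trans_lt htT⟩
  have sub' : Icc t0 t ⊆ Ico 0 T := fun s hs => ⟨ht0.le.trans hs.1, hs.2.trans_lt htT⟩
  have dΓ : ∀ s ∈ Icc t0 t, HasDerivAt Γ (κ * X s) s := fun s hs =>
    (prim_deriv hXc ht0T (sub hs)).const_mul κ
  have cΓ : ContinuousOn Γ (Icc t0 t) := fun s hs => (dΓ s hs).continuousAt.continuousWithinAt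
  have hΓ0 : Γ t0 = 0 := by simp [hΓ]
  have hmono : MonotoneOn Γ (Icc t0 t) := by
    refine monotoneOn_of_deriv_nonneg (convex_Icc t0 t) cΓ ?_ ?_
    · intro s hs
      rw [interior_Icc] at hs
      exact (dΓ s (Ioo_subset_Icc_self hs)).differentiableAt.differentiableWithinAt
    · intro s hs
      rw [interior_Icc] at hs
      rw [(dΓ s (Ioo_subset_Icc_self hs)).deriv]
      exact mul_nonneg hκ0 (hX0 s)
  have hΓnn : ∀ s ∈ Icc t0 t, 0 ≤ Γ s := fun s hs => by
    rw [← hΓ0]; exact hmono ⟨le_rfl, htt⟩ hs hs.1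
  have hΓle : ∀ s ∈ Icc t0 t, Γ s ≤ G := fun s hs => (hmono hs ⟨htt, le_rfl⟩ hs.2).trans hG
  -- the functions
  set F1 : ℝ → ℝ := fun s => Z s * Real.exp (-Γ s) with hF1
  set F2 : ℝ → ℝ := fun s => Y s * Real.exp (-Γ s) + C * ε * (E s / (2 * c) + F1 s / c) with hF2
  have cF1 : ContinuousOn F1 (Icc t0 t) := (cZ.mono sub').mul (cΓ.neg.rexp)
  have cF2 : ContinuousOn F2 (Icc t0 t) :=
    ((cY.mono sub').mul (cΓ.neg.rexp)).add
      (continuousOn_const.mul (((cE.mono sub').div_const _).add (cF1.div_const _)))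
  set f : ℝ → ℝ := fun s => C * Z s * Y s with hf
  have cf : ContinuousOn f (Icc t0 t) :=
    (continuousOn_const.mul (cZ.mono sub')).mul (cY.mono sub')
  -- consequences of the smallness
  have step : ∀ s ∈ Icc t0 t, (∀ r ∈ Ico t0 s, f r < (c / 4) ^ 4) →
      Z s ≤ Z1 * Real.exp G ∧ f s < (c / 4) ^ 4 := by
    intro s hs hlt
    have hI : Ioo t0 s ⊆ Icc t0 t := fun r hr => ⟨hr.1.le, hr.2.le.trans hs.2⟩
    set Z' : ℝ → ℝ := fun r => -(2 * c) * wn (fun k => qk k * qk k) (u r) + 2 * prdi qk (u r) with hZ'd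
    set Y' : ℝ → ℝ := fun r => -(2 * c) * wn (fun k => ind {k | M < h k} k * qk k) (u r)
      + 2 * prdi (ind {k | M < h k}) (u r) with hY'd
    have dF1 : ∀ r ∈ Ioo t0 s, HasDerivAt F1
        (Z' r * Real.exp (-Γ r) + Z r * (Real.exp (-Γ r) * (-(κ * X r)))) r := fun r hr =>
      (dZ r (sub (hI hr))).mul ((dΓ r (hI hr)).neg.exp)
    have leZ : ∀ r ∈ Ioo t0 s, Z' r ≤ -(c * P r) + κ * X r * Z r := by
      intro r hr
      have hr' := sub (hI hr)
      have h1 := hp.ens hc hM (hu.fld r ⟨hr'.1.le, hr'.2⟩) (hlt r ⟨hr.1.le, hr.2⟩).le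
      refine h1.trans (le_of_eq ?_)
      simp only [hκ, hX]
      ring
    have leY : ∀ r ∈ Ioo t0 s, Y' r ≤ κ * X r * Y r + C * ε * (Z r + P r) := by
      intro r hr
      have hr' := sub (hI hr)
      have h1 := (hgap r ⟨hr'.1.le, hr'.2⟩).up hC hA hc hε
      refine h1.trans (le_of_eq ?_)
      simp only [hκ, hX]
      ring
    have hexp : ∀ r ∈ Icc t0 t, Real.exp (-Γ r) ≤ 1 := fun r hr =>
      Real.exp_le_one_iff.2 (neg_nonpos.2 (hΓnn r hr))
    have nF1 : ∀ r ∈ Ioo t0 s, Z' r * Real.exp (-Γ r) + Z r * (Real.exp (-Γ r) * (-(κ * X r)))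
        ≤ -(c * (P r * Real.exp (-Γ r))) := by
      intro r hr
      have h1 := leZ r hr
      have h2 := Real.exp_pos (-Γ r)
      have h3 : Z' r * Real.exp (-Γ r) ≤ (-(c * P r) + κ * X r * Z r) * Real.exp (-Γ r) :=
        mul_le_mul_of_nonneg_right h1 h2.le
      linarith
    have hF1s : F1 s ≤ F1 t0 := by
      refine anti_of_hasDerivAt hs.1 (cF1.mono fun r hr => ⟨hr.1, hr.2.trans hs.2⟩) dF1 fun r hr => ?_
      refine (nF1 r hr).trans ?_
      have := mul_nonneg hc.le (mul_nonneg (hP' r) (Real.exp_pos (-Γ r)).le)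
      linarith
    have hF10 : F1 t0 ≤ Z1 := by
      simp only [hF1, hΓ0, neg_zero, Real.exp_zero, mul_one]
      exact hZ1
    have dF2 : ∀ r ∈ Ioo t0 s, HasDerivAt F2
        ((Y' r * Real.exp (-Γ r) + Y r * (Real.exp (-Γ r) * (-(κ * X r))))
          + C * ε * ((-(2 * c) * Z r) / (2 * c)
            + (Z' r * Real.exp (-Γ r) + Z r * (Real.exp (-Γ r) * (-(κ * X r)))) / c)) r := fun r hr =>
      ((dY r (sub (hI hr))).mul ((dΓ r (hI hr)).neg.exp)).add
        ((((dE r (sub (hI hr))).div_const _).add ((dF1 r hr).div_const _)).const_mul _)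
    have hF2s : F2 s ≤ F2 t0 := by
      refine anti_of_hasDerivAt hs.1 (cF2.mono fun r hr => ⟨hr.1, hr.2.trans hs.2⟩) dF2 fun r hr => ?_
      have h1 := leY r hr
      have h2 := Real.exp_pos (-Γ r)
      have h3 : Y' r * Real.exp (-Γ r) ≤ (κ * X r * Y r + C * ε * (Z r + P r)) * Real.exp (-Γ r) :=
        mul_le_mul_of_nonneg_right h1 h2.le
      have h4 : (-(2 * c) * Z r) / (2 * c) = -Z r := by field_simp
      have h5 : (Z' r * Real.exp (-Γ r) + Z r * (Real.exp (-Γ r) * (-(κ * X r)))) / c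
          ≤ -(P r * Real.exp (-Γ r)) := by
        rw [div_le_iff₀ hc]
        have := nF1 r hr
        linarith
      have h6 : C * ε * ((-(2 * c) * Z r) / (2 * c)
            + (Z' r * Real.exp (-Γ r) + Z r * (Real.exp (-Γ r) * (-(κ * X r)))) / c)
          ≤ C * ε * (-Z r + -(P r * Real.exp (-Γ r))) := by
        rw [h4]
        exact mul_le_mul_of_nonneg_left (by linarith) (mul_nonneg hC hε)
      have h7 : C * ε * (Z r * Real.exp (-Γ r)) ≤ C * ε * Z r :=
        mul_le_mul_of_nonneg_left (mul_le_of_le_one_right (hZ' r) (hexp r (hI hr))) (mul_nonneg hC hε)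
      have h8 : (κ * X r * Y r + C * ε * (Z r + P r)) * Real.exp (-Γ r)
          + Y r * (Real.exp (-Γ r) * (-(κ * X r))) + C * ε * (-Z r + -(P r * Real.exp (-Γ r)))
          = C * ε * (Z r * Real.exp (-Γ r)) - C * ε * Z r := by ring
      linarith
    have hF20 : F2 t0 ≤ Y0 + C * ε * (E0 / (2 * c) + Z1 / c) := by
      simp only [hF2, hΓ0, neg_zero, Real.exp_zero, mul_one]
      have h1 : E t0 / (2 * c) ≤ E0 / (2 * c) := by gcongr
      have h2 : F1 t0 / c ≤ Z1 / c := by gcongr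
      have h3 : C * ε * (E t0 / (2 * c) + F1 t0 / c) ≤ C * ε * (E0 / (2 * c) + Z1 / c) := by
        have : 0 ≤ C * ε := mul_nonneg hC hε
        gcongr
      have h4 : Y t0 ≤ Y0 := hY0
      linarith
    have hZs : Z s ≤ Z1 * Real.exp G := by
      have h1 : Z s = F1 s * Real.exp (Γ s) := by
        simp only [hF1]
        rw [mul_assoc, ← Real.exp_add]
        simp
      have h2 : 0 ≤ Z1 := (hZ' t0).trans hZ1
      rw [h1]
      exact mul_le_mul (hF1s.trans hF10) (Real.exp_le_exp.2 (hΓle s hs)) (Real.exp_pos _).le h2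
    have hYs : Y s ≤ Real.exp G * (Y0 + C * ε * (E0 / (2 * c) + Z1 / c)) := by
      have h1 : Y s * Real.exp (-Γ s) ≤ F2 s := by
        have h2 : 0 ≤ C * ε * (E s / (2 * c) + F1 s / c) := by
          refine mul_nonneg (mul_nonneg hC hε) (add_nonneg (div_nonneg (hE' s) (by positivity))
            (div_nonneg (mul_nonneg (hZ' s) (Real.exp_pos _).le) hc.le))
        simp only [hF2]
        linarith
      have h3 : Y s = Real.exp (Γ s) * (Y s * Real.exp (-Γ s)) := by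
        rw [mul_left_comm, ← Real.exp_add]
        simp
      have h4 : 0 ≤ Y s * Real.exp (-Γ s) := mul_nonneg (hY' s) (Real.exp_pos _).le
      rw [h3]
      exact mul_le_mul (Real.exp_le_exp.2 (hΓle s hs)) (h1.trans (hF2s.trans hF20)) h4
        (Real.exp_pos _).le
    refine ⟨hZs, lt_of_le_of_lt ?_ hsmall⟩
    have h2 : 0 ≤ Z1 * Real.exp G := (hZ' s).trans hZs
    simp only [hf]
    have h3 := hY' s
    gcongr
  have hall := boot cf (fun s hs hlt => (step s hs hlt).2)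
  exact (step t ⟨htt, le_rfl⟩ fun r hr => hall r ⟨hr.1, hr.2.le⟩).1

lemma two_pow_le {m : ℕ → ℕ} (hm1 : ∀ j, 1 ≤ m j) (hm2 : ∀ j, 2 * m j ≤ m (j + 1)) (j : ℕ) :
    2 ^ j ≤ m j := by
  induction j with
  | zero => simpa using hm1 0
  | succ j ih => have := hm2 j; rw [pow_succ]; omega

lemma sum_inv_le {m : ℕ → ℕ} (hm1 : ∀ j, 1 ≤ m j) (hm2 : ∀ j, 2 * m j ≤ m (j + 1)) (N : ℕ) :
    ∑ j ∈ Finset.range N, 1 / (m j : ℝ) ≤ 2 := by
  have h1 : ∀ j ∈ Finset.range N, 1 / (m j : ℝ) ≤ (1 / 2 : ℝ) ^ j := by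
    intro j _
    have h2 : ((2 : ℝ)) ^ j ≤ m j := by exact_mod_cast two_pow_le hm1 hm2 j
    rw [one_div_pow]
    exact one_div_le_one_div_of_le (by positivity) h2
  exact (Finset.sum_le_sum h1).trans (sum_geometric_two_le N)

/-- **Main theorem on the Fourier side**: a bound of the enstrophy for solutions with small production of
the energy above the levels `m j`. -/
theorem level_bound (H1 : St_der) (H2 : St_tri) (H5 : St_gev) {c : ℝ} (hc : 0 < c) {C A H : ℝ}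
    {h : K → ℕ} (hp : EnsB C h A) (hH : 0 < H) (hh : Height h H A) {E0 Z0 K0 : ℝ} (hE0 : 0 ≤ E0)
    (hZ0 : 0 ≤ Z0) (hK0 : 0 ≤ K0) {m : ℕ → ℕ} (hm1 : ∀ j, 1 ≤ m j) (hm2 : ∀ j, 2 * m j ≤ m (j + 1))
    {σ : ℕ → ℝ} (hσ0 : ∀ j, 0 ≤ σ j) (hσ1 : ∀ j, σ j ≤ 1) (hσ : ¬ Summable σ) :
    ∃ B : ℝ, ∀ (T : ℝ) (S : Set K) (u : ℝ → K → C3), TSol c T S u → wn (fun _ => 1) (u 0) ≤ E0 →
      wn qk (u 0) ≤ Z0 →
      (∀ j, ∀ t ∈ Ico 0 T, UpB C A h (m j) (K0 * Real.exp (-(σ j * m j))) (u t)) →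
      ∀ t ∈ Ico 0 T, wn qk (u t) ≤ B := by
  have hC0 := hp.c0
  have hA := hp.a0
  obtain ⟨t0, ht0, hgev⟩ := gev_short H1 H5 hc hZ0
  set Z1 : ℝ := Z0 + 1 with hZ1
  have hZ1p : 0 < Z1 := by linarith
  set s : ℝ := min 1 (2 * t0 / H) with hs
  have hsp : 0 < s := lt_min one_pos (by positivity)
  have hs1 : s ≤ 1 := min_le_left _ _
  have hst : s ≤ 2 * t0 / H := min_le_right _ _
  set θ : ℕ → ℝ := fun j => s / 4 * σ j with hθ
  have hθ0 : ∀ j, 0 ≤ θ j := fun j => mul_nonneg (by positivity) (hσ0 j)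
  have hθσ : ∀ j, 4 * θ j ≤ σ j := fun j => by
    have h1 : 4 * θ j = s * σ j := by simp only [hθ]; ring
    rw [h1]
    exact mul_le_of_le_one_left (hσ0 j) hs1
  have hθt : ∀ j, 4 * θ j ≤ 2 * t0 / H := fun j => by
    have h1 : 4 * θ j = s * σ j := by simp only [hθ]; ring
    rw [h1]
    exact (mul_le_of_le_one_right hsp.le (hσ1 j)).trans hst
  have hθ1 : ∀ j, θ j ≤ 1 := fun j => by
    have := hθσ j
    have := hσ1 j
    have := hθ0 j
    linarith
  set C1 : ℝ := E0 / (2 * c) + Z1 / c with hC1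
  have hC1p : 0 ≤ C1 := by positivity
  set K' : ℝ := C * Z1 * (Z1 + C * K0 * C1) with hK'
  have hK'0 : 0 ≤ K' := by positivity
  set δ : ℝ := (c / 4) ^ 4 with hδ
  have hδp : 0 < δ := by positivity
  set κ : ℝ := 2 * C ^ 2 / c with hκ
  have hκ0 : 0 ≤ κ := by positivity
  have hθns : ¬ Summable θ := by
    intro h1
    refine hσ ?_
    have h2 := h1.mul_left (4 / s)
    refine h2.congr fun j => ?_
    simp only [hθ]
    field_simp
  have hdiv := (not_summable_iff_tendsto_nat_atTop_of_nonneg hθ0).1 hθns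
  obtain ⟨N, hN⟩ := (hdiv.eventually_ge_atTop (κ * A * (2 * E0 / c) + K' / δ + 1)).exists
  have hmle : ∀ j, ∀ i ≤ j, m i ≤ m j := by
    have : Monotone m := monotone_nat_of_le_succ fun j => by have := hm2 j; omega
    exact fun j i hij => this hij
  refine ⟨Z1 * Real.exp (m N), fun T S u hu hE hZ hgap t ht => ?_⟩
  have hT : 0 < T := ht.1.trans_lt ht.2
  rcases le_or_gt t t0 with htt | htt
  · have h1 := hgev T S u hu hZ 0 le_rfl t ht htt
    rw [gev_zero_right] at h1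
    refine h1.trans (le_mul_of_one_le_right hZ1p.le (Real.one_le_exp (by positivity)))
  -- the budget of enstrophy
  have ht0T : t0 ∈ Ioo 0 T := ⟨ht0, htt.trans ht.2⟩
  have hu0 := hu.fld t0 ⟨ht0.le, ht0T.2⟩
  have hXc : ∀ j, ContinuousOn (fun s => XM h (m j) (u s)) (Ico 0 T) := fun j =>
    (hu.deriv H1 (adm_xw (hm1 j))).2
  obtain ⟨dE, cE⟩ := hu.energy H1 H2
  have sub : ∀ {s}, s ∈ Icc t0 t → s ∈ Ioo 0 T := fun hs => ⟨ht0.trans_le hs.1, hs.2.trans_lt ht.2⟩
  have hEt0 : wn (fun _ => 1) (u t0) ≤ E0 := (hu.energy_le H1 H2 hc.le ⟨ht0.le, ht0T.2⟩).trans hE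
  have hbud : ∑ j ∈ Finset.range N, (∫ r in t0..t, XM h (m j) (u r)) ≤ 2 * E0 / c := by
    set F : ℝ → ℝ := fun s => ∑ j ∈ Finset.range N, (∫ r in t0..s, XM h (m j) (u r))
      + 2 * wn (fun _ => 1) (u s) / c with hF
    have dF : ∀ s ∈ Icc t0 t, HasDerivAt F
        (∑ j ∈ Finset.range N, XM h (m j) (u s) + (2 * (-(2 * c) * wn qk (u s))) / c) s := fun s hs =>
      (HasDerivAt.fun_sum fun j _ => prim_deriv (hXc j) ht0T (sub hs)).add
        (((dE s (sub hs)).const_mul 2).div_const c)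
    have h1 : F t ≤ F t0 := by
      refine anti_of_hasDerivAt htt.le (fun s hs => (dF s hs).continuousAt.continuousWithinAt)
        (fun s hs => dF s (Ioo_subset_Icc_self hs)) fun s hs => ?_
      have h2 := sum_XM_le2 (h := h) hm1 hm2 N (hu.fld s ⟨(sub (Ioo_subset_Icc_self hs)).1.le,
        (sub (Ioo_subset_Icc_self hs)).2⟩).rap
      have h3 : (2 * (-(2 * c) * wn qk (u s))) / c = -(4 * wn qk (u s)) := by field_simp; ring
      rw [h3]
      linarith
    have h2 : F t0 = 2 * wn (fun _ => 1) (u t0) / c := by simp [hF]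
    have h3 : 0 ≤ 2 * wn (fun _ => 1) (u t) / c :=
      div_nonneg (mul_nonneg (by norm_num) (wn_nonneg fun _ => zero_le_one)) hc.le
    have h4 : 2 * wn (fun _ => 1) (u t0) / c ≤ 2 * E0 / c := by gcongr
    rw [h2] at h1
    simp only [hF] at h1
    linarith
  have hX0 : ∀ j, 0 ≤ ∫ r in t0..t, XM h (m j) (u r) := fun j =>
    intervalIntegral.integral_nonneg htt.le fun r _ => wn_nonneg (xw_nonneg _ _)
  classical
  set F : Finset ℕ := (Finset.range N).filter fun j => K' / δ < 2 * θ j * m j with hF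
  have hmp : ∀ j, (0 : ℝ) < m j := fun j => by exact_mod_cast hm1 j
  have hbad : ∑ j ∈ (Finset.range N).filter (fun j => ¬ K' / δ < 2 * θ j * m j), θ j ≤ K' / δ := by
    have h1 : ∀ j ∈ (Finset.range N).filter (fun j => ¬ K' / δ < 2 * θ j * m j),
        θ j ≤ K' / δ / 2 * (1 / m j) := by
      intro j hj
      have h2 := not_lt.1 (Finset.mem_filter.1 hj).2
      have h3 := hmp j
      rw [mul_one_div, le_div_iff₀ h3]
      linarith
    refine (Finset.sum_le_sum h1).trans ?_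
    rw [← Finset.mul_sum]
    have h4 : ∑ j ∈ (Finset.range N).filter (fun j => ¬ K' / δ < 2 * θ j * m j), 1 / (m j : ℝ) ≤ 2 := by
      refine le_trans ?_ (sum_inv_le hm1 hm2 N)
      exact Finset.sum_le_sum_of_subset_of_nonneg (Finset.filter_subset _ _) fun j _ _ => by
        have := hmp j
        positivity
    have h5 : 0 ≤ K' / δ / 2 := by positivity
    calc K' / δ / 2 * _ ≤ K' / δ / 2 * 2 := mul_le_mul_of_nonneg_left h4 h5
      _ = K' / δ := by ring
  have hgood : κ * A * (2 * E0 / c) < ∑ j ∈ F, θ j := by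
    have h1 := Finset.sum_filter_add_sum_filter_not (Finset.range N) (fun j => K' / δ < 2 * θ j * m j) θ
    rw [← hF] at h1
    linarith
  have hpig : ∑ j ∈ F, κ * A * (∫ r in t0..t, XM h (m j) (u r)) < ∑ j ∈ F, θ j := by
    refine lt_of_le_of_lt ?_ hgood
    rw [← Finset.mul_sum]
    refine mul_le_mul_of_nonneg_left (le_trans ?_ hbud) (by positivity)
    exact Finset.sum_le_sum_of_subset_of_nonneg (Finset.filter_subset _ _) fun j _ _ => hX0 j
  obtain ⟨j, hjF, hj⟩ := Finset.exists_lt_of_sum_lt hpig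
  have hjN : j ≤ N := (Finset.mem_range.1 (Finset.mem_filter.1 hjF).1).le
  have hjK : K' / δ < 2 * θ j * m j := (Finset.mem_filter.1 hjF).2
  set M : ℕ := m j with hM
  have hM1 : 1 ≤ M := hm1 j
  have hMp : (0 : ℝ) < M := hmp j
  have hG : 2 * C ^ 2 / c * (A * M) * (∫ r in t0..t, XM h M (u r)) ≤ θ j * M := by
    calc 2 * C ^ 2 / c * (A * M) * (∫ r in t0..t, XM h M (u r))
        = κ * A * (∫ r in t0..t, XM h M (u r)) * M := by rw [hκ]; ring
      _ ≤ θ j * M := by gcongr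
  have hY0 : wn (ind {k | M < h k}) (u t0) ≤ Real.exp (-(2 * t0 / H * M)) * Z1 :=
    high_le2 hh hH hM1 hu0 (hgev T S u hu hZ _ (by positivity) t0 ⟨ht0.le, ht0T.2⟩ le_rfl)
  have hZt0 : wn qk (u t0) ≤ Z1 := by
    have h1 := hgev T S u hu hZ 0 le_rfl t0 ⟨ht0.le, ht0T.2⟩ le_rfl
    rwa [gev_zero_right] at h1
  have hfin := one_scale2 H1 H2 hp hc hM1 hu ht0 htt.le ht.2 (Z1 := Z1) (E0 := E0)
    (Y0 := Real.exp (-(2 * t0 / H * M)) * Z1) (ε := K0 * Real.exp (-(σ j * M))) (G := θ j * M) hEt0 hZt0 hY0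
    (mul_nonneg hK0 (Real.exp_pos _).le) (hgap j) hG ?_
  · refine hfin.trans (mul_le_mul_of_nonneg_left (Real.exp_le_exp.2 ?_) hZ1p.le)
    have h1 : (M : ℝ) ≤ m N := by exact_mod_cast hmle N j hjN
    calc θ j * M ≤ 1 * M := by gcongr; exact hθ1 j
      _ ≤ m N := by linarith
  · -- smallness
    set x : ℝ := Real.exp (-(4 * θ j * M)) with hx
    have hxp : 0 < x := Real.exp_pos _
    have hx1 : Real.exp (-(2 * t0 / H * M)) ≤ x := Real.exp_le_exp.2 (by
      have := mul_le_mul_of_nonneg_right (hθt j) hMp.le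
      linarith)
    have hx2 : Real.exp (-(σ j * M)) ≤ x := Real.exp_le_exp.2 (by
      have := mul_le_mul_of_nonneg_right (hθσ j) hMp.le
      linarith)
    set g : ℝ := Real.exp (θ j * M) with hg
    have hgp : 0 < g := Real.exp_pos _
    have e1 : g * g * x = Real.exp (-(2 * θ j * M)) := by
      rw [hg, hx, ← Real.exp_add, ← Real.exp_add]
      congr 1
      ring
    have e2 : C * (Z1 * g) * (g * (Real.exp (-(2 * t0 / H * M)) * Z1
        + C * (K0 * Real.exp (-(σ j * M))) * C1)) ≤ K' * (g * g * x) := by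
      calc _ ≤ C * (Z1 * g) * (g * (x * Z1 + C * (K0 * x) * C1)) := by gcongr
        _ = K' * (g * g * x) := by rw [hK']; ring
    refine lt_of_le_of_lt e2 ?_
    rw [e1]
    have h6 : K' < δ * (2 * θ j * M) := by
      have := (div_lt_iff₀ hδp).1 hjK
      linarith
    have h7 : 2 * θ j * M < Real.exp (2 * θ j * M) := by
      have := Real.add_one_le_exp (2 * θ j * M)
      linarith
    rw [Real.exp_neg, ← div_eq_mul_inv, div_lt_iff₀ (Real.exp_pos _)]
    calc K' < δ * (2 * θ j * M) := h6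
      _ ≤ δ * Real.exp (2 * θ j * M) := by gcongr

end

end Pool.Agent.Y6
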