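import Pool.Agent.Y6.Wn

/-!
Bootstrap, evolution of the energy, short time bounds of the Gevrey norms.
-/

open MeasureTheory Set Filter Topology
open scoped ContDiff ENNReal

set_option autoImplicit false

namespace Pool.Agent.Y6

open Pool.Agent.H356R3.NS hiding K sq

lemma anti_of_hasDerivAt {f f' : ℝ → ℝ} {a b : ℝ} (hab : a ≤ b) (hc : ContinuousOn f (Icc a b))
    (h : ∀ t ∈ Ioo a b, HasDerivAt f (f' t) t) (hn : ∀ t ∈ Ioo a b, f' t ≤ 0) : f b ≤ f a := by
  have h1 : AntitoneOn f (Icc a b) := by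
    refine antitoneOn_of_deriv_nonpos (convex_Icc a b) hc ?_ ?_
    · intro s hs
      rw [interior_Icc] at hs
      exact (h s hs).differentiableAt.differentiableWithinAt
    · intro s hs
      rw [interior_Icc] at hs
      rw [(h s hs).deriv]
      exact hn s hs
  exact h1 ⟨le_rfl, hab⟩ ⟨hab, le_rfl⟩ hab

/-- bootstrap -/
lemma boot {f : ℝ → ℝ} {a b δ : ℝ} (hc : ContinuousOn f (Icc a b))
    (h : ∀ t ∈ Icc a b, (∀ s ∈ Ico a t, f s < δ) → f t < δ) : ∀ t ∈ Icc a b, f t < δ := by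
  by_contra hcon
  push Not at hcon
  obtain ⟨t, ht, hft⟩ := hcon
  set B : Set ℝ := Icc a b ∩ f ⁻¹' Ici δ with hB
  have hBc : IsClosed B := hc.preimage_isClosed_of_isClosed isClosed_Icc isClosed_Ici
  have hBne : B.Nonempty := ⟨t, ht, hft⟩
  have hBb : BddBelow B := ⟨a, fun s hs => hs.1.1⟩
  have hm := hBc.csInf_mem hBne hBb
  refine absurd (h (sInf B) hm.1 fun s hs => ?_) (not_lt.2 hm.2)
  by_contra h1
  push Not at h1
  have : sInf B ≤ s := csInf_le hBb ⟨⟨hs.1, hs.2.le.trans hm.1.2⟩, h1⟩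
  exact absurd hs.2 (not_lt.2 this)

section

variable {c T : ℝ} {S : Set K} {u : ℝ → K → C3} {ρ : K → ℝ}

lemma TSol.deriv (H : St_der) (h : TSol c T S u) (hρ : Adm ρ) :
    (∀ t ∈ Ioo 0 T, HasDerivAt (fun t => wn ρ (u t))
      (-(2 * c) * wn (fun k => ρ k * qk k) (u t) + 2 * prdi ρ (u t)) t) ∧
    ContinuousOn (fun t => wn ρ (u t)) (Ico 0 T) := by
  obtain ⟨C, m, hC0, hC⟩ := hρ.pos
  have h1 := H c T S u h (fun _ => ρ) (fun _ _ => 0) C m (fun _ _ => hC)
    (fun _ _ k => by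
      have := pw_pos k
      simp only [abs_zero]; positivity) (fun t _ k => hasDerivAt_const t _) (fun k => continuousOn_const)
  refine ⟨fun t ht => ?_, h1.2⟩
  refine (h1.1 t ht).congr_deriv ?_
  rw [wn_zero_weight]
  ring

lemma prdi_one (H : St_tri) {y : K → C3} (hy : Fld y) : prdi (fun _ => 1) y = 0 := by
  have h1 := (H y (fun _ => 1) 1 0 hy (fun k => by simp)).2
  simp only [sub_self, abs_zero, zero_mul, ENNReal.ofReal_zero, tsum_zero, mul_zero, nonpos_iff_eq_zero,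
    ENNReal.ofReal_eq_zero] at h1
  exact abs_nonpos_iff.1 h1

lemma gev_nonneg (σ R : ℝ) (k : K) : 0 ≤ gev σ R k :=
  mul_nonneg (Real.exp_pos _).le (qk_nonneg k)

lemma gev_zero_left (R : ℝ) : gev 0 R = qk := by
  funext k; simp [gev]

lemma gev_zero_right (σ : ℝ) : gev σ 0 = qk := by
  funext k
  unfold gev
  rw [min_eq_right (nk_nonneg k)]
  simp

lemma gev_le {σ s R : ℝ} (h0 : 0 ≤ R) (h : σ ≤ s) (hs : 0 ≤ s) (k : K) :
    gev σ R k ≤ Real.exp (2 * s * R) * qk k := by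
  unfold gev
  refine mul_le_mul_of_nonneg_right (Real.exp_le_exp.2 ?_) (qk_nonneg k)
  have h1 : 0 ≤ min (nk k) R := le_min (nk_nonneg k) h0
  have h2 : min (nk k) R ≤ R := min_le_right _ _
  calc 2 * σ * min (nk k) R ≤ 2 * s * min (nk k) R := by gcongr
    _ ≤ 2 * s * R := by gcongr

lemma adm_gev {σ R : ℝ} (h0 : 0 ≤ R) : Adm (gev σ R) := by
  refine (adm_qk.const_mul (Real.exp (2 * |σ| * R))).of_le fun k => ?_
  rw [abs_of_nonneg (gev_nonneg _ _ _), abs_of_nonneg (mul_nonneg (Real.exp_pos _).le (qk_nonneg k))]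
  exact gev_le h0 (le_abs_self σ) (abs_nonneg σ) k

/-- Short time bound of the Gevrey norms. -/
theorem gev_short (H1 : St_der) (H2 : St_gev) {c Z0 : ℝ} (hc : 0 < c) (hZ0 : 0 ≤ Z0) :
    ∃ t0 : ℝ, 0 < t0 ∧ ∀ (T : ℝ) (S : Set K) (u : ℝ → K → C3), TSol c T S u → wn qk (u 0) ≤ Z0 →
      ∀ R : ℝ, 0 ≤ R → ∀ t ∈ Ico 0 T, t ≤ t0 → wn (gev t R) (u t) ≤ Z0 + 1 := by
  set g0 : ℝ := Real.sqrt (Z0 + 1) with hg0
  have hg0p : 0 < g0 := Real.sqrt_pos.2 (by linarith)
  obtain ⟨C, hC0, hC⟩ := H2 (c / (4 * g0)) (by positivity)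
  set L : ℝ := 2 / c * (Z0 + 1) + 2 * C ^ 2 / c * (Z0 + 1) ^ 2 with hL
  have hLp : 0 < L := by
    have : 0 < 2 / c * (Z0 + 1) := by positivity
    have : 0 ≤ 2 * C ^ 2 / c * (Z0 + 1) ^ 2 := by positivity
    linarith
  refine ⟨1 / (2 * L), by positivity, fun T S u h hZ R hR t ht htt => ?_⟩
  set G : ℝ → ℝ := fun t => wn (gev t R) (u t) with hG
  set ρ' : ℝ → K → ℝ := fun t k => 2 * min (nk k) R * gev t R k with hρ'
  have hmin0 : ∀ k, 0 ≤ min (nk k) R := fun k => le_min (nk_nonneg k) hR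
  have hT : 0 < T := ht.1.trans_lt ht.2
  have b1 : ∀ s ∈ Ico 0 T, ∀ k, |gev s R k| ≤ (max 1 (2 * R) * Real.exp (2 * T * R)) * pw k ^ 2 := by
    intro s hs k
    rw [abs_of_nonneg (gev_nonneg _ _ _)]
    refine (gev_le hR hs.2.le hT.le k).trans ?_
    have a1 : Real.exp (2 * T * R) ≤ max 1 (2 * R) * Real.exp (2 * T * R) :=
      le_mul_of_one_le_left (Real.exp_pos _).le (le_max_left _ _)
    exact mul_le_mul a1 (qk_le_pw k) (qk_nonneg k) (by positivity)
  have b2 : ∀ s ∈ Ioo 0 T, ∀ k, |ρ' s k| ≤ (max 1 (2 * R) * Real.exp (2 * T * R)) * pw k ^ 2 := by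
    intro s hs k
    have e1 : ρ' s k = (2 * min (nk k) R) * gev s R k := rfl
    rw [e1, abs_mul, abs_of_nonneg (mul_nonneg (by norm_num : (0 : ℝ) ≤ 2) (hmin0 k)),
      abs_of_nonneg (gev_nonneg _ _ _), mul_assoc (max 1 (2 * R))]
    refine mul_le_mul ?_ ((gev_le hR hs.2.le hT.le k).trans ?_) (gev_nonneg _ _ _) (by positivity)
    · refine le_trans ?_ (le_max_right _ _)
      have : min (nk k) R ≤ R := min_le_right _ _
      linarith
    · exact mul_le_mul_of_nonneg_left (qk_le_pw k) (Real.exp_pos _).le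
  have b3 : ∀ k s, HasDerivAt (fun s => gev s R k) (ρ' s k) s := by
    intro k s
    unfold gev
    have e1 : HasDerivAt (fun s : ℝ => 2 * s * min (nk k) R) (2 * 1 * min (nk k) R) s :=
      ((hasDerivAt_id s).const_mul 2).mul_const _
    refine (e1.exp.mul_const (qk k)).congr_deriv ?_
    simp only [hρ', gev]
    ring
  have hder := H1 c T S u h (fun t => gev t R) ρ' (max 1 (2 * R) * Real.exp (2 * T * R)) 2 b1 b2
    (fun s _ k => b3 k s) (fun k => (continuous_iff_continuousAt.2 fun s => (b3 k s).continuousAt).continuousOn)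
  have key : ∀ s ∈ Ioo 0 T, G s < Z0 + 1 →
      wn (ρ' s) (u s) - (2 * c) * wn (fun k => gev s R k * qk k) (u s) + 2 * prdi (gev s R) (u s) ≤ L := by
    intro s hs hGs
    have hf := h.fld s ⟨hs.1.le, hs.2⟩
    have ha : Adm (gev s R) := adm_gev hR
    set g : ℝ := Real.sqrt (wn (gev s R) (u s)) with hg
    set p : ℝ := Real.sqrt (wn (fun k => gev s R k * qk k) (u s)) with hp
    have hG0 : 0 ≤ wn (gev s R) (u s) := wn_nonneg (gev_nonneg _ _)
    have hP0 : 0 ≤ wn (fun k => gev s R k * qk k) (u s) :=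
      wn_nonneg fun k => mul_nonneg (gev_nonneg _ _ _) (qk_nonneg k)
    have hg2 : g ^ 2 = wn (gev s R) (u s) := Real.sq_sqrt hG0
    have hp2 : p ^ 2 = wn (fun k => gev s R k * qk k) (u s) := Real.sq_sqrt hP0
    have hgg : 0 ≤ g := Real.sqrt_nonneg _
    have hpp : 0 ≤ p := Real.sqrt_nonneg _
    have hgle : g ≤ g0 := Real.sqrt_le_sqrt hGs.le
    have hg02 : g0 ^ 2 = Z0 + 1 := Real.sq_sqrt (by linarith)
    -- the derivative of the weight
    have i1 : wn (ρ' s) (u s) ≤ 2 * (g * p) := by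
      have h3 := wn_cs (y := u s) hf.rap ha.sqrt (ha.sqrt.mul adm_nk) (fun k => Real.sqrt_nonneg _)
        (fun k => mul_nonneg (Real.sqrt_nonneg _) (nk_nonneg k))
      have e1 : (fun k => Real.sqrt (gev s R k) ^ 2) = gev s R := by
        funext k; exact Real.sq_sqrt (gev_nonneg _ _ _)
      have e2 : (fun k => (Real.sqrt (gev s R k) * nk k) ^ 2) = fun k => gev s R k * qk k := by
        funext k; rw [mul_pow, Real.sq_sqrt (gev_nonneg _ _ _), nk_sq]
      have e3 : (fun k => Real.sqrt (gev s R k) * (Real.sqrt (gev s R k) * nk k)) = fun k => gev s R k * nk k := by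
        funext k; rw [← mul_assoc, Real.mul_self_sqrt (gev_nonneg _ _ _)]
      rw [e1, e2, e3] at h3
      refine le_trans ?_ (mul_le_mul_of_nonneg_left h3 (by norm_num : (0 : ℝ) ≤ 2))
      rw [← wn_const_mul]
      have a1 : Adm fun k => 2 * (gev s R k * nk k) := (ha.mul adm_nk).const_mul 2
      refine wn_mono hf.rap (a1.of_le fun k => ?_) a1 fun k => ?_
      · simp only [hρ']
        rw [abs_of_nonneg (mul_nonneg (mul_nonneg (by norm_num) (hmin0 k)) (gev_nonneg _ _ _)),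
          abs_of_nonneg (mul_nonneg (by norm_num) (mul_nonneg (gev_nonneg _ _ _) (nk_nonneg k)))]
        have : min (nk k) R ≤ nk k := min_le_left _ _
        have := gev_nonneg s R k
        nlinarith
      · simp only [hρ']
        have : min (nk k) R ≤ nk k := min_le_left _ _
        have := gev_nonneg s R k
        nlinarith
    have i2 : prdi (gev s R) (u s) ≤ p * g * (C * g + c / (4 * g0) * p) :=
      (le_abs_self _).trans (hC s R hs.1.le hR (u s) hf)
    rw [← hp2]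
    have j1 : 2 * (g * p) ≤ c / 2 * p ^ 2 + 2 / c * g ^ 2 := by
      have h3 : 0 ≤ (c / 2 * p - g) ^ 2 * (2 / c) := by positivity
      have h4 : (c / 2 * p - g) ^ 2 * (2 / c) = c / 2 * p ^ 2 + 2 / c * g ^ 2 - 2 * (g * p) := by
        field_simp; ring
      linarith
    have j2 : 2 * (C * g ^ 2 * p) ≤ c / 2 * p ^ 2 + 2 * C ^ 2 / c * (g ^ 2) ^ 2 := by
      have h3 : 0 ≤ (c / 2 * p - C * g ^ 2) ^ 2 * (2 / c) := by positivity
      have h4 : (c / 2 * p - C * g ^ 2) ^ 2 * (2 / c)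
          = c / 2 * p ^ 2 + 2 * C ^ 2 / c * (g ^ 2) ^ 2 - 2 * (C * g ^ 2 * p) := by
        field_simp; ring
      linarith
    have j3 : 2 * (p * g * (c / (4 * g0) * p)) ≤ c / 2 * p ^ 2 := by
      have h3 : g * (c / (4 * g0)) ≤ c / 4 := by
        calc g * (c / (4 * g0)) ≤ g0 * (c / (4 * g0)) := by gcongr
          _ = c / 4 := by field_simp
      nlinarith [sq_nonneg p]
    have j4 : g ^ 2 ≤ Z0 + 1 := by rw [hg2]; exact hGs.le
    have j5 : 2 / c * g ^ 2 + 2 * C ^ 2 / c * (g ^ 2) ^ 2 ≤ L := by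
      rw [hL]
      gcongr
    have j6 : 2 * (p * g * (C * g + c / (4 * g0) * p))
        = 2 * (C * g ^ 2 * p) + 2 * (p * g * (c / (4 * g0) * p)) := by ring
    have := sq_nonneg p
    nlinarith
  -- bootstrap
  have hb := boot (f := G) (a := 0) (b := t) (δ := Z0 + 1)
    (hder.2.mono fun s hs => ⟨hs.1, hs.2.trans_lt ht.2⟩) ?_
  · exact (hb t ⟨ht.1, le_rfl⟩).le
  · intro s hs hlt
    have h3 : G s - L * s ≤ G 0 - L * 0 := by
      refine anti_of_hasDerivAt (f := fun s => G s - L * s) hs.1 ?_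
        (fun r hr => (hder.1 r ⟨hr.1, hr.2.trans_le (hs.2.trans ht.2.le)⟩).sub
          ((hasDerivAt_id r).const_mul L)) ?_
      · exact (hder.2.mono fun r hr => ⟨hr.1, (hr.2.trans hs.2).trans_lt ht.2⟩).sub
          (continuous_const.mul continuous_id).continuousOn
      · intro r hr
        have := key r ⟨hr.1, hr.2.trans_le (hs.2.trans ht.2.le)⟩ (hlt r ⟨hr.1.le, hr.2⟩)
        linarith
    have h4 : G 0 ≤ Z0 := by
      simp only [hG, gev_zero_left]
      exact hZ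
    have h5 : L * s ≤ 1 / 2 := by
      have h6 : s ≤ 1 / (2 * L) := hs.2.trans htt
      calc L * s ≤ L * (1 / (2 * L)) := by gcongr
        _ = 1 / 2 := by field_simp
    linarith

end

end Pool.Agent.Y6
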