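import Pool.Agent.Y6.Bfb

/-!
The limit of the Galerkin approximations.
-/

open MeasureTheory Set Filter Topology Metric
open scoped ENNReal NNReal InnerProductSpace

set_option autoImplicit false

namespace Pool.Agent.Y6

open Pool.Agent.H356R3.NS hiding K sq

/-- Solutions with modes in `Q` on the Fourier side. -/
structure QSol (c : ℝ) (Q : Set K) (V : K → C3) (u : K → ℝ → C3) : Prop where
  cf : ∀ k, Continuous (u k)
  zero : ∀ k, k ∉ Q → ∀ t, u k t = 0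
  sym : ∀ t, Sym (fun k => u k t)
  div : ∀ k t, dt k (u k t) = 0
  rd : ∀ m : ℕ, ∃ C : ℝ, ∀ k t, pw k ^ m * ‖u k t‖ ≤ C
  ode : ∀ k ∈ Q, ∀ t, 0 < t → HasDerivAt (u k) (RH c (fun k => u k t) k) t
  init : ∀ k, u k 0 = V k

/-- The modes of size at most `n`. -/
noncomputable def SS (Q : Set K) (n : ℕ) : Finset K :=
  haveI := Classical.decPred (· ∈ Q)
  (Finset.Icc (fun _ => -(n : ℤ)) (fun _ => (n : ℤ))).filter (· ∈ Q)

lemma mem_SS {Q : Set K} {n : ℕ} {k : K} : k ∈ SS Q n ↔ (∀ i, |k i| ≤ n) ∧ k ∈ Q := by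
  letI := Classical.decPred (· ∈ Q)
  unfold SS
  rw [Finset.mem_filter, Finset.mem_Icc]
  refine and_congr_left fun _ => ⟨fun h i => abs_le.2 ⟨h.1 i, h.2 i⟩, fun h => ⟨fun i => (abs_le.1 (h i)).1, fun i => (abs_le.1 (h i)).2⟩⟩

lemma SS_neg {Q : Set K} (hQ : ∀ k ∈ Q, -k ∈ Q) {n : ℕ} {k : K} (h : k ∈ SS Q n) : -k ∈ SS Q n := by
  rw [mem_SS] at h ⊢
  exact ⟨fun i => by simpa using h.1 i, hQ k h.2⟩

lemma SS_eventually {Q : Set K} {k : K} (h : k ∈ Q) : ∃ N : ℕ, ∀ n, N ≤ n → k ∈ SS Q n := by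
  refine ⟨sz k, fun n hn => mem_SS.2 ⟨fun i => ?_, h⟩⟩
  have h1 : (k i).natAbs ≤ sz k := Finset.le_sup (f := fun i => (k i).natAbs) (Finset.mem_univ i)
  rw [Int.abs_eq_natAbs]
  exact_mod_cast h1.trans hn

/-- clipping of the time -/
noncomputable def clip (n : ℕ) (t : ℝ) : ℝ := max 0 (min t n)

lemma clip_mem (n : ℕ) (t : ℝ) : clip n t ∈ Icc (0 : ℝ) n :=
  ⟨le_max_left _ _, max_le (Nat.cast_nonneg n) (min_le_right _ _)⟩

lemma clip_eq {n : ℕ} {t : ℝ} (h : t ∈ Icc (0 : ℝ) n) : clip n t = t := by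
  unfold clip
  rw [min_eq_left h.2, max_eq_right h.1]

lemma clip_neg {n : ℕ} {t : ℝ} (h : t ≤ 0) : clip n t = 0 := by
  unfold clip
  exact max_eq_left ((min_le_left _ _).trans h)

lemma clip_max (n : ℕ) (t : ℝ) : clip n (max t 0) = clip n t := by
  rcases le_total t 0 with h | h
  · rw [max_eq_right h, clip_neg h, clip_neg le_rfl]
  · rw [max_eq_left h]

/-- Lipschitz bound from the derivative. -/
lemma lip_of_deriv {f f' : ℝ → C3} {T L : ℝ} (h : ∀ t ∈ Icc 0 T, HasDerivWithinAt f (f' t) (Icc 0 T) t)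
    (hL : ∀ t ∈ Icc 0 T, ‖f' t‖ ≤ L) {s t : ℝ} (hs : s ∈ Icc 0 T) (ht : t ∈ Icc 0 T) :
    ‖f s - f t‖ ≤ L * |s - t| :=
  (convex_Icc 0 T).norm_image_sub_le_of_norm_hasDerivWithin_le h hL ht hs

/-- Taylor bound from a Lipschitz derivative. -/
lemma taylor_of_deriv {f f' : ℝ → C3} {T L : ℝ} (h : ∀ t ∈ Icc 0 T, HasDerivWithinAt f (f' t) (Icc 0 T) t)
    (_hL0 : 0 ≤ L) (hL : ∀ s ∈ Icc 0 T, ∀ t ∈ Icc 0 T, ‖f' s - f' t‖ ≤ L * |s - t|) {s t : ℝ}
    (hs : s ∈ Icc 0 T) (ht : t ∈ Icc 0 T) :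
    ‖f s - f t - (s - t) • f' t‖ ≤ L * |s - t| * |s - t| := by
  have hsub : uIcc t s ⊆ Icc 0 T := uIcc_subset_Icc ht hs
  have h1 : ∀ r ∈ uIcc t s, HasDerivWithinAt (fun r => f r - r • f' t) (f' r - (1 : ℝ) • f' t) (uIcc t s) r := by
    intro r hr
    exact ((h r (hsub hr)).mono hsub).sub ((hasDerivWithinAt_id r _).smul_const (f' t))
  have h2 : ∀ r ∈ uIcc t s, ‖f' r - (1 : ℝ) • f' t‖ ≤ L * |s - t| := by
    intro r hr
    rw [one_smul]
    refine (hL r (hsub hr) t ht).trans (mul_le_mul_of_nonneg_left ?_ _hL0)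
    exact abs_sub_left_of_mem_uIcc hr
  have h3 := (convex_uIcc t s).norm_image_sub_le_of_norm_hasDerivWithin_le h1 h2 left_mem_uIcc right_mem_uIcc
  have h4 : f s - s • f' t - (f t - t • f' t) = f s - f t - (s - t) • f' t := by
    rw [sub_smul]
    abel
  rw [h4] at h3
  exact h3

end Pool.Agent.Y6
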