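import Pool.Agent.Y6.Loc
import Pool.Agent.Y6.Stm6

/-!
Maximal solutions on the Fourier side.
-/

open MeasureTheory Set Filter Topology
open scoped ENNReal NNReal

set_option autoImplicit false

namespace Pool.Agent.Y6

open Pool.Agent.H356R3.NS hiding K sq

section

variable {c T : ℝ} {Q : Set K} {u w : ℝ → K → C3}

lemma TSol.mono (h : TSol c T Q u) {T' : ℝ} (hT : T' ≤ T) : TSol c T' Q u where
  fld := fun t ht => h.fld t ⟨ht.1, ht.2.trans_le hT⟩
  supp := fun t ht => h.supp t ⟨ht.1, ht.2.trans_le hT⟩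
  rap := fun T'' hT'' => h.rap T'' (hT''.trans_le hT)
  cont := fun k => (h.cont k).mono (Ico_subset_Ico_right hT)
  ode := fun t ht => h.ode t ⟨ht.1, ht.2.trans_le hT⟩

lemma TSol.shift (h : TSol c T Q u) {r : ℝ} (hr : 0 ≤ r) : TSol c (T - r) Q (fun t => u (r + t)) where
  fld := fun t ht => h.fld _ ⟨by linarith [ht.1], by linarith [ht.2]⟩
  supp := fun t ht => h.supp _ ⟨by linarith [ht.1], by linarith [ht.2]⟩
  rap := by
    intro T' hT' m
    obtain ⟨C, hC⟩ := h.rap (r + T') (by linarith) m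
    exact ⟨C, fun t ht k => hC _ ⟨by linarith [ht.1], by linarith [ht.2]⟩ k⟩
  cont := fun k => (h.cont k).comp (continuous_const.add continuous_id).continuousOn
    fun t ht => ⟨by linarith [ht.1], by linarith [ht.2]⟩
  ode := fun t ht k hk => by
    have h1 := h.ode (r + t) ⟨by linarith [ht.1], by linarith [ht.2]⟩ k hk
    exact h1.comp_const_add r t

/-- the properties are local in time -/
lemma TSol.of_agree {U : ℝ → K → C3} (h : ∀ t ∈ Ico 0 T, ∃ (T1 : ℝ) (u : ℝ → K → C3), t < T1 ∧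
    TSol c T1 Q u ∧ ∀ s ∈ Ico 0 T1, s < T → U s = u s) : TSol c T Q U where
  fld := fun t ht => by
    obtain ⟨T1, u, h1, h2, h3⟩ := h t ht
    rw [h3 t ⟨ht.1, h1⟩ ht.2]
    exact h2.fld t ⟨ht.1, h1⟩
  supp := fun t ht => by
    obtain ⟨T1, u, h1, h2, h3⟩ := h t ht
    rw [h3 t ⟨ht.1, h1⟩ ht.2]
    exact h2.supp t ⟨ht.1, h1⟩
  rap := by
    intro T' hT' m
    rcases lt_or_ge T' 0 with h0 | h0
    · exact ⟨0, fun t ht => absurd (ht.1.trans ht.2) (not_le.2 h0)⟩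
    · obtain ⟨T1, u, h1, h2, h3⟩ := h T' ⟨h0, hT'⟩
      obtain ⟨C, hC⟩ := h2.rap T' h1 m
      refine ⟨C, fun t ht k => ?_⟩
      rw [h3 t ⟨ht.1, ht.2.trans_lt h1⟩ (ht.2.trans_lt hT')]
      exact hC t ht k
  cont := by
    intro k t ht
    obtain ⟨T1, u, h1, h2, h3⟩ := h t ht
    have h4 : ContinuousWithinAt (fun t => u t k) (Ico 0 T) t := by
      have h5 := (h2.cont k) t ⟨ht.1, h1⟩
      refine (h5.mono_of_mem_nhdsWithin ?_)
      filter_upwards [self_mem_nhdsWithin, mem_nhdsWithin_of_mem_nhds (Iio_mem_nhds h1)] with s hs1 hs2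
      exact ⟨hs1.1, hs2⟩
    refine h4.congr_of_eventuallyEq ?_ ?_
    · filter_upwards [self_mem_nhdsWithin, mem_nhdsWithin_of_mem_nhds (Iio_mem_nhds h1)] with s hs1 hs2
      rw [h3 s ⟨hs1.1, hs2⟩ hs1.2]
    · simp only [h3 t ⟨ht.1, h1⟩ ht.2]
  ode := by
    intro t ht k hk
    obtain ⟨T1, u, h1, h2, h3⟩ := h t ⟨ht.1.le, ht.2⟩
    have h4 := h2.ode t ⟨ht.1, h1⟩ k hk
    rw [h3 t ⟨ht.1.le, h1⟩ ht.2]
    refine h4.congr_of_eventuallyEq ?_
    filter_upwards [Ioo_mem_nhds ht.1 (lt_min h1 ht.2)] with s hs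
    rw [h3 s ⟨hs.1.le, hs.2.trans_le (min_le_left _ _)⟩ (hs.2.trans_le (min_le_right _ _))]

/-- gluing two solutions -/
lemma TSol.glue {T1 T2 r : ℝ} (h1 : TSol c T1 Q u) (h2 : TSol c T2 Q w) (hr1 : r < T1)
    (hag : ∀ t ∈ Ico r T1, u t = w (t - r)) :
    TSol c (r + T2) Q (fun t => if t < T1 then u t else w (t - r)) := by
  set U : ℝ → K → C3 := fun t => if t < T1 then u t else w (t - r) with hU
  have e1 : ∀ t, t < T1 → U t = u t := fun t ht => if_pos ht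
  have e2 : ∀ t, r ≤ t → U t = w (t - r) := by
    intro t ht
    by_cases h : t < T1
    · rw [e1 t h, hag t ⟨ht, h⟩]
    · exact if_neg h
  have m1 : ∀ {t}, t ∈ Ico 0 (r + T2) → r ≤ t → t - r ∈ Ico 0 T2 := fun ht h =>
    ⟨by linarith, by linarith [ht.2]⟩
  refine ⟨?_, ?_, ?_, ?_, ?_⟩
  · intro t ht
    rcases lt_or_ge t T1 with h | h
    · rw [e1 t h]; exact h1.fld t ⟨ht.1, h⟩
    · rw [e2 t (by linarith)]; exact h2.fld _ (m1 ht (by linarith))
  · intro t ht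
    rcases lt_or_ge t T1 with h | h
    · rw [e1 t h]; exact h1.supp t ⟨ht.1, h⟩
    · rw [e2 t (by linarith)]; exact h2.supp _ (m1 ht (by linarith))
  · intro T' hT' m
    obtain ⟨C1, hC1⟩ := h1.rap ((r + T1) / 2) (by linarith) m
    obtain ⟨C2, hC2⟩ := h2.rap (T' - r) (by linarith) m
    refine ⟨max C1 C2, fun t ht k => ?_⟩
    rcases le_or_gt t ((r + T1) / 2) with h | h
    · rw [e1 t (by linarith)]
      exact (hC1 t ⟨ht.1, h⟩ k).trans (le_max_left _ _)
    · rw [e2 t (by linarith)]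
      exact (hC2 (t - r) ⟨by linarith, by linarith [ht.2]⟩ k).trans (le_max_right _ _)
  · intro k t ht
    rcases lt_or_ge t T1 with h | h
    · have h4 : ContinuousWithinAt (fun t => u t k) (Ico 0 (r + T2)) t := by
        refine ((h1.cont k) t ⟨ht.1, h⟩).mono_of_mem_nhdsWithin ?_
        filter_upwards [self_mem_nhdsWithin, mem_nhdsWithin_of_mem_nhds (Iio_mem_nhds h)] with s hs1 hs2
        exact ⟨hs1.1, hs2⟩
      refine h4.congr_of_eventuallyEq ?_ (by simp only [e1 t h])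
      filter_upwards [mem_nhdsWithin_of_mem_nhds (Iio_mem_nhds h)] with s hs2
      rw [e1 s hs2]
    · have hrt : r < t := by linarith
      have h3 : ContinuousAt (fun t => w t k) (t - r) :=
        (h2.cont k).continuousAt (Ico_mem_nhds (by linarith) (by linarith [ht.2]))
      have h4 : ContinuousAt (fun t => w (t - r) k) t :=
        ContinuousAt.comp (f := fun t => t - r) (g := fun t => w t k) h3
          (continuous_id.sub continuous_const).continuousAt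
      have h5 : ContinuousAt (fun t => U t k) t := by
        refine h4.congr ?_
        filter_upwards [Ioi_mem_nhds hrt] with s hs
        rw [e2 s (le_of_lt hs)]
      exact h5.continuousWithinAt
  · intro t ht k hk
    rcases lt_or_ge t T1 with h | h
    · have h4 := h1.ode t ⟨ht.1, h⟩ k hk
      rw [e1 t h]
      refine h4.congr_of_eventuallyEq ?_
      filter_upwards [Iio_mem_nhds h] with s hs
      rw [e1 s hs]
    · have hrt : r < t := by linarith
      have h4 := h2.ode (t - r) ⟨by linarith, by linarith [ht.2]⟩ k hk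
      have h5 : HasDerivAt (fun t => w (t - r) k) (RH c (w (t - r)) k) t := h4.comp_sub_const t r
      rw [e2 t hrt.le]
      refine h5.congr_of_eventuallyEq ?_
      filter_upwards [Ioi_mem_nhds hrt] with s hs
      rw [e2 s (le_of_lt hs)]

end

/-- Maximal solutions. -/
theorem max_sol (H1 : St_der) (H5 : St_gev) (HU : St_uniqF) {C A : ℝ} {h : K → ℕ} (hp : EnsB C h A)
    {c : ℝ} (hc : 0 < c) {Q : Set K} {V : K → C3} (hQ : ∀ k ∈ Q, -k ∈ Q) (h0 : (0 : K) ∉ Q) (hV : Fld V)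
    (hVQ : ∀ k, k ∉ Q → V k = 0) :
    ∃ (T : EReal) (u : ℝ → K → C3), 0 < T ∧ (∀ T0 : ℝ, (T0 : EReal) ≤ T → TSol c T0 Q u) ∧ u 0 = V ∧
      (∀ (T' : ℝ) (w : ℝ → K → C3), TSol c T' Q w → w 0 = V → (T' : EReal) ≤ T) ∧
      (T ≠ ⊤ → ∀ B s : ℝ, s ∈ tI T → ∃ t ∈ tI T, s ≤ t ∧ B < wn qk (u t)) := by
  obtain ⟨t0, ht0, hloc⟩ := local_exists H1 H5 hp hc (wn_nonneg qk_nonneg : 0 ≤ wn qk V)
  obtain ⟨u0, hu0, hu00⟩ := hloc Q V hQ h0 hV hVQ le_rfl
  set X : Set EReal := {x | ∃ T : ℝ, x = T ∧ ∃ u, TSol c T Q u ∧ u 0 = V} with hX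
  set Tm : EReal := sSup X with hTm
  have hmax : ∀ (T' : ℝ) (w : ℝ → K → C3), TSol c T' Q w → w 0 = V → (T' : EReal) ≤ Tm :=
    fun T' w h1 h2 => le_sSup ⟨T', rfl, w, h1, h2⟩
  have ex : ∀ t : ℝ, t ∈ tI Tm → ∃ (T1 : ℝ) (u : ℝ → K → C3), t < T1 ∧ TSol c T1 Q u ∧ u 0 = V := by
    intro t ht
    obtain ⟨x, ⟨T1, rfl, u, h1, h2⟩, hx⟩ := lt_sSup_iff.1 ht.2
    exact ⟨T1, u, by exact_mod_cast hx, h1, h2⟩
  have hTpos : 0 < Tm := lt_of_lt_of_le (by exact_mod_cast ht0) (hmax t0 u0 hu0 hu00)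
  classical
  set U : ℝ → K → C3 := fun t => if ht : t ∈ tI Tm then (ex t ht).choose_spec.choose t else 0 with hU
  have hag : ∀ (T1 : ℝ) (w : ℝ → K → C3), TSol c T1 Q w → w 0 = V → ∀ s ∈ Ico 0 T1, U s = w s := by
    intro T1 w hw hw0 s hs
    have hsT : s ∈ tI Tm := ⟨hs.1, lt_of_lt_of_le (by exact_mod_cast hs.2) (hmax T1 w hw hw0)⟩
    obtain ⟨e1, e2, e3⟩ := (ex s hsT).choose_spec.choose_spec
    have e4 : U s = (ex s hsT).choose_spec.choose s := by
      simp only [hU]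
      rw [dif_pos hsT]
    rw [e4]
    have hm1 := e2.mono (min_le_left (ex s hsT).choose T1)
    have hm2 := hw.mono (min_le_right (ex s hsT).choose T1)
    exact HU c _ Q _ w hc hQ hm1 hm2 (e3.trans hw0.symm) s ⟨hs.1, lt_min e1 hs.2⟩
  have hsol : ∀ T0 : ℝ, (T0 : EReal) ≤ Tm → TSol c T0 Q U := by
    intro T0 hT0
    refine TSol.of_agree fun t ht => ?_
    have htm : t ∈ tI Tm := ⟨ht.1, lt_of_lt_of_le (by exact_mod_cast ht.2) hT0⟩
    obtain ⟨T1, u1, h1, h2, h3⟩ := ex t htm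
    exact ⟨T1, u1, h1, h2, fun s hs _ => hag T1 u1 h2 h3 s hs⟩
  have hU0 : U 0 = V := by rw [hag t0 u0 hu0 hu00 0 ⟨le_rfl, ht0⟩, hu00]
  refine ⟨Tm, U, hTpos, hsol, hU0, hmax, ?_⟩
  intro hne B s hs
  by_contra hcon
  push Not at hcon
  -- the maximal time is real
  have hbot : Tm ≠ ⊥ := (bot_lt_iff_ne_bot.1 (lt_of_le_of_lt bot_le hTpos))
  lift Tm to ℝ using ⟨hne, hbot⟩ with T hT
  have hT0 : 0 < T := by exact_mod_cast hTpos
  have hsT : s < T := by exact_mod_cast hs.2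
  have hB0 : 0 ≤ max B 0 := le_max_right _ _
  obtain ⟨t1, ht1, hloc1⟩ := local_exists H1 H5 hp hc hB0
  set r : ℝ := max s (T - t1 / 2) with hr
  have hrs : s ≤ r := le_max_left _ _
  have hr0 : 0 ≤ r := hs.1.trans hrs
  have hrT : r < T := max_lt hsT (by linarith)
  have hrt : T - t1 / 2 ≤ r := le_max_right _ _
  have hUT : TSol c T Q U := hsol T le_rfl
  have hrI : r ∈ tI (T : EReal) := ⟨hr0, by exact_mod_cast hrT⟩
  obtain ⟨w, hw, hw0⟩ := hloc1 Q (U r) hQ h0 (hUT.fld r ⟨hr0, hrT⟩) (hUT.supp r ⟨hr0, hrT⟩)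
    ((hcon r hrI hrs).trans (le_max_left _ _))
  have hag2 : ∀ t ∈ Ico r T, U t = w (t - r) := by
    intro t ht
    have h1 := HU c (T - r) Q (fun t => U (r + t)) w hc hQ (hUT.shift hr0)
      (hw.mono (by linarith)) (by simp only [add_zero]; exact hw0.symm) (t - r)
      ⟨by linarith [ht.1], by linarith [ht.2]⟩
    simp only [add_sub_cancel] at h1
    exact h1
  have hglue := hUT.glue hw hrT hag2
  have h1 := hmax _ _ hglue (by simp only [if_pos hT0]; exact hU0)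
  have h2 : r + t1 ≤ T := by exact_mod_cast h1
  linarith

end Pool.Agent.Y6
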