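import Pool.Agent.Y6.Ga2

/-!
Closed levels: existence of global solutions on the Fourier side.
-/

open MeasureTheory Set Filter Topology
open scoped ContDiff ENNReal

set_option autoImplicit false

namespace Pool.Agent.Y6

open Pool.Agent.H356R3.NS hiding K sq

/-- The level `M` is closed: the sum of two modes of `Q` below the level is either below the level or
not in `Q`. -/
def Closed (h : K → ℕ) (Q : Set K) (M : ℕ) : Prop :=
  ∀ k ∈ Q, ∀ l ∈ Q, k + l ∈ Q → h k ≤ M → h l ≤ M → h (k + l) ≤ M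

theorem qsol_closed (H1 : St_der) (H2 : St_tri) (H3 : St_L2g) (H3' : St_L2c) (H4 : St_H1) (H5 : St_gev)
    {c : ℝ} (hc : 0 < c) {h : K → ℕ} {H A : ℝ} (hH : 0 < H) (hA : 0 ≤ A) (hh : Height h H A) {Q : Set K}
    (hQ : ∀ k ∈ Q, -k ∈ Q) (h0 : (0 : K) ∉ Q) (hcl : ∀ n : ℕ, ∃ M, n ≤ M ∧ Closed h Q M) {V : K → C3}
    (hV : Sym V) (hdV : ∀ k, dt k (V k) = 0) (hVQ : ∀ k, k ∉ Q → V k = 0)
    (hVs : ∀ s : ℕ, Summable fun k => qk k ^ s * en2 (V k)) : ∃ u, QSol c Q V u := by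
  obtain ⟨C, hC⟩ := consts H3 H3' H4
  obtain ⟨hp, -, hup⟩ := hC h H A hA hh
  have hC0 := hp.c0
  obtain ⟨m, hmMs, -, hm1, hm4⟩ := scales (Ms := {M | Closed h Q M}) (fun n => by
    obtain ⟨M, h1, h2⟩ := hcl n
    exact ⟨M, h2, h1⟩) 0
  set Nm : ℕ → ℝ := fun s => ∑' k, qk k ^ s * en2 (V k) with hNm
  have hNm0 : ∀ s, 0 ≤ Nm s := fun s => tsum_nonneg fun k =>
    mul_nonneg (pow_nonneg (qk_nonneg k) s) (en2_nonneg _)
  have hle : ∀ n s, phi (SS Q n) s V ≤ Nm s := fun n s =>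
    (hVs s).sum_le_tsum _ fun k _ => mul_nonneg (pow_nonneg (qk_nonneg k) s) (en2_nonneg _)
  obtain ⟨B, hB⟩ := level_bound H1 H2 H5 hc hp hH hh (hNm0 0) (hNm0 1) (le_refl (0 : ℝ)) hm1
    (fun j => (by have := hm4 j; omega : 2 * m j ≤ m (j + 1))) (σ := fun _ => 1) (fun _ => zero_le_one)
    (fun _ => le_rfl) (by
      intro hs
      have := hs.tendsto_atTop_zero
      have h1 := tendsto_nhds_unique this tendsto_const_nhds
      norm_num at h1)
  have ex : ∀ n : ℕ, ∃ y, Gal c (n + 1) (SS Q n) V y := fun n =>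
    gal_exists hc.le (by positivity) (fun k hk => SS_neg hQ hk) hV hdV
  choose y hy using ex
  have h0S : ∀ n, (0 : K) ∉ SS Q n := fun n h => h0 (mem_SS.1 h).2
  have hSn : ∀ n, ∀ k ∈ SS Q n, -k ∈ SS Q n := fun n k hk => SS_neg hQ hk
  have hsub : ∀ n : ℕ, ∀ t ∈ Icc (0 : ℝ) n, t ∈ Ico (0 : ℝ) (n + 1) := fun n t ht =>
    ⟨ht.1, by linarith [ht.2]⟩
  have hZ : ∀ n : ℕ, ∀ t ∈ Icc (0 : ℝ) n, wn qk (y n t) ≤ max B 0 := by
    intro n t ht
    have hT := (hy n).tsol (h0S n)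
    have i0 : (0 : ℝ) ∈ Icc (0 : ℝ) (n + 1) := ⟨le_rfl, by positivity⟩
    refine le_trans (hB _ _ _ hT ?_ ?_ ?_ t (hsub n t ht)) (le_max_left _ _)
    · have e1 := phi_eq_wn ((hy n).supp 0 i0) 0
      simp only [pow_zero] at e1
      rw [← e1, (hy n).phi_zero]
      exact hle n 0
    · have e1 := phi_eq_wn ((hy n).supp 0 i0) 1
      simp only [pow_one] at e1
      rw [← e1, (hy n).phi_zero]
      exact hle n 1
    · intro j s hs
      rw [zero_mul]
      refine hup (m j) (hm1 j) _ (hT.fld s hs) fun k l hk hl hkl => ?_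
      by_contra hcon
      push Not at hcon
      have hmem : ∀ k, y n s k ≠ 0 → k ∈ Q := fun k hk => by
        by_contra hkQ
        exact hk (hT.supp s hs k fun h' => hkQ (mem_SS.1 (by simpa using h')).2)
      have h1 : h (k + l) ≤ m j := hmMs j k (hmem k hcon.1) l (hmem l hcon.2.1) (hmem _ hcon.2.2) hk hl
      omega
  have hy' : ∀ n : ℕ, Gal c n (SS Q n) V (y n) := fun n => (hy n).mono (by linarith)
  refine qsol_of_bound hc h0 hVQ hy' fun s => ?_
  -- uniform bounds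
  set Lam : ℝ := ∑' k : K, (1 / nk k) ^ 4 with hLam
  have hLam0 : 0 ≤ Lam := tsum_nonneg fun k => by have := nk_nonneg k; positivity
  have hLle : ∀ n, ∑ k ∈ SS Q n, (1 / nk k) ^ 4 ≤ Lam := fun n =>
    summ_nk4.sum_le_tsum _ fun k _ => by have := nk_nonneg k; positivity
  set a : ℝ := (2 * C ^ 2 * A / c + 128 * C * max B 0 / c ^ 3) / (2 * c) with ha
  have ha0 : 0 ≤ a := by
    have : 0 ≤ max B 0 := le_max_right _ _
    positivity
  set M : ℝ := Nm s * Real.exp ((2 * Real.pi * 2 ^ (s + 1)) ^ 2 * Lam / (2 * c ^ 2) *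
      (Nm 1 * Real.exp (a * Nm 0))) with hM
  have hM0 : 0 ≤ M := mul_nonneg (hNm0 s) (Real.exp_pos _).le
  refine ⟨M, hM0, fun n t k => ?_⟩
  have ht := clip_mem n t
  by_cases hk : k ∈ SS Q n
  · have h1 : qk k ^ s * en2 (y n (clip n t) k) ≤ phi (SS Q n) s (y n (clip n t)) :=
      Finset.single_le_sum (f := fun k => qk k ^ s * en2 (y n (clip n t) k))
        (fun k _ => mul_nonneg (pow_nonneg (qk_nonneg k) s) (en2_nonneg _)) hk
    have h2 := (hy' n).bounds2 hc (hSn n) (h0S n) ha0 (hLle n) (fun r hr => by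
      have e1 := hp.prod_le hc ((hy' n).fld (h0S n) hr) (hZ n r hr)
      rw [prd_eq_prdi ((hy' n).supp r hr), phi_eq_wn ((hy' n).supp r hr), phi_eq_wn ((hy' n).supp r hr)]
      simp only [pow_one]
      exact e1) s ht
    refine h1.trans (h2.trans ?_)
    have a0 := hle n 0
    have a1 := hle n 1
    have as := hle n s
    have p1 := phi_nonneg (SS Q n) 1 V
    have n1 := hNm0 s
    rw [hM]
    have e1 : Real.exp (a * phi (SS Q n) 0 V) ≤ Real.exp (a * Nm 0) :=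
      Real.exp_le_exp.2 (mul_le_mul_of_nonneg_left a0 ha0)
    have e2 : phi (SS Q n) 1 V * Real.exp (a * phi (SS Q n) 0 V) ≤ Nm 1 * Real.exp (a * Nm 0) :=
      mul_le_mul a1 e1 (Real.exp_pos _).le (hNm0 1)
    refine mul_le_mul as (Real.exp_le_exp.2 (mul_le_mul_of_nonneg_left e2 (by positivity)))
      (Real.exp_pos _).le n1
  · have : y n (clip n t) k = 0 := (hy' n).supp _ ht k hk
    rw [this, en2_zero, mul_zero]
    exact hM0

end Pool.Agent.Y6
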