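import Pool.Agent.Y6.Lim
import Pool.Agent.Y6.Defs
import Pool.Agent.H356R3.NS.Reg4

/-!
Statements about the physical side.
-/

open MeasureTheory Set
open scoped ContDiff

set_option autoImplicit false

namespace Pool.Agent.Y6

open Pool.Agent.H356R3.NS hiding K sq

/-- Smooth periodic divergence free fields. -/
structure Dat (v : R3 → R3) : Prop where
  smooth : ContDiff ℝ ∞ v
  per : ∀ x j, v (x + Pi.single j 1) = v x
  div : ∀ x, ∑ i, pd i (fun y => v y i) x = 0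

/-- Fourier coefficients of smooth fields. -/
def St_data : Prop :=
  ∀ v : R3 → R3, Dat v → Sym (fc v) ∧ (∀ k, dt k (fc v k) = 0) ∧
    (∀ s : ℕ, Summable fun k => qk k ^ s * en2 (fc v k)) ∧
    ∀ x i, v x i = (∑' k, fc v k i * ex k x).re

/-- From the Fourier side to the physical side. -/
def St_phys : Prop :=
  ∀ (ν : ℝ) (Q : Set K) (v : R3 → R3) (u : K → ℝ → C3), 0 < ν → (∀ k ∈ Q, -k ∈ Q) → (0 : K) ∉ Q →
    Dat v → QSol (4 * Real.pi ^ 2 * ν) Q (fc v) u →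
    ∃ (U : ℝ → R3 → R3) (P : ℝ → R3 → ℝ), DecSol Q ν v U P

/-- Uniqueness. -/
def St_uniq : Prop :=
  ∀ (ν : ℝ) (Q : Set K) (v : R3 → R3) (U U' : ℝ → R3 → R3) (P P' : ℝ → R3 → ℝ), 0 < ν →
    DecSol Q ν v U P → DecSol Q ν v U' P' → ∀ t, 0 ≤ t → U t = U' t

end Pool.Agent.Y6
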