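import Pool.Agent.Y6.Lim
import Pool.Agent.H459R3.NS.Cor

/-!
Octave gaps: definitions and statements of the auxiliary results on the Fourier side.
-/

open MeasureTheory Set
open scoped ContDiff ENNReal

set_option autoImplicit false

namespace Pool.Agent.Y6

open Pool.Agent.H356R3.NS hiding K sq

/-- A height on the frequencies: a symmetric subadditive function `h` with `h k ≤ H |k|`, such that the
sets `{h ≤ m}` have dimension at most two with constant `A m` (a cube with side `2 r`, `r ≥ 1`, contains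
at most `A m r²` points `k` with `h k ≤ m`). -/
structure Height (h : K → ℕ) (H A : ℝ) : Prop where
  neg : ∀ k, h (-k) = h k
  add : ∀ k l, h (k + l) ≤ h k + h l
  le : ∀ k, (h k : ℝ) ≤ H * nk k
  thin : ∀ m : ℕ, 1 ≤ m → H459R3.NS.DimTwo (A * m) {k | h k ≤ m}

/-- Rapidly decreasing families of coefficients. -/
def RapK (y : K → C3) : Prop := ∀ m : ℕ, ∃ C : ℝ, ∀ k, pw k ^ m * ‖y k‖ ≤ C

/-- A rapidly decreasing real divergence free mean-free field. -/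
structure Fld (y : K → C3) : Prop where
  rap : RapK y
  sym : Sym y
  div : ∀ k, dt k (y k) = 0
  zero : y 0 = 0

/-- Solutions on `[0, T)` with modes in `S`, on the Fourier side. -/
structure TSol (c T : ℝ) (S : Set K) (u : ℝ → K → C3) : Prop where
  fld : ∀ t ∈ Ico 0 T, Fld (u t)
  supp : ∀ t ∈ Ico 0 T, ∀ k, k ∉ S → u t k = 0
  rap : ∀ T' < T, ∀ m : ℕ, ∃ C : ℝ, ∀ t ∈ Icc 0 T', ∀ k, pw k ^ m * ‖u t k‖ ≤ C
  cont : ∀ k, ContinuousOn (fun t => u t k) (Ico 0 T)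
  ode : ∀ t ∈ Ioo 0 T, ∀ k ∈ S, HasDerivAt (fun t => u t k) (RH c (u t) k) t

/-- weighted energies -/
noncomputable def wn (ρ : K → ℝ) (y : K → C3) : ℝ := ∑' k, ρ k * en2 (y k)

/-- the production of the weighted energy -/
noncomputable def prdi (ρ : K → ℝ) (y : K → C3) : ℝ := ∑' k, ρ k * (ipc (y k) (Bf y y k)).re

open Classical in
/-- the indicator function of a set of frequencies -/
noncomputable def ind (W : Set K) (k : K) : ℝ := if k ∈ W then 1 else 0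

/-- `∑ |k|^(-4)` -/
noncomputable def Lam4 : ℝ := ∑' k : K, (1 / nk k) ^ 4

/-- the part of the enstrophy below height `M`, with weight `sqrt (h / M)` -/
noncomputable def XM (h : K → ℕ) (M : ℕ) (y : K → C3) : ℝ :=
  wn (fun k => ind {k | h k ≤ M} k * (Real.sqrt ((max (h k) 1 : ℕ) / M) * qk k)) y

/-- Weighted form of the trilinear estimate for two-dimensional sets. -/
def St_B0 : Prop :=
  ∃ C : ℝ, 0 ≤ C ∧ ∀ (h : K → ℕ) (H A : ℝ), 0 ≤ A → Height h H A → ∀ M : ℕ, 1 ≤ M →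
    ∀ α β γ : K → ℝ≥0∞, (∀ k, M < h k → α k = 0) → β 0 = 0 → γ 0 = 0 →
      ∑' q : K, ∑' k : K, α q * β k * γ (-q - k)
        ≤ ENNReal.ofReal (C * Real.sqrt A) * (ENNReal.ofReal (Real.sqrt M) *
            ∑' q, ENNReal.ofReal (Real.sqrt (max (h q) 1 : ℕ)) * α q ^ 2) ^ (1 / 2 : ℝ) *
          (H459R3.NS.e2 β * H459R3.NS.e2 (fun l => H459R3.NS.N l * γ l)
            + H459R3.NS.e2 γ * H459R3.NS.e2 (fun l => H459R3.NS.N l * β l))

/-- Evolution of the weighted energies, with time dependent weights. -/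
def St_der : Prop :=
  ∀ (c T : ℝ) (S : Set K) (u : ℝ → K → C3), TSol c T S u →
    ∀ (ρ ρ' : ℝ → K → ℝ) (C : ℝ) (m : ℕ), (∀ t ∈ Ico 0 T, ∀ k, |ρ t k| ≤ C * pw k ^ m) →
      (∀ t ∈ Ioo 0 T, ∀ k, |ρ' t k| ≤ C * pw k ^ m) →
      (∀ t ∈ Ioo 0 T, ∀ k, HasDerivAt (fun t => ρ t k) (ρ' t k) t) →
      (∀ k, ContinuousOn (fun t => ρ t k) (Ico 0 T)) →
      (∀ t ∈ Ioo 0 T, HasDerivAt (fun t => wn (ρ t) (u t))
        (wn (ρ' t) (u t) - (2 * c) * wn (fun k => ρ t k * qk k) (u t) + 2 * prdi (ρ t) (u t)) t) ∧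
      ContinuousOn (fun t => wn (ρ t) (u t)) (Ico 0 T)

/-- The bound of the production by triads. -/
def St_tri : Prop :=
  ∀ (y : K → C3) (ρ : K → ℝ) (C : ℝ) (m : ℕ), Fld y → (∀ k, |ρ k| ≤ C * pw k ^ m) →
    ENNReal.ofReal |prdi ρ y| ≤ ENNReal.ofReal (2 * Real.pi) * ∑' k : K, ∑' l : K,
        ENNReal.ofReal (|ρ k| * ‖tau y k l‖) ∧
    ENNReal.ofReal |prdi ρ y| ≤ ENNReal.ofReal Real.pi * ∑' k : K, ∑' l : K,
        ENNReal.ofReal (|ρ k - ρ (k - l)| * ‖tau y k l‖)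

/-- Production of the energy above a gap. -/
def St_L2 : Prop :=
  ∃ C : ℝ, 0 ≤ C ∧ ∀ (h : K → ℕ) (H A : ℝ), 0 ≤ A → Height h H A → ∀ M : ℕ, 1 ≤ M →
    ∀ y : K → C3, Fld y →
      |prdi (ind {k | 2 * M < h k}) y| ≤
        C * Real.sqrt (A * M * XM h M y) * Real.sqrt (wn (ind {k | 2 * M < h k}) y) *
          Real.sqrt (wn (fun k => ind {k | 2 * M < h k} k * qk k) y)
        + C * Real.sqrt (wn (ind {k | M < h k ∧ h k ≤ 2 * M}) y) * Real.sqrt (wn qk y) *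
          Real.sqrt (wn (fun k => qk k ^ 2) y)

/-- Production of the enstrophy. -/
def St_H1 : Prop :=
  ∃ C : ℝ, 0 ≤ C ∧ ∀ (h : K → ℕ) (H A : ℝ), 0 ≤ A → Height h H A → ∀ M : ℕ, 1 ≤ M →
    ∀ y : K → C3, Fld y →
      ∃ F : ℝ, 0 ≤ F ∧ F ^ 4 ≤ C * wn (fun k => ind {k | M < h k} k * qk k) y ^ 3 *
          wn (fun k => qk k ^ 2) y ^ 3 ∧
        |prdi qk y| ≤ C * Real.sqrt (A * M * XM h M y) * Real.sqrt (wn qk y) *
          Real.sqrt (wn (fun k => qk k ^ 2) y) + F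

/-- the truncated Gevrey weight -/
noncomputable def gev (σ R : ℝ) (k : K) : ℝ := Real.exp (2 * σ * min (nk k) R) * qk k

/-- Production of the Gevrey norms. -/
def St_gev : Prop :=
  ∀ η : ℝ, 0 < η → ∃ C : ℝ, 0 ≤ C ∧ ∀ (σ R : ℝ), 0 ≤ σ → 0 ≤ R → ∀ y : K → C3, Fld y →
    |prdi (gev σ R) y| ≤ Real.sqrt (wn (fun k => gev σ R k * qk k) y) * Real.sqrt (wn (gev σ R) y) *
      (C * Real.sqrt (wn (gev σ R) y) + η * Real.sqrt (wn (fun k => gev σ R k * qk k) y))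

end Pool.Agent.Y6
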