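import Pool.Agent.Y6.Bd

/-!
The trilinear estimate gives the bound of the enstrophy production.
-/

open MeasureTheory Set Filter Topology Metric
open scoped ENNReal NNReal InnerProductSpace

set_option autoImplicit false

namespace Pool.Agent.Y6

open Pool.Agent.H356R3.NS hiding K sq

lemma sz_le_nk (k : K) : (sz k : ℝ) ≤ nk k := by
  obtain ⟨i, -, hi⟩ := Finset.exists_mem_eq_sup (Finset.univ : Finset (Fin 3)) Finset.univ_nonempty
    (fun i => (k i).natAbs)
  unfold sz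
  rw [hi]
  have := abs_le_nk k i
  rwa [← Int.cast_abs, Int.abs_eq_natAbs, Int.cast_natCast] at this

/-- The trilinear estimate with constant `B`. -/
def TrilB (B : ℝ) (Q : Set K) : Prop :=
  ∀ w : K → ℝ≥0∞, (∀ k, k ∉ Q → w k = 0) → w 0 = 0 → (∀ k, w (-k) = w k) →
    ∑' k, ∑' l, w k * w l * w (k + l) ≤ ENNReal.ofReal B * (∑' k, w k ^ 2) *
      (∑' k, ((sz k : ℝ≥0∞) * w k) ^ 2) ^ (1 / 2 : ℝ)

lemma sum_neg_eq {S : Finset K} (hS : ∀ k ∈ S, -k ∈ S) (f : K → ℝ) :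
    ∑ l ∈ S, f l = ∑ l ∈ S, f (-l) := by
  refine Finset.sum_nbij' (fun k => -k) (fun k => -k) hS hS ?_ ?_ ?_ <;> intro a _ <;> simp

lemma prd_le_of_tril {B : ℝ} (hB : 0 ≤ B) {Q : Set K} (hQ : TrilB B Q) {S : Finset K} {y : K → C3}
    (hSQ : ∀ k ∈ S, k ∈ Q) (hS : ∀ k ∈ S, -k ∈ S) (h0 : (0 : K) ∉ S) (hy : ∀ k, k ∉ S → y k = 0)
    (hs : Sym y) (hd : ∀ k, dt k (y k) = 0) :
    |prd S qk y| ≤ (2 * Real.pi * B) * phi S 1 y * Real.sqrt (phi S 2 y) := by
  set w : K → ℝ := fun k => nk k * en (y k) with hw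
  have hw0 : ∀ k, 0 ≤ w k := fun k => mul_nonneg (nk_nonneg k) (en_nonneg _)
  have hwS : ∀ k, k ∉ S → w k = 0 := fun k hk => by simp [hw, hy k hk, en_zero]
  have hws : ∀ k, w (-k) = w k := by
    intro k
    have : en (y (-k)) = en (y k) := by
      unfold en en2
      congr 1
      refine Finset.sum_congr rfl fun i _ => ?_
      rw [hs k i, norm_star]
    simp only [hw, nk_neg, this]
  have h1 := abs_prd_sq_le hS hy hs hd
  have h2 : ∑ k ∈ S, ∑ l ∈ S, (nk k * en (y k)) * (nk l * en (y l)) * (nk (k - l) * en (y (k - l)))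
      = ∑ k ∈ S, ∑ l ∈ S, w k * w l * w (k + l) := by
    refine Finset.sum_congr rfl fun k _ => ?_
    have h3 : ∀ l, (nk k * en (y k)) * (nk l * en (y l)) * (nk (k - l) * en (y (k - l)))
        = w k * w l * w (k - l) := fun l => rfl
    simp only [h3]
    rw [sum_neg_eq hS]
    refine Finset.sum_congr rfl fun l _ => ?_
    rw [hws, sub_neg_eq_add]
  rw [h2] at h1
  -- the extended real version
  set W : K → ℝ≥0∞ := fun k => ENNReal.ofReal (w k) with hW
  have t1 := hQ W (fun k hk => by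
      have : k ∉ S := fun h => hk (hSQ k h)
      simp [hW, hwS k this]) (by simp [hW, hwS 0 h0]) (fun k => by simp [hW, hws])
  have t2 : ENNReal.ofReal (∑ k ∈ S, ∑ l ∈ S, w k * w l * w (k + l)) ≤ ∑' k, ∑' l, W k * W l * W (k + l) := by
    rw [ENNReal.ofReal_sum_of_nonneg fun k _ => Finset.sum_nonneg fun l _ =>
      mul_nonneg (mul_nonneg (hw0 _) (hw0 _)) (hw0 _)]
    refine le_trans (Finset.sum_le_sum fun k _ => ?_) (ENNReal.sum_le_tsum S)
    rw [ENNReal.ofReal_sum_of_nonneg fun l _ => mul_nonneg (mul_nonneg (hw0 _) (hw0 _)) (hw0 _)]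
    refine le_trans (Finset.sum_le_sum fun l _ => ?_) (ENNReal.sum_le_tsum S)
    rw [ENNReal.ofReal_mul (mul_nonneg (hw0 _) (hw0 _)), ENNReal.ofReal_mul (hw0 _)]
  have t3 : ∑' k, W k ^ 2 = ENNReal.ofReal (phi S 1 y) := by
    rw [phi_eq, ENNReal.ofReal_sum_of_nonneg fun k _ => sq_nonneg _, tsum_eq_sum (s := S)]
    · refine Finset.sum_congr rfl fun k _ => ?_
      rw [hW, ← ENNReal.ofReal_pow (hw0 k)]
      simp only [hw, pow_one]
    · intro k hk
      simp [hW, hwS k hk]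
  have t4 : ∑' k, ((sz k : ℝ≥0∞) * W k) ^ 2 ≤ ENNReal.ofReal (phi S 2 y) := by
    rw [phi_eq, ENNReal.ofReal_sum_of_nonneg fun k _ => sq_nonneg _, tsum_eq_sum (s := S)]
    · refine Finset.sum_le_sum fun k _ => ?_
      rw [← ENNReal.ofReal_natCast, hW, ← ENNReal.ofReal_mul (Nat.cast_nonneg _),
        ← ENNReal.ofReal_pow (mul_nonneg (Nat.cast_nonneg _) (hw0 k))]
      apply ENNReal.ofReal_le_ofReal
      apply pow_le_pow_left₀ (mul_nonneg (Nat.cast_nonneg _) (hw0 k))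
      simp only [hw]
      calc (sz k : ℝ) * (nk k * en (y k)) ≤ nk k * (nk k * en (y k)) :=
            mul_le_mul_of_nonneg_right (sz_le_nk k) (hw0 k)
        _ = _ := by ring
    · intro k hk
      simp [hW, hwS k hk]
  have t5 : ENNReal.ofReal (∑ k ∈ S, ∑ l ∈ S, w k * w l * w (k + l))
      ≤ ENNReal.ofReal (B * phi S 1 y * Real.sqrt (phi S 2 y)) := by
    refine t2.trans (t1.trans ?_)
    rw [t3, ENNReal.ofReal_mul (mul_nonneg hB (phi_nonneg _ _ _)), ENNReal.ofReal_mul hB]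
    refine mul_le_mul_right ?_ _
    refine (ENNReal.rpow_le_rpow t4 (by norm_num)).trans (le_of_eq ?_)
    rw [ENNReal.ofReal_rpow_of_nonneg (phi_nonneg _ _ _) (by norm_num), Real.sqrt_eq_rpow]
  have t6 := (ENNReal.ofReal_le_ofReal_iff (mul_nonneg (mul_nonneg hB (phi_nonneg _ _ _))
    (Real.sqrt_nonneg _))).1 t5
  calc |prd S qk y| ≤ 2 * Real.pi * ∑ k ∈ S, ∑ l ∈ S, w k * w l * w (k + l) := h1
    _ ≤ 2 * Real.pi * (B * phi S 1 y * Real.sqrt (phi S 2 y)) :=
        mul_le_mul_of_nonneg_left t6 (by positivity)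
    _ = _ := by ring

end Pool.Agent.Y6
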