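import Pool.Agent.Y6.Stm3

/-!
Weighted energies: elementary facts.
-/

open MeasureTheory Set Filter Topology
open scoped ContDiff ENNReal

set_option autoImplicit false

namespace Pool.Agent.Y6

open Pool.Agent.H356R3.NS hiding K sq

/-- admissible weights -/
def Adm (ρ : K → ℝ) : Prop := ∃ (C : ℝ) (m : ℕ), ∀ k, |ρ k| ≤ C * pw k ^ m

lemma Adm.pos {ρ : K → ℝ} (h : Adm ρ) : ∃ (C : ℝ) (m : ℕ), 0 ≤ C ∧ ∀ k, |ρ k| ≤ C * pw k ^ m := by
  obtain ⟨C, m, hC⟩ := h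
  refine ⟨C, m, ?_, hC⟩
  have h1 := (abs_nonneg _).trans (hC 0)
  have h2 : pw (0 : K) = 1 := by simp [pw, l1]
  rwa [h2, one_pow, mul_one] at h1

lemma adm_const (a : ℝ) : Adm fun _ => a := ⟨|a|, 0, fun k => by simp⟩

lemma qk_le_pw (k : K) : qk k ≤ pw k ^ 2 := by
  rw [show qk k = nk k ^ 2 from (nk_sq k).symm]
  exact pow_le_pow_left₀ (nk_nonneg k) (nk_le_pw k) 2

lemma adm_qk : Adm qk := ⟨1, 2, fun k => by rw [abs_of_nonneg (qk_nonneg k), one_mul]; exact qk_le_pw k⟩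

lemma adm_nk : Adm nk := ⟨1, 1, fun k => by
  rw [abs_of_nonneg (nk_nonneg k), one_mul, pow_one]; exact nk_le_pw k⟩

lemma Adm.mul {ρ ρ' : K → ℝ} (h : Adm ρ) (h' : Adm ρ') : Adm fun k => ρ k * ρ' k := by
  obtain ⟨C, m, hC0, hC⟩ := h.pos
  obtain ⟨C', m', hC0', hC'⟩ := h'.pos
  refine ⟨C * C', m + m', fun k => ?_⟩
  rw [abs_mul, pow_add]
  calc |ρ k| * |ρ' k| ≤ (C * pw k ^ m) * (C' * pw k ^ m') :=
        mul_le_mul (hC k) (hC' k) (abs_nonneg _) ((abs_nonneg _).trans (hC k))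
    _ = _ := by ring

lemma Adm.of_le {ρ ρ' : K → ℝ} (h : Adm ρ') (hle : ∀ k, |ρ k| ≤ |ρ' k|) : Adm ρ := by
  obtain ⟨C, m, hC⟩ := h
  exact ⟨C, m, fun k => (hle k).trans (hC k)⟩

lemma Adm.pow {ρ : K → ℝ} (h : Adm ρ) (n : ℕ) : Adm fun k => ρ k ^ n := by
  induction n with
  | zero => simpa using adm_const 1
  | succ n ih => simpa only [pow_succ] using ih.mul h

lemma Adm.const_mul {ρ : K → ℝ} (h : Adm ρ) (a : ℝ) : Adm fun k => a * ρ k := (adm_const a).mul h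

lemma Adm.sqrt {ρ : K → ℝ} (h : Adm ρ) : Adm fun k => Real.sqrt (ρ k) := by
  obtain ⟨C, m, hC0, hC⟩ := h.pos
  refine ⟨1 + C, m, fun k => ?_⟩
  have h1 : 1 ≤ pw k ^ m := one_le_pow₀ (one_le_pw k)
  have h2 : Real.sqrt (ρ k) ≤ 1 + |ρ k| := by
    apply Real.sqrt_le_iff.2
    have := abs_nonneg (ρ k)
    refine ⟨by linarith, ?_⟩
    have := le_abs_self (ρ k)
    nlinarith
  rw [abs_of_nonneg (Real.sqrt_nonneg _)]
  have := hC k
  nlinarith

lemma ind_nonneg (W : Set K) (k : K) : 0 ≤ ind W k := by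
  unfold ind; split_ifs <;> norm_num

lemma ind_le_one (W : Set K) (k : K) : ind W k ≤ 1 := by
  unfold ind; split_ifs <;> norm_num

lemma ind_of_mem {W : Set K} {k : K} (h : k ∈ W) : ind W k = 1 := by simp [ind, h]

lemma ind_of_notMem {W : Set K} {k : K} (h : k ∉ W) : ind W k = 0 := by simp [ind, h]

lemma adm_ind (W : Set K) : Adm (ind W) := ⟨1, 0, fun k => by
  rw [abs_of_nonneg (ind_nonneg W k)]; simpa using ind_le_one W k⟩

section fld

variable {y : K → C3} {ρ ρ' : K → ℝ}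

lemma en2_pw (hy : RapK y) (m : ℕ) : ∃ C : ℝ, ∀ k, pw k ^ m * en2 (y k) ≤ C := by
  obtain ⟨C, hC⟩ := hy m
  refine ⟨3 * C ^ 2, fun k => ?_⟩
  have h1 : 1 ≤ pw k := one_le_pw k
  have h2 : pw k ^ m ≤ (pw k ^ m) ^ 2 := by
    have := one_le_pow₀ (n := m) h1
    nlinarith
  have h3 := hC k
  have h4 : 0 ≤ pw k ^ m * ‖y k‖ := by have := pw_pos k; positivity
  calc pw k ^ m * en2 (y k) ≤ (pw k ^ m) ^ 2 * (3 * ‖y k‖ ^ 2) :=
        mul_le_mul h2 (en2_le _) (en2_nonneg _) (by positivity)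
    _ = 3 * (pw k ^ m * ‖y k‖) ^ 2 := by ring
    _ ≤ 3 * C ^ 2 := by gcongr

lemma wn_summ (hy : RapK y) (h : Adm ρ) : Summable fun k => ρ k * en2 (y k) := by
  obtain ⟨C, m, hC0, hC⟩ := h.pos
  obtain ⟨C', hC'⟩ := en2_pw hy (m + 4)
  obtain ⟨h1, h2⟩ := summ_of_bound (f := fun k => en2 (y k)) m hC'
  refine Summable.of_norm_bounded (h1.mul_left C) fun k => ?_
  rw [norm_mul, Real.norm_eq_abs, Real.norm_eq_abs, abs_of_nonneg (en2_nonneg _)]
  calc |ρ k| * en2 (y k) ≤ (C * pw k ^ m) * en2 (y k) :=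
        mul_le_mul_of_nonneg_right (hC k) (en2_nonneg _)
    _ = C * (pw k ^ m * en2 (y k)) := by ring
    _ ≤ _ := mul_le_mul_of_nonneg_left (h2 k) hC0

lemma wn_nonneg (h : ∀ k, 0 ≤ ρ k) : 0 ≤ wn ρ y :=
  tsum_nonneg fun k => mul_nonneg (h k) (en2_nonneg _)

lemma wn_zero_weight : wn (fun _ => 0) y = 0 := by simp [wn]

lemma wn_mono (hy : RapK y) (h : Adm ρ) (h' : Adm ρ') (hle : ∀ k, ρ k ≤ ρ' k) : wn ρ y ≤ wn ρ' y :=
  (wn_summ hy h).tsum_le_tsum (fun k => mul_le_mul_of_nonneg_right (hle k) (en2_nonneg _)) (wn_summ hy h')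

lemma wn_const_mul (a : ℝ) : wn (fun k => a * ρ k) y = a * wn ρ y := by
  unfold wn
  rw [← tsum_mul_left]
  exact tsum_congr fun k => by ring

lemma wn_add (hy : RapK y) (h : Adm ρ) (h' : Adm ρ') : wn (fun k => ρ k + ρ' k) y = wn ρ y + wn ρ' y := by
  unfold wn
  rw [← (wn_summ hy h).tsum_add (wn_summ hy h')]
  exact tsum_congr fun k => by ring

lemma wn_sum {ι : Type*} (s : Finset ι) {f : ι → K → ℝ} (hy : RapK y) (h : ∀ i ∈ s, Adm (f i)) :
    wn (fun k => ∑ i ∈ s, f i k) y = ∑ i ∈ s, wn (f i) y := by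
  unfold wn
  rw [← Summable.tsum_finsetSum fun i hi => wn_summ hy (h i hi)]
  exact tsum_congr fun k => by rw [Finset.sum_mul]

/-- Cauchy-Schwarz -/
lemma wn_cs {a b : K → ℝ} (hy : RapK y) (ha : Adm a) (hb : Adm b) (ha0 : ∀ k, 0 ≤ a k)
    (hb0 : ∀ k, 0 ≤ b k) :
    wn (fun k => a k * b k) y ≤ Real.sqrt (wn (fun k => a k ^ 2) y) * Real.sqrt (wn (fun k => b k ^ 2) y) := by
  have h1 := Real.inner_le_Lp_mul_Lq_tsum_of_nonneg (p := 2) (q := 2)
    (f := fun k => a k * en (y k)) (g := fun k => b k * en (y k)) (Real.HolderConjugate.two_two)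
    (fun k => mul_nonneg (ha0 k) (en_nonneg _)) (fun k => mul_nonneg (hb0 k) (en_nonneg _))
    (by
      refine (wn_summ hy (ha.pow 2)).congr fun k => ?_
      rw [Real.rpow_two, mul_pow, en_sq])
    (by
      refine (wn_summ hy (hb.pow 2)).congr fun k => ?_
      rw [Real.rpow_two, mul_pow, en_sq])
  have e0 : ∀ c d : K → ℝ, ∀ k, c k * en (y k) * (d k * en (y k)) = c k * d k * en2 (y k) := by
    intro c d k
    rw [← en_sq]; ring
  have e1 : wn (fun k => a k * b k) y = ∑' k, a k * en (y k) * (b k * en (y k)) :=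
    tsum_congr fun k => (e0 a b k).symm
  have e2 : ∀ c : K → ℝ, (∑' k, (c k * en (y k)) ^ (2 : ℝ)) ^ (1 / 2 : ℝ)
      = Real.sqrt (wn (fun k => c k ^ 2) y) := by
    intro c
    rw [Real.sqrt_eq_rpow]
    congr 1
    refine tsum_congr fun k => ?_
    rw [Real.rpow_two, mul_pow, en_sq]
  rw [e1, ← e2, ← e2]
  exact h1

end fld

end Pool.Agent.Y6
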